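import Pool.Agent.Helper95.SH.LC

namespace Pool.Agent.Helper95.SH

open Finset

/-! ## L2 (file LL.lean): heights, counting, the two inclusions for `E` -/

theorem LL_floor1 {M : ℕ} (hM : 0 < M) (x : ℕ) {η : ℝ} (h0 : 0 ≤ η) (h1 : η < 1) :
    ⌊((x : ℝ) + η) / M⌋ = ((x / M : ℕ) : ℤ) := by
  have hM' : (0 : ℝ) < M := by exact_mod_cast hM
  have h2 := Nat.div_add_mod x M
  have h3 := Nat.mod_lt x hM
  rw [Int.floor_eq_iff]
  constructor
  · rw [le_div_iff₀ hM']
    have h4 : ((x / M : ℕ) : ℝ) * M ≤ x := by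
      exact_mod_cast Nat.div_mul_le_self x M
    rw [Int.cast_natCast]
    linarith
  · rw [div_lt_iff₀ hM']
    have h4 : x + 1 ≤ (x / M + 1) * M := by
      nlinarith
    have h5 : (x : ℝ) + 1 ≤ (((x / M : ℕ) : ℝ) + 1) * M := by exact_mod_cast h4
    rw [Int.cast_natCast]
    linarith

theorem LL_floor2 {M : ℕ} (hM : 0 < M) (x : ℕ) {η : ℝ} (h0 : 0 < η) (h1 : η < 1) :
    ⌊((x : ℝ) - η) / M⌋ = (((x + M - 1) / M : ℕ) : ℤ) - 1 := by
  have hM' : (0 : ℝ) < M := by exact_mod_cast hM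
  have h2 := Nat.div_add_mod (x + M - 1) M
  have h3 := Nat.mod_lt (x + M - 1) hM
  rw [Int.floor_eq_iff]
  constructor
  · rw [le_div_iff₀ hM']
    have h4 : (x + M - 1) / M * M ≤ x + M - 1 := Nat.div_mul_le_self _ M
    have h5 : (((x + M - 1) / M : ℕ) : ℝ) * M ≤ x + M - 1 := by
      have : ((x + M - 1) / M : ℕ) * M + 1 ≤ x + M := by omega
      have h6 : (((x + M - 1) / M : ℕ) : ℝ) * M + 1 ≤ x + M := by exact_mod_cast this
      linarith
    rw [Int.cast_sub, Int.cast_natCast, Int.cast_one]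
    linarith
  · rw [div_lt_iff₀ hM']
    have h4 : x ≤ (x + M - 1) / M * M := by
      have : (x + M - 1) / M * M = M * ((x + M - 1) / M) := Nat.mul_comm _ _
      omega
    have h5 : (x : ℝ) ≤ (((x + M - 1) / M : ℕ) : ℝ) * M := by exact_mod_cast h4
    rw [Int.cast_sub, Int.cast_natCast, Int.cast_one]
    linarith

theorem hgt_start (m n : ℕ) {δ : ℝ} (hδ0 : 0 < δ) (hδ1 : δ * (m + 2) < 1) {j : ℕ} (hj : j ≤ m + 1) :
    hgt n δ (((n : ℝ) + δ) / (m + 1)) j = yE (m + 1) n j := by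
  unfold hgt yE
  rw [← LL_floor1 (M := m + 1) (by omega) ((m + 1 - j) * n) (η := δ * (m + 1 - j)) ?_ ?_]
  · congr 1
    have hM : ((m : ℝ) + 1) ≠ 0 := by positivity
    rw [Nat.cast_mul, Nat.cast_sub hj]
    push_cast
    field_simp
  · have : (j : ℝ) ≤ m + 1 := by exact_mod_cast hj
    exact mul_nonneg hδ0.le (by linarith)
  · have : (0 : ℝ) ≤ j := by positivity
    nlinarith

theorem hgt_E (m n : ℕ) {δ : ℝ} (hδ0 : 0 < δ) (hδ1 : δ * (m + 2) < 1) {j : ℕ} (hj : j ≤ m + 1) :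
    hgt n δ ((n : ℝ) / (m + 2)) j = yE (m + 2) n j := by
  unfold hgt yE
  rw [← LL_floor1 (M := m + 2) (by omega) ((m + 2 - j) * n) (η := δ * (m + 2)) (by positivity) hδ1]
  congr 1
  have hM : ((m : ℝ) + 2) ≠ 0 := by positivity
  rw [Nat.cast_mul, Nat.cast_sub (by omega)]
  push_cast
  field_simp
  ring

theorem hgt_H (m n : ℕ) (_hn : 0 < n) {δ : ℝ} (hδ0 : 0 < δ) (hδ1 : 2 * δ * (m + 2) ^ 2 < 1) {j : ℕ}
    (hj : j ≤ m + 1) : hgt n δ ((n : ℝ) / (m + 2) + 2 * δ) j = yH (m + 2) n j := by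
  unfold hgt yH
  split
  · rename_i h0
    subst h0
    rw [Int.floor_eq_iff]
    have : δ < 1 := by
      have hm : (0 : ℝ) ≤ m := by positivity
      nlinarith
    constructor
    · push_cast; linarith
    · push_cast; linarith
  · rename_i h0
    rw [if_neg (by omega)]
    have hj1 : (1 : ℝ) ≤ j := by exact_mod_cast (by omega : 1 ≤ j)
    have hj2 : (j : ℝ) ≤ m + 1 := by exact_mod_cast hj
    have hm : (0 : ℝ) ≤ m := by positivity
    rw [← LL_floor2 (M := m + 2) (by omega) ((m + 2 - j) * n) (η := δ * (2 * j - 1) * (m + 2)) ?_ ?_]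
    · congr 1
      have hM : ((m : ℝ) + 2) ≠ 0 := by positivity
      rw [Nat.cast_mul, Nat.cast_sub (by omega)]
      push_cast
      field_simp
      ring
    · have : (0 : ℝ) < 2 * j - 1 := by linarith
      positivity
    · have h1 : (2 * (j : ℝ) - 1) ≤ 2 * (m + 2) := by linarith
      have h2 : δ * (2 * j - 1) * (m + 2) ≤ δ * (2 * (m + 2)) * (m + 2) := by
        apply mul_le_mul_of_nonneg_right _ (by positivity)
        exact mul_le_mul_of_nonneg_left h1 hδ0.le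
      nlinarith

theorem LL_count_row (m n : ℕ) (hn : 1 ≤ n) :
    ∑ k ∈ Finset.range n, k * m / n = ∑ x ∈ Finset.Ico 1 m, (m - x) * n / m := by
  have h1 : ∀ k ∈ Finset.range n, k * m / n =
      ∑ x ∈ Finset.Ico 1 m, if x * n ≤ k * m then 1 else 0 := by
    intro k hk
    rw [Finset.mem_range] at hk
    rw [← Finset.card_filter]
    have : (Finset.Ico 1 m).filter (fun x => x * n ≤ k * m) = Finset.Ico 1 (k * m / n + 1) := by
      ext x
      rw [Finset.mem_filter, Finset.mem_Ico, Finset.mem_Ico, Nat.lt_succ_iff,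
        Nat.le_div_iff_mul_le (by omega)]
      constructor
      · rintro ⟨⟨h1, _⟩, h3⟩; exact ⟨h1, h3⟩
      · rintro ⟨h1, h3⟩
        refine ⟨⟨h1, ?_⟩, h3⟩
        by_contra hx
        have hmx : m ≤ x := by omega
        have : k * m < x * n := by
          rcases Nat.eq_zero_or_pos m with h0 | h0
          · subst h0
            have : 0 < x * n := Nat.mul_pos (by omega) (by omega)
            simpa using this
          · calc k * m < n * m := Nat.mul_lt_mul_of_pos_right hk h0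
              _ = m * n := Nat.mul_comm _ _
              _ ≤ x * n := Nat.mul_le_mul_right _ hmx
        omega
    rw [this]
    simp
  rw [Finset.sum_congr rfl h1, Finset.sum_comm]
  apply Finset.sum_congr rfl
  intro x hx
  rw [Finset.mem_Ico] at hx
  rw [← Finset.sum_range_reflect, ← Finset.card_filter]
  have hc : (m - x) * n / m ≤ n := by
    apply Nat.div_le_of_le_mul
    exact Nat.mul_le_mul_right _ (Nat.sub_le _ _)
  have : (Finset.range n).filter (fun j => x * n ≤ (n - 1 - j) * m) =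
      Finset.range ((m - x) * n / m) := by
    ext j
    rw [Finset.mem_filter, Finset.mem_range, Finset.mem_range]
    have hiff : j < n → (x * n ≤ (n - 1 - j) * m ↔ j < (m - x) * n / m) := by
      intro hj
      rw [Nat.lt_iff_add_one_le, Nat.le_div_iff_mul_le (by omega)]
      obtain ⟨c, hc⟩ : ∃ c, n = j + 1 + c := ⟨n - (j + 1), by omega⟩
      obtain ⟨y, hy⟩ : ∃ y, m = x + y := ⟨m - x, by omega⟩
      have e1 : n - 1 - j = c := by omega
      have e2 : m - x = y := by omega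
      rw [e1, e2, hc, hy]
      constructor
      · intro h; nlinarith
      · intro h; nlinarith
    constructor
    · rintro ⟨h1, h2⟩; exact (hiff h1).1 h2
    · intro h; exact ⟨by omega, (hiff (by omega)).2 h⟩
  rw [this]
  simp

theorem LL_sum_yE (m n : ℕ) (hm : 1 ≤ m) :
    ∑ j ∈ range m, yE m n j = (n : ℤ) + ∑ x ∈ Finset.Ico 1 m, (((m - x) * n / m : ℕ) : ℤ) := by
  rw [Finset.range_eq_Ico, Finset.sum_eq_sum_Ico_succ_bot (by omega)]
  congr 1
  unfold yE
  rw [Nat.sub_zero, Nat.mul_div_cancel_left _ (by omega)]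

theorem LL_alpha (m n : ℕ) (hn : 1 ≤ n) :
    (alpha m n : ℤ) = ∑ x ∈ Finset.Ico 1 m, (((m - x) * n / m : ℕ) : ℤ) -
      ∑ x ∈ Finset.Ico 1 (m - 1), (((m - 1 - x) * n / (m - 1) : ℕ) : ℤ) := by
  unfold alpha
  have h1 : ((∑ k ∈ Finset.range n, (k * m / n - k * (m - 1) / n) : ℕ) : ℤ) =
      ((∑ k ∈ Finset.range n, k * m / n : ℕ) : ℤ) -
        ((∑ k ∈ Finset.range n, k * (m - 1) / n : ℕ) : ℤ) := by
    rw [Nat.cast_sum, Nat.cast_sum, Nat.cast_sum, ← Finset.sum_sub_distrib]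
    apply Finset.sum_congr rfl
    intro k _
    have : k * (m - 1) / n ≤ k * m / n :=
      Nat.div_le_div_right (Nat.mul_le_mul_left _ (Nat.sub_le _ _))
    rw [Nat.cast_sub this]
  rw [h1, LL_count_row m n hn, LL_count_row (m - 1) n hn, Nat.cast_sum, Nat.cast_sum]

theorem count_E (m n : ℕ) (hn : 0 < n) :
    ∑ j ∈ range (m + 2), (yE (m + 2) n j - yE (m + 1) n j) = (alpha (m + 2) n : ℤ) := by
  rw [Finset.sum_sub_distrib, LL_sum_yE _ _ (by omega), Finset.sum_range_succ (yE (m + 1) n),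
    LL_sum_yE _ _ (by omega), LL_alpha _ _ (by omega)]
  have h0 : yE (m + 1) n (m + 1) = 0 := by simp [yE]
  rw [h0, show m + 2 - 1 = m + 1 from rfl]
  ring

theorem LL_card (M n : ℕ) (hM : 0 < M) :
    ((Finset.Ico 1 M).filter (fun x => M ∣ (M - x) * n)).card = Nat.gcd M n - 1 := by
  set d := Nat.gcd M n with hd
  have hdpos : 0 < d := Nat.gcd_pos_of_pos_left _ hM
  obtain ⟨g, hg⟩ : d ∣ M := Nat.gcd_dvd_left _ _
  obtain ⟨b, hb⟩ : d ∣ n := Nat.gcd_dvd_right _ _
  have hgpos : 0 < g := by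
    rcases Nat.eq_zero_or_pos g with h | h
    · subst h; omega
    · exact h
  have hcop : Nat.Coprime g b := by
    have := Nat.coprime_div_gcd_div_gcd (m := M) (n := n) (by rw [← hd]; exact hdpos)
    rw [← hd] at this
    have e1 : M / d = g := by rw [hg]; exact Nat.mul_div_cancel_left _ hdpos
    have e2 : n / d = b := by rw [hb]; exact Nat.mul_div_cancel_left _ hdpos
    rwa [e1, e2] at this
  have h1 : (Finset.Ico 1 M).filter (fun x => M ∣ (M - x) * n) =
      (Finset.Ioc 0 (M - 1)).filter (fun x => g ∣ x) := by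
    ext x
    rw [Finset.mem_filter, Finset.mem_filter, Finset.mem_Ico, Finset.mem_Ioc]
    have hiff : x < M → (M ∣ (M - x) * n ↔ g ∣ x) := by
      intro hx
      have e1 : M ∣ (M - x) * n ↔ g ∣ (M - x) := by
        rw [hb, hg, show (d * g - x) * (d * b) = d * ((d * g - x) * b) by ring]
        rw [Nat.mul_dvd_mul_iff_left hdpos]
        constructor
        · intro h; exact (Nat.Coprime.dvd_of_dvd_mul_right hcop h)
        · intro h; exact Dvd.dvd.mul_right h b
      rw [e1]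
      have hgM : g ∣ M := ⟨d, by rw [hg]; ring⟩
      rw [Nat.dvd_sub_iff_right hx.le hgM]
    constructor
    · rintro ⟨⟨h1, h2⟩, h3⟩; exact ⟨⟨by omega, by omega⟩, (hiff h2).1 h3⟩
    · rintro ⟨⟨h1, h2⟩, h3⟩; exact ⟨⟨by omega, by omega⟩, (hiff (by omega)).2 h3⟩
  rw [h1, Nat.Ioc_filter_dvd_card_eq_div]
  rw [hg]
  have : d * g - 1 = g * (d - 1) + (g - 1) := by
    obtain ⟨c, hc⟩ : ∃ c, d = c + 1 := ⟨d - 1, by omega⟩
    rw [hc]
    have : (c + 1) * g = g * c + g := by ring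
    rw [this]
    simp
    omega
  rw [this, Nat.mul_add_div hgpos, Nat.div_eq_of_lt (by omega)]
  simp

theorem LL_ceil_dvd {M x : ℕ} (hM : 0 < M) (h : M ∣ x) : (x + M - 1) / M = x / M := by
  obtain ⟨c, hc⟩ := h
  have e2 : x / M = c := by rw [hc]; exact Nat.mul_div_cancel_left _ hM
  rw [e2]
  apply Nat.div_eq_of_lt_le
  · rw [Nat.mul_comm c M]; omega
  · rw [Nat.succ_mul, Nat.mul_comm c M]; omega

theorem LL_ceil_ndvd {M x : ℕ} (hM : 0 < M) (h : ¬ M ∣ x) : (x + M - 1) / M = x / M + 1 := by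
  have hmod : 0 < x % M := Nat.pos_of_ne_zero fun h' => h (Nat.dvd_of_mod_eq_zero h')
  have hlt := Nat.mod_lt x hM
  have hdm := Nat.div_add_mod x M
  apply Nat.div_eq_of_lt_le
  · rw [Nat.succ_mul, Nat.mul_comm (x / M) M]; omega
  · rw [Nat.succ_mul, Nat.succ_mul, Nat.mul_comm (x / M) M]; omega

theorem count_H (m n : ℕ) (hn : 0 < n) :
    ∑ j ∈ range (m + 2), (yH (m + 2) n j - yE (m + 1) n j) =
      (alpha (m + 2) n : ℤ) + 1 - Nat.gcd (m + 2) n := by
  have hpt : ∀ j ∈ range (m + 2), yH (m + 2) n j - yE (m + 1) n j =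
      (yE (m + 2) n j - yE (m + 1) n j) -
        (if j ∈ (Finset.Ico 1 (m + 2)).filter (fun x => (m + 2) ∣ (m + 2 - x) * n) then 1 else 0) := by
    intro j hj
    rw [Finset.mem_range] at hj
    unfold yH
    split
    · rename_i h0
      subst h0
      rw [if_neg (by simp)]
      have : yE (m + 2) n 0 = n := by
        unfold yE
        rw [Nat.sub_zero, Nat.mul_div_cancel_left _ (by omega)]
      rw [this]
      ring
    · rename_i h0
      rw [if_neg (by omega)]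
      set x := (m + 2 - j) * n with hx
      have hE : yE (m + 2) n j = ((x / (m + 2) : ℕ) : ℤ) := rfl
      rw [hE]
      by_cases hdv : (m + 2) ∣ x
      · rw [if_pos (show j ∈ (Finset.Ico 1 (m + 2)).filter (fun x => (m + 2) ∣ (m + 2 - x) * n) from
          by rw [Finset.mem_filter, Finset.mem_Ico]; exact ⟨⟨by omega, hj⟩, hdv⟩)]
        rw [LL_ceil_dvd (by omega) hdv]
        ring
      · rw [if_neg (show j ∉ (Finset.Ico 1 (m + 2)).filter (fun x => (m + 2) ∣ (m + 2 - x) * n) from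
          fun h => hdv (Finset.mem_filter.1 h).2)]
        rw [LL_ceil_ndvd (by omega) hdv]
        push_cast
        ring
  rw [Finset.sum_congr rfl hpt, Finset.sum_sub_distrib, count_E m n hn]
  have h2 : ∑ j ∈ range (m + 2),
      (if j ∈ (Finset.Ico 1 (m + 2)).filter (fun x => (m + 2) ∣ (m + 2 - x) * n) then (1 : ℤ) else 0) =
      ((Nat.gcd (m + 2) n - 1 : ℕ) : ℤ) := by
    rw [← LL_card (m + 2) n (by omega), Finset.sum_ite_mem]
    rw [Finset.inter_eq_right.2]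
    · simp
    · intro x hx
      rw [Finset.mem_filter, Finset.mem_Ico] at hx
      rw [Finset.mem_range]
      exact hx.1.2
  rw [h2]
  have hg : 1 ≤ Nat.gcd (m + 2) n := Nat.gcd_pos_of_pos_left _ (by omega)
  rw [Nat.cast_sub hg]
  push_cast
  ring

theorem LL_runs_congr {y y' : ℕ → ℤ} {m : ℕ} (h : ∀ j ≤ m, y j = y' j) : runs y m = runs y' m := by
  funext i
  unfold runs
  rw [h i (by omega)]
  split
  · rfl
  · rename_i hi
    rw [h (i + 1) (by omega)]

theorem LL_runs_snoc (y : ℕ → ℤ) (m : ℕ) (h : y (m + 1) = 0) :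
    runs y (m + 1) = Fin.snoc (runs y m) 0 := by
  funext i
  refine Fin.lastCases ?_ (fun i => ?_) i
  · rw [Fin.snoc_last]
    unfold runs
    simp [h]
  · rw [Fin.snoc_castSucc]
    unfold runs
    have hi : (i.castSucc : Fin (m + 2)).val = i.val := rfl
    rw [hi]
    rw [if_neg (by omega)]
    split
    · rename_i h1
      rw [h1, h]
    · rfl

theorem LL_delta (m : ℕ) : ∃ δ : ℝ, Irrational δ ∧ 0 < δ ∧ δ < 1 ∧ δ * (m + 2) < 1 ∧
    2 * δ * (m + 2) ^ 2 < 1 := by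
  have h8 : (8 * (m + 2) ^ 2 : ℕ) ≠ 0 := by positivity
  refine ⟨Real.sqrt 2 / ((8 * (m + 2) ^ 2 : ℕ) : ℝ), irrational_sqrt_two.div_natCast h8, ?_⟩
  have hs0 : 0 < Real.sqrt 2 := by positivity
  have hs2 : Real.sqrt 2 < 2 := by
    rw [Real.sqrt_lt' (by norm_num)]; norm_num
  set δ := Real.sqrt 2 / ((8 * (m + 2) ^ 2 : ℕ) : ℝ) with hδ
  have hpos : (0 : ℝ) < ((8 * (m + 2) ^ 2 : ℕ) : ℝ) := by positivity
  have hδ0 : 0 < δ := by positivity
  have hm : (0 : ℝ) ≤ m := by positivity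
  have hkey : δ * (8 * ((m : ℝ) + 2) ^ 2) = Real.sqrt 2 := by
    rw [hδ]
    push_cast
    field_simp
  have h3 : 2 * δ * ((m : ℝ) + 2) ^ 2 < 1 := by nlinarith
  have h4 : δ * ((m : ℝ) + 2) < 1 := by nlinarith [mul_pos hδ0 (show (0 : ℝ) < (m : ℝ) + 2 by linarith)]
  exact ⟨hδ0, by nlinarith, h4, h3⟩

theorem lines_E (m n : ℕ) (hn : 0 < n) :
    EV (MvPolynomial.X 0 : U2) (MvPolynomial.X 1) (runs (yE (m + 2) n) (m + 1)) -
      MvPolynomial.C (MvPolynomial.X 1) ^ alpha (m + 2) n *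
      EV (MvPolynomial.X 0 : U2) (MvPolynomial.X 1) (runs (yE (m + 1) n) m) ∈
      SS (MvPolynomial.X 0 : U2) (MvPolynomial.X 1) := by
  obtain ⟨δ, hirr, hδ0, hδ1, hδ2, _⟩ := LL_delta m
  have hm : (0 : ℝ) ≤ m := by positivity
  have hn' : (1 : ℝ) ≤ n := by exact_mod_cast hn
  have hp : (n : ℝ) / (m + 2) ≤ ((n : ℝ) + δ) / (m + 1) := by
    rw [div_le_div_iff₀ (by positivity) (by positivity)]
    nlinarith
  have hc := chain m n hirr hδ0 hδ1 hp le_rfl
  have hsum : ∑ j ∈ range (m + 2), (hgt n δ ((n : ℝ) / (m + 2)) j -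
      hgt n δ (((n : ℝ) + δ) / (m + 1)) j) = (alpha (m + 2) n : ℤ) := by
    rw [← count_E m n hn]
    apply Finset.sum_congr rfl
    intro j hj
    rw [Finset.mem_range] at hj
    rw [hgt_E m n hδ0 hδ2 (by omega), hgt_start m n hδ0 hδ2 (by omega)]
  rw [hsum, Int.toNat_natCast,
    LL_runs_congr (y := hgt n δ ((n : ℝ) / (m + 2))) (y' := yE (m + 2) n)
      (fun j hj => hgt_E m n hδ0 hδ2 hj),
    LL_runs_congr (y := hgt n δ (((n : ℝ) + δ) / (m + 1))) (y' := yE (m + 1) n)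
      (fun j hj => hgt_start m n hδ0 hδ2 hj),
    LL_runs_snoc (yE (m + 1) n) m (by simp [yE]), EV_snoc_zero] at hc
  exact hc

theorem lines_H (m n : ℕ) (hn : 0 < n) :
    EV (MvPolynomial.X 0 : U2) (MvPolynomial.X 1) (runs (yH (m + 2) n) (m + 1)) -
      MvPolynomial.C (MvPolynomial.X 1) ^ (alpha (m + 2) n + 1 - Nat.gcd (m + 2) n) *
      EV (MvPolynomial.X 0 : U2) (MvPolynomial.X 1) (runs (yE (m + 1) n) m) ∈
      SS (MvPolynomial.X 0 : U2) (MvPolynomial.X 1) := by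
  obtain ⟨δ, hirr, hδ0, hδ1, hδ2, hδ3⟩ := LL_delta m
  have hm : (0 : ℝ) ≤ m := by positivity
  have hn' : (1 : ℝ) ≤ n := by exact_mod_cast hn
  have hp : (n : ℝ) / (m + 2) + 2 * δ ≤ ((n : ℝ) + δ) / (m + 1) := by
    have h1 : (n : ℝ) / (m + 1) - (n : ℝ) / (m + 2) = n / ((m + 1) * (m + 2)) := by
      field_simp
      ring
    have h2 : 2 * δ ≤ (n : ℝ) / ((m + 1) * (m + 2)) := by
      rw [le_div_iff₀ (by positivity)]
      nlinarith
    have h3 : ((n : ℝ) + δ) / (m + 1) = (n : ℝ) / (m + 1) + δ / (m + 1) := by ring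
    have h4 : 0 ≤ δ / ((m : ℝ) + 1) := by positivity
    linarith
  have hc := chain m n hirr hδ0 hδ1 hp (by linarith)
  have hsum : ∑ j ∈ range (m + 2), (hgt n δ ((n : ℝ) / (m + 2) + 2 * δ) j -
      hgt n δ (((n : ℝ) + δ) / (m + 1)) j) = (alpha (m + 2) n : ℤ) + 1 - Nat.gcd (m + 2) n := by
    rw [← count_H m n hn]
    apply Finset.sum_congr rfl
    intro j hj
    rw [Finset.mem_range] at hj
    rw [hgt_H m n hn hδ0 hδ3 (by omega), hgt_start m n hδ0 hδ2 (by omega)]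
  have htn : ((alpha (m + 2) n : ℤ) + 1 - Nat.gcd (m + 2) n).toNat =
      alpha (m + 2) n + 1 - Nat.gcd (m + 2) n := by omega
  rw [hsum, htn,
    LL_runs_congr (y := hgt n δ ((n : ℝ) / (m + 2) + 2 * δ)) (y' := yH (m + 2) n)
      (fun j hj => hgt_H m n hn hδ0 hδ3 hj),
    LL_runs_congr (y := hgt n δ (((n : ℝ) + δ) / (m + 1))) (y' := yE (m + 1) n)
      (fun j hj => hgt_start m n hδ0 hδ2 hj),
    LL_runs_snoc (yE (m + 1) n) m (by simp [yE]), EV_snoc_zero] at hc
  exact hc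

end Pool.Agent.Helper95.SH
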