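import Pool.Agent.Helper95.SH.IA
import Pool.Agent.Helper95.SH.LL

/-!
# The two inclusions in terms of `F` (MP_36e183_co)
-/

namespace Pool.Agent.Helper95.SH

open Finset

section
variable {K : Type*} [Field K]

theorem IB_ofFn {m : ℕ} (f : ℕ → ℤ) (g : Fin m → ℤ) (h : ∀ i : Fin m, g i = f i) :
    List.ofFn g = (List.range m).map f := by
  refine List.ext_getElem (by simp) fun i h1 h2 => ?_
  simp [h]

theorem IB_bw (m n : ℕ) : List.ofFn (runs (yE (m + 1) n) m) = EP.bw (m + 1) n := by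
  refine IB_ofFn _ _ fun i => ?_
  unfold runs yE
  split_ifs with h
  · have : m + 1 - ((i : ℕ) + 1) = 0 := by omega
    rw [this, zero_mul, Nat.zero_div]
    rfl
  · rfl

theorem IB_bs (m n : ℕ) : List.ofFn (runs (yH (m + 1) n) m) = EP.bs (m + 1) n := by
  refine IB_ofFn _ _ fun i => ?_
  have hy : ∀ j, yH (m + 1) n j = EP.ys (m + 1) n j := fun j => rfl
  unfold runs
  split_ifs with h
  · rw [h, hy]
    have : EP.ys (m + 1) n (m + 1) = 0 := by
      unfold EP.ys
      rw [if_neg (by omega), if_pos le_rfl]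
    rw [this]
  · rw [hy, hy]

/-- The specialisation of the universal ring. -/
noncomputable def IB_phi (q r : K) : U2 →+* K := MvPolynomial.eval₂Hom (Int.castRingHom K) ![1 + r, q]

theorem IB_phi0 (q r : K) : IB_phi q r (MvPolynomial.X 0) = 1 + r := by
  unfold IB_phi
  simp

theorem IB_phi1 (q r : K) : IB_phi q r (MvPolynomial.X 1) = q := by
  unfold IB_phi
  simp

theorem IB_map_EV (q r : K) {m : ℕ} (b : Fin (m + 1) → ℤ) :
    MvPolynomial.map (IB_phi q r) (EV (MvPolynomial.X 0 : U2) (MvPolynomial.X 1) b) =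
      EP.F q (1 + r) (List.ofFn b) := by
  rw [EV_map, IB_phi0, IB_phi1, EV_symm, IA_F]

/-- The general translation. -/
theorem IB_trans (q r : K) {m m' : ℕ} {b : Fin (m + 1) → ℤ} {b' : Fin (m' + 1) → ℤ} {N : ℕ}
    (h : EV (MvPolynomial.X 0 : U2) (MvPolynomial.X 1) b - MvPolynomial.C (MvPolynomial.X 1) ^ N *
      EV (MvPolynomial.X 0 : U2) (MvPolynomial.X 1) b' ∈
      SS (MvPolynomial.X 0 : U2) (MvPolynomial.X 1)) :
    EP.EPos q r (EP.F q (1 + r) (List.ofFn b) - MvPolynomial.C (q ^ N) *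
      EP.F q (1 + r) (List.ofFn b')) := by
  have h1 := IA_EPos (MvPolynomial.X 0 : U2) (MvPolynomial.X 1) (IB_phi q r) q r (IB_phi0 q r)
    (IB_phi1 q r) h
  rw [map_sub, map_mul, map_pow, MvPolynomial.map_C, IB_phi1, IB_map_EV, IB_map_EV] at h1
  rwa [map_pow]

/-- The first inclusion, for `m ≥ 2`. -/
theorem F_lines_E (q r : K) (m n : ℕ) (hn : 0 < n) :
    EP.EPos q r (EP.F q (1 + r) (EP.bw (m + 2) n) -
      MvPolynomial.C (q ^ EP.alpha (m + 2) n) * EP.F q (1 + r) (EP.bw (m + 1) n)) := by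
  have h := IB_trans q r (lines_E m n hn)
  rwa [IB_bw, IB_bw] at h

/-- The second inclusion, for `m ≥ 2`. -/
theorem F_lines_H (q r : K) (m n : ℕ) (hn : 0 < n) :
    EP.EPos q r (EP.F q (1 + r) (EP.bs (m + 2) n) -
      MvPolynomial.C (q ^ (EP.alpha (m + 2) n + 1 - Nat.gcd (m + 2) n)) *
        EP.F q (1 + r) (EP.bw (m + 1) n)) := by
  have h := IB_trans q r (lines_H m n hn)
  rwa [IB_bs, IB_bw] at h

/-- The case `m = 1`: both sides are `e_n`. -/
theorem F_one (q t : K) (n : ℕ) : EP.F q t [(n : ℤ)] = EP.e K n := by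
  unfold EP.F
  rw [IA_Dsg]
  unfold Dop
  rw [map_one, ← Polynomial.C_1, Polynomial.sum_C_index]
  · unfold se
    have h1 : ((n : ℤ) + ((0 : ℕ) : ℤ)) = (n : ℤ) := by simp
    rw [one_mul, h1, ← mul_assoc, ← pow_add, Even.neg_one_pow ⟨_, rfl⟩, one_mul, IA_e]
  · rw [zero_mul]

theorem bw_one (n : ℕ) : EP.bw 1 n = [(n : ℤ)] := by
  unfold EP.bw
  simp

theorem bs_one (n : ℕ) : EP.bs 1 n = [(n : ℤ)] := by
  unfold EP.bs EP.ys
  simp

end

end Pool.Agent.Helper95.SH
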