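import Mathlib

/-!
# Laurent polynomials in several variables: basic interface

`LP k ι` is the ring of Laurent polynomials over `k` in the variables `x i`, `i : ι`; `xp ν` is the
monomial with exponent vector `ν`.
-/

namespace Pool.Agent.Helper95.SH

open Finset

/-- Laurent polynomials over `k` in the variables `x i`, `i : ι`. -/
abbrev LP (k ι : Type*) [CommRing k] : Type _ := AddMonoidAlgebra k (ι → ℤ)

section

variable {k : Type*} [CommRing k] {ι : Type*}

/-- The monomial with exponent vector `ν`. -/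
noncomputable def xp (ν : ι → ℤ) : LP k ι := AddMonoidAlgebra.single ν 1

theorem xp_zero : (xp 0 : LP k ι) = 1 := rfl

theorem xp_add (ν μ : ι → ℤ) : (xp (ν + μ) : LP k ι) = xp ν * xp μ := by
  unfold xp
  rw [AddMonoidAlgebra.single_mul_single, one_mul]

theorem xp_neg_mul (ν : ι → ℤ) : (xp (-ν) * xp ν : LP k ι) = 1 := by
  rw [← xp_add, neg_add_cancel, xp_zero]

theorem xp_mul_neg (ν : ι → ℤ) : (xp ν * xp (-ν) : LP k ι) = 1 := by
  rw [← xp_add, add_neg_cancel, xp_zero]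

theorem xp_nsmul (ν : ι → ℤ) (n : ℕ) : (xp (n • ν) : LP k ι) = xp ν ^ n := by
  induction n with
  | zero => rw [zero_smul, xp_zero, pow_zero]
  | succ n ih => rw [succ_nsmul, xp_add, ih, pow_succ]

/-- The coefficient of the monomial `ν`. -/
noncomputable def co (ν : ι → ℤ) : LP k ι →ₗ[k] k where
  toFun f := f.coeff ν
  map_add' _ _ := rfl
  map_smul' _ _ := rfl

/-- The constant term. -/
noncomputable def CT : LP k ι →ₗ[k] k := co 0

theorem co_xp [DecidableEq (ι → ℤ)] (ν μ : ι → ℤ) :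
    co ν (xp μ : LP k ι) = if μ = ν then 1 else 0 := by
  show (AddMonoidAlgebra.single μ (1 : k)).coeff ν = _
  rw [AddMonoidAlgebra.coeff_single, Finsupp.single_apply]

theorem co_xp_self (ν : ι → ℤ) : co ν (xp ν : LP k ι) = 1 := by
  classical
  rw [co_xp, if_pos rfl]

theorem co_xp_ne {ν μ : ι → ℤ} (h : μ ≠ ν) : co ν (xp μ : LP k ι) = 0 := by
  classical
  rw [co_xp, if_neg h]

theorem CT_xp [DecidableEq (ι → ℤ)] (μ : ι → ℤ) : CT (xp μ : LP k ι) = if μ = 0 then 1 else 0 :=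
  co_xp _ _

theorem CT_one : CT (1 : LP k ι) = 1 := co_xp_self 0

theorem LP.ext {f g : LP k ι} (h : ∀ ν, co ν f = co ν g) : f = g :=
  AddMonoidAlgebra.ext (Finsupp.ext h)

/-- Every Laurent polynomial is the sum of its monomials. -/
theorem LP.eq_sum (f : LP k ι) : f = ∑ ν ∈ f.coeff.support, co ν f • xp ν := by
  classical
  refine LP.ext fun μ => ?_
  rw [map_sum]
  simp only [map_smul, co_xp, smul_eq_mul, mul_ite, mul_one, mul_zero]
  rw [Finset.sum_ite_eq' f.coeff.support μ fun ν => co ν f]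
  split_ifs with h
  · rfl
  · exact Finsupp.notMem_support_iff.1 h

theorem LP.induct {P : LP k ι → Prop} (h0 : P 0) (hadd : ∀ f g, P f → P g → P (f + g))
    (hx : ∀ (c : k) ν, P (c • xp ν)) (f : LP k ι) : P f := by
  classical
  rw [LP.eq_sum f]
  exact Finset.sum_induction _ P hadd h0 fun ν _ => hx _ _

theorem LP.hom_ext {M : Type*} [AddCommMonoid M] [Module k M] {F G : LP k ι →ₗ[k] M}
    (h : ∀ ν, F (xp ν) = G (xp ν)) : F = G := by
  refine LinearMap.ext fun f => ?_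
  refine LP.induct (P := fun f => F f = G f) ?_ ?_ ?_ f
  · rw [map_zero, map_zero]
  · intro f g hf hg
    rw [map_add, map_add, hf, hg]
  · intro c ν
    rw [map_smul, map_smul, h]

/-- Linear extension of a function on monomials. -/
noncomputable def mkLin {M : Type*} [AddCommMonoid M] [Module k M] (F : (ι → ℤ) → M) :
    LP k ι →ₗ[k] M :=
  Finsupp.linearCombination k F ∘ₗ (AddMonoidAlgebra.coeffLinearEquiv k).toLinearMap

theorem mkLin_xp {M : Type*} [AddCommMonoid M] [Module k M] (F : (ι → ℤ) → M) (ν : ι → ℤ) :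
    mkLin F (xp ν : LP k ι) = F ν := by
  unfold mkLin xp
  rw [LinearMap.comp_apply]
  show Finsupp.linearCombination k F (Finsupp.single ν 1) = F ν
  rw [Finsupp.linearCombination_single, one_smul]

theorem co_mul_xp (f : LP k ι) (ν μ : ι → ℤ) : co ν (f * xp μ) = co (ν - μ) f := by
  classical
  refine LP.induct (P := fun f => co ν (f * xp μ) = co (ν - μ) f) ?_ ?_ ?_ f
  · rw [zero_mul, map_zero, map_zero]
  · intro f g hf hg
    rw [add_mul, map_add, map_add, hf, hg]
  · intro c κ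
    rw [smul_mul_assoc, ← xp_add, map_smul, map_smul, co_xp, co_xp]
    simp only [eq_sub_iff_add_eq]

theorem co_xp_mul (f : LP k ι) (ν μ : ι → ℤ) : co ν (xp μ * f) = co (ν - μ) f := by
  rw [mul_comm, co_mul_xp]

/-- Coefficients of a product. -/
theorem co_mul (f g : LP k ι) (ν : ι → ℤ) :
    co ν (f * g) = ∑ μ ∈ g.coeff.support, co μ g * co (ν - μ) f := by
  conv_lhs => rw [LP.eq_sum g]
  rw [Finset.mul_sum, map_sum]
  refine Finset.sum_congr rfl fun μ _ => ?_
  rw [mul_smul_comm, map_smul, co_mul_xp, smul_eq_mul]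

/-- If a coefficient of a product is nonzero, it comes from coefficients of the factors. -/
theorem exists_of_co_mul_ne {f g : LP k ι} {ν : ι → ℤ} (h : co ν (f * g) ≠ 0) :
    ∃ μ κ, μ + κ = ν ∧ co μ f ≠ 0 ∧ co κ g ≠ 0 := by
  rw [co_mul] at h
  obtain ⟨κ, -, hκ⟩ := Finset.exists_ne_zero_of_sum_ne_zero h
  exact ⟨ν - κ, κ, sub_add_cancel _ _, right_ne_zero_of_mul hκ, left_ne_zero_of_mul hκ⟩

/-- The algebra map given by an additive map of the exponents. -/
noncomputable def mE {ι' : Type*} (h : (ι → ℤ) →+ (ι' → ℤ)) : LP k ι →ₐ[k] LP k ι' :=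
  AddMonoidAlgebra.mapDomainAlgHom k k h

theorem mE_xp {ι' : Type*} (h : (ι → ℤ) →+ (ι' → ℤ)) (ν : ι → ℤ) :
    mE h (xp ν : LP k ι) = xp (h ν) := by
  unfold mE xp
  simp [AddMonoidAlgebra.mapDomainAlgHom]

/-- The permutation of the exponents: `(σ • ν) i = ν (σ⁻¹ i)`. -/
def paE (σ : Equiv.Perm ι) : (ι → ℤ) →+ (ι → ℤ) where
  toFun ν := ν ∘ σ.symm
  map_zero' := rfl
  map_add' _ _ := rfl

theorem paE_apply (σ : Equiv.Perm ι) (ν : ι → ℤ) : paE σ ν = ν ∘ σ.symm := rfl

/-- Permutation of the variables: `x i ↦ x (σ i)`. -/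
noncomputable def pa (σ : Equiv.Perm ι) : LP k ι →ₐ[k] LP k ι := mE (paE σ)

theorem pa_xp (σ : Equiv.Perm ι) (ν : ι → ℤ) : pa σ (xp ν : LP k ι) = xp (ν ∘ σ.symm) := mE_xp _ _

theorem pa_pa (σ τ : Equiv.Perm ι) (f : LP k ι) : pa σ (pa τ f) = pa (σ * τ) f := by
  have : (pa σ : LP k ι →ₐ[k] LP k ι).toLinearMap ∘ₗ (pa τ : LP k ι →ₐ[k] LP k ι).toLinearMap =
      (pa (σ * τ) : LP k ι →ₐ[k] LP k ι).toLinearMap := by
    refine LP.hom_ext fun ν => ?_
    simp only [LinearMap.comp_apply, AlgHom.toLinearMap_apply, pa_xp]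
    rfl
  exact LinearMap.congr_fun this f

theorem pa_one (f : LP k ι) : pa (1 : Equiv.Perm ι) f = f := by
  have : (pa (1 : Equiv.Perm ι) : LP k ι →ₐ[k] LP k ι).toLinearMap = LinearMap.id := by
    refine LP.hom_ext fun ν => ?_
    simp only [AlgHom.toLinearMap_apply, pa_xp, LinearMap.id_apply]
    rfl
  exact LinearMap.congr_fun this f

theorem co_pa (σ : Equiv.Perm ι) (f : LP k ι) (ν : ι → ℤ) : co ν (pa σ f) = co (ν ∘ σ) f := by
  classical
  refine LP.induct (P := fun f => co ν (pa σ f) = co (ν ∘ σ) f) ?_ ?_ ?_ f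
  · rw [map_zero, map_zero, map_zero]
  · intro f g hf hg
    rw [map_add, map_add, map_add, hf, hg]
  · intro c κ
    rw [map_smul, map_smul, map_smul, pa_xp, co_xp, co_xp]
    congr 1
    have : κ ∘ σ.symm = ν ↔ κ = ν ∘ σ := by
      constructor
      · rintro rfl
        funext i
        simp
      · rintro rfl
        funext i
        simp
    simp only [this]

theorem CT_pa (σ : Equiv.Perm ι) (f : LP k ι) : CT (pa σ f) = CT f := co_pa σ f 0

/-- Base change of the coefficients. -/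
noncomputable def mp {k' : Type*} [CommRing k'] (φ : k →+* k') : LP k ι →+* LP k' ι :=
  AddMonoidAlgebra.mapRingHom _ φ

theorem mp_xp {k' : Type*} [CommRing k'] (φ : k →+* k') (ν : ι → ℤ) :
    mp φ (xp ν : LP k ι) = xp ν := by
  unfold mp xp
  rw [AddMonoidAlgebra.mapRingHom_single, map_one]

theorem co_mp {k' : Type*} [CommRing k'] (φ : k →+* k') (f : LP k ι) (ν : ι → ℤ) :
    co ν (mp φ f) = φ (co ν f) := AddMonoidAlgebra.coeff_mapRingHom _ _ _

theorem CT_mp {k' : Type*} [CommRing k'] (φ : k →+* k') (f : LP k ι) :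
    CT (mp φ f) = φ (CT f) := co_mp _ _ _

theorem mp_smul {k' : Type*} [CommRing k'] (φ : k →+* k') (c : k) (f : LP k ι) :
    mp φ (c • f) = φ c • mp φ f := by
  refine LP.ext fun ν => ?_
  rw [co_mp, map_smul (co ν) c f, map_smul (co ν) (φ c), smul_eq_mul, smul_eq_mul, map_mul, co_mp]

/-- Evaluation of the variables at units. -/
noncomputable def spec (z : ι → kˣ) [Fintype ι] : LP k ι →ₐ[k] k :=
  AddMonoidAlgebra.lift k k (ι → ℤ)
    { toFun := fun ν => ((∏ i, z i ^ (Multiplicative.toAdd ν i) : kˣ) : k)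
      map_one' := by simp
      map_mul' := fun a b => by
        rw [← Units.val_mul, ← Finset.prod_mul_distrib]
        simp only [toAdd_mul, Pi.add_apply, zpow_add] }

theorem spec_xp [Fintype ι] (z : ι → kˣ) (ν : ι → ℤ) :
    spec z (xp ν : LP k ι) = ((∏ i, z i ^ ν i : kˣ) : k) := by
  unfold spec xp
  rw [AddMonoidAlgebra.lift_single, one_smul]
  rfl

/-! ### Supports -/

/-- Laurent polynomials whose exponents lie in `X`. -/
def Sup (X : Set (ι → ℤ)) : Submodule k (LP k ι) where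
  carrier := {f | ∀ ν, co ν f ≠ 0 → ν ∈ X}
  zero_mem' := fun ν h => absurd (map_zero _) h
  add_mem' := by
    intro f g hf hg ν h
    by_cases h1 : co ν f = 0
    · refine hg ν fun h2 => h ?_
      rw [map_add, h1, h2, add_zero]
    · exact hf ν h1
  smul_mem' := by
    intro c f hf ν h
    refine hf ν fun h2 => h ?_
    rw [map_smul, h2, smul_zero]

theorem mem_Sup {X : Set (ι → ℤ)} {f : LP k ι} : f ∈ Sup X ↔ ∀ ν, co ν f ≠ 0 → ν ∈ X := Iff.rfl

theorem xp_mem_Sup {X : Set (ι → ℤ)} {ν : ι → ℤ} (h : ν ∈ X) : (xp ν : LP k ι) ∈ Sup X := by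
  intro μ hμ
  by_contra hc
  refine hμ (co_xp_ne ?_)
  rintro rfl
  exact hc h

theorem Sup_mono {X Y : Set (ι → ℤ)} (h : X ⊆ Y) : (Sup X : Submodule k (LP k ι)) ≤ Sup Y :=
  fun _ hf ν hν => h (hf ν hν)

theorem one_mem_Sup {X : Set (ι → ℤ)} (h : (0 : ι → ℤ) ∈ X) : (1 : LP k ι) ∈ Sup X := xp_mem_Sup h

theorem mul_mem_Sup {X Y Z : Set (ι → ℤ)} {f g : LP k ι} (hf : f ∈ Sup X) (hg : g ∈ Sup Y)
    (h : ∀ x ∈ X, ∀ y ∈ Y, x + y ∈ Z) : f * g ∈ Sup Z := by
  intro ν hν
  obtain ⟨μ, κ, rfl, h1, h2⟩ := exists_of_co_mul_ne hν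
  exact h _ (hf _ h1) _ (hg _ h2)

/-- Induction on elements with given support. -/
theorem Sup_induct {X : Set (ι → ℤ)} {P : LP k ι → Prop} (h0 : P 0)
    (hadd : ∀ f g, P f → P g → P (f + g)) (hx : ∀ (c : k), ∀ ν ∈ X, P (c • xp ν))
    {f : LP k ι} (hf : f ∈ Sup X) : P f := by
  classical
  rw [LP.eq_sum f]
  refine Finset.sum_induction _ P hadd h0 fun ν hν => hx _ _ (hf ν ?_)
  exact Finsupp.mem_support_iff.1 hν

end

end Pool.Agent.Helper95.SH
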