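import Pool.Agent.Helper95.SH.HB

namespace Pool.Agent.Helper95.SH

open Finset

section
variable {k : Type*} [CommRing k] {l : ℕ}

/-! ## H6 (file HE.lean): reduction of the number of variables (uses H1, H2, H3) -/

theorem HE_swap_lt {a b i j : Fin l} (hab : Adj a b) (hij : i < j) (h : ¬ (i = a ∧ j = b)) :
    Equiv.swap a b i < Equiv.swap a b j := by
  have hab' : (a : ℕ) + 1 = b := hab
  simp only [Equiv.swap_apply_def]
  simp only [Fin.lt_def, Fin.ext_iff] at *
  split_ifs <;> omega

theorem B_eq_one (q : k) {γ : Fin l → ℝ} (hγ : Gen γ) (h : ∀ i j, i < j → γ i < γ j + 1) :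
    B q γ = 1 := by
  revert h
  refine sort_induct (P := fun γ => (∀ i j, i < j → γ i < γ j + 1) → B q γ = 1) ?_ ?_ hγ
  · intro γ _ hm _
    exact B_mono q hm
  · intro γ hγ a b hab hlt ih h
    have h1 : ∀ i j, i < j → γ i < γ j + 1 := by
      intro i j hij
      by_cases hc : i = a ∧ j = b
      · obtain ⟨rfl, rfl⟩ := hc
        linarith
      · have := h _ _ (HE_swap_lt hab hij hc)
        simpa using this
    have h2 := h a b hab.lt
    simp only [Function.comp_apply, Equiv.swap_apply_left, Equiv.swap_apply_right] at h2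
    have h3 : ⌈γ b - γ a⌉ = 1 := by
      rw [Int.ceil_eq_iff]
      push_cast
      constructor <;> linarith
    rw [B_swap q hγ.injective hab hlt, h3, ih h1, R_one_one]

theorem HE_Gen_cons {m : ℕ} {γ : Fin m → ℝ} {c : ℝ}
    (hγ : Gen (Fin.cons c γ : Fin (m + 1) → ℝ)) : Gen γ := by
  intro i j hij z
  have := hγ i.succ j.succ (fun h => hij (Fin.succ_injective _ h)) z
  simpa using this

theorem HE_Gen_snoc {m : ℕ} {γ : Fin m → ℝ} {c : ℝ}
    (hγ : Gen (Fin.snoc γ c : Fin (m + 1) → ℝ)) : Gen γ := by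
  intro i j hij z
  have := hγ i.castSucc j.castSucc (fun h => hij (Fin.castSucc_injective _ h)) z
  simpa using this

theorem HE_cons_swap {m : ℕ} (γ : Fin m → ℝ) (c : ℝ) (a b : Fin m) :
    (Fin.cons c (γ ∘ Equiv.swap a b) : Fin (m + 1) → ℝ) =
      (Fin.cons c γ : Fin (m + 1) → ℝ) ∘ Equiv.swap a.succ b.succ := by
  funext i
  refine Fin.cases ?_ (fun i => ?_) i
  · rw [Function.comp_apply, Equiv.swap_apply_of_ne_of_ne (Fin.succ_ne_zero a).symm
      (Fin.succ_ne_zero b).symm]
    simp
  · rw [Function.comp_apply, Fin.cons_succ, Function.comp_apply]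
    have : Equiv.swap a.succ b.succ i.succ = (Equiv.swap a b i).succ := by
      simp only [Equiv.swap_apply_def, Fin.succ_inj]
      split_ifs <;> rfl
    rw [this, Fin.cons_succ]

theorem HE_snoc_swap {m : ℕ} (γ : Fin m → ℝ) (c : ℝ) (a b : Fin m) :
    (Fin.snoc (γ ∘ Equiv.swap a b) c : Fin (m + 1) → ℝ) =
      (Fin.snoc γ c : Fin (m + 1) → ℝ) ∘ Equiv.swap a.castSucc b.castSucc := by
  funext i
  refine Fin.lastCases ?_ (fun i => ?_) i
  · rw [Function.comp_apply, Equiv.swap_apply_of_ne_of_ne (Fin.castSucc_lt_last a).ne'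
      (Fin.castSucc_lt_last b).ne']
    simp
  · rw [Function.comp_apply, Fin.snoc_castSucc, Function.comp_apply]
    have : Equiv.swap a.castSucc b.castSucc i.castSucc = (Equiv.swap a b i).castSucc := by
      simp only [Equiv.swap_apply_def, Fin.castSucc_inj]
      split_ifs <;> rfl
    rw [this, Fin.snoc_castSucc]

theorem B_cons (q : k) {m : ℕ} {γ : Fin m → ℝ} {c : ℝ} (hγ : Gen (Fin.cons c γ : Fin (m + 1) → ℝ))
    (h : ∀ j, c < γ j + 1) : B q (Fin.cons c γ : Fin (m + 1) → ℝ) = mE eS (B q γ) := by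
  revert h
  have hγ1 := HE_Gen_cons hγ
  revert hγ
  refine sort_induct (P := fun γ => Gen (Fin.cons c γ : Fin (m + 1) → ℝ) → (∀ j, c < γ j + 1) →
    B q (Fin.cons c γ : Fin (m + 1) → ℝ) = mE eS (B q γ)) ?_ ?_ hγ1
  · intro γ _ hm hg h
    rw [B_mono q hm, map_one]
    refine B_eq_one q hg ?_
    intro i j
    refine Fin.cases (fun hij => absurd hij (Fin.not_lt_zero i)) (fun j => ?_) j
    refine Fin.cases (fun _ => ?_) (fun i hij => ?_) i
    · simpa using h j
    · have := hm (Fin.succ_lt_succ_iff.1 hij)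
      simp only [Fin.cons_succ]
      linarith
  · intro γ hγ a b hab hlt ih hg h
    have e := HE_cons_swap γ c a b
    have hg' : Gen (Fin.cons c γ : Fin (m + 1) → ℝ) := by
      have h1 := (e ▸ hg).comp (Equiv.swap a.succ b.succ)
      have h2 : ((Fin.cons c γ : Fin (m + 1) → ℝ) ∘ Equiv.swap a.succ b.succ) ∘
          Equiv.swap a.succ b.succ = (Fin.cons c γ : Fin (m + 1) → ℝ) := by
        funext i
        simp
      rw [h2] at h1
      exact h1
    have h' : ∀ j, c < γ j + 1 := by
      intro j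
      have := h (Equiv.swap a b j)
      simpa using this
    have hab' : Adj a.succ b.succ := by
      have : (a : ℕ) + 1 = b := hab
      show (a.succ : ℕ) + 1 = b.succ
      simp [this]
    rw [e, B_swap q hg'.injective hab' (by simpa using hlt), ih hg' h', B_swap q hγ.injective hab hlt,
      Fin.cons_succ, Fin.cons_succ, R_eS q hab.ne]

theorem B_snoc (q : k) {m : ℕ} {γ : Fin m → ℝ} {c : ℝ} (hγ : Gen (Fin.snoc γ c : Fin (m + 1) → ℝ))
    (h : ∀ j, γ j < c + 1) : B q (Fin.snoc γ c : Fin (m + 1) → ℝ) = mE eC (B q γ) := by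
  revert h
  have hγ1 := HE_Gen_snoc hγ
  revert hγ
  refine sort_induct (P := fun γ => Gen (Fin.snoc γ c : Fin (m + 1) → ℝ) → (∀ j, γ j < c + 1) →
    B q (Fin.snoc γ c : Fin (m + 1) → ℝ) = mE eC (B q γ)) ?_ ?_ hγ1
  · intro γ _ hm hg h
    rw [B_mono q hm, map_one]
    refine B_eq_one q hg ?_
    intro i j
    refine Fin.lastCases (fun hij => absurd (Fin.le_last j) (not_le_of_gt hij)) (fun i => ?_) i
    refine Fin.lastCases (fun _ => ?_) (fun j hij => ?_) j
    · simpa using h i
    · have := hm (Fin.castSucc_lt_castSucc_iff.1 hij)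
      simp only [Fin.snoc_castSucc]
      linarith
  · intro γ hγ a b hab hlt ih hg h
    have e := HE_snoc_swap γ c a b
    have hg' : Gen (Fin.snoc γ c : Fin (m + 1) → ℝ) := by
      have h1 := (e ▸ hg).comp (Equiv.swap a.castSucc b.castSucc)
      have h2 : ((Fin.snoc γ c : Fin (m + 1) → ℝ) ∘ Equiv.swap a.castSucc b.castSucc) ∘
          Equiv.swap a.castSucc b.castSucc = (Fin.snoc γ c : Fin (m + 1) → ℝ) := by
        funext i
        simp
      rw [h2] at h1
      exact h1
    have h' : ∀ j, γ j < c + 1 := by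
      intro j
      have := h (Equiv.swap a b j)
      simpa using this
    have hab' : Adj a.castSucc b.castSucc := by
      have : (a : ℕ) + 1 = b := hab
      show (a.castSucc : ℕ) + 1 = b.castSucc
      simp [this]
    have hlt' : (Fin.snoc γ c : Fin (m + 1) → ℝ) a.castSucc <
        (Fin.snoc γ c : Fin (m + 1) → ℝ) b.castSucc := by
      rw [Fin.snoc_castSucc, Fin.snoc_castSucc]
      exact hlt
    rw [e, B_swap q hg'.injective hab' hlt', ih hg' h', B_swap q hγ.injective hab hlt,
      Fin.snoc_castSucc, Fin.snoc_castSucc, R_eC q hab.ne]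

end

end Pool.Agent.Helper95.SH
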