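import Pool.Agent.Helper95.SH.CC
import Pool.Agent.Helper95.SH.HE

namespace Pool.Agent.Helper95.SH

open Finset

section
variable {k : Type*} [CommRing k] {l : ℕ}

/-! ### `Psi` as a constant term -/

theorem CA_Psi_eq (e : ℤ → k) (he : ∀ j < 0, e j = 0) {n : ℕ} {f : LP k (Fin l)}
    (hf : f ∈ Sup {ν | ∑ i, ν i = -(n : ℤ)}) : Psi e f = CT (Om e n * f) := by
  classical
  refine Sup_induct (P := fun f => Psi e f = CT (Om e n * f)) ?_ ?_ ?_ hf
  · rw [mul_zero, map_zero, map_zero]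
  · intro f g hf hg
    rw [mul_add, map_add, map_add, hf, hg]
  · intro c μ hμ
    have hμ' : ∑ i, μ i = -(n : ℤ) := hμ
    rw [mul_smul_comm, map_smul, map_smul]
    congr 1
    unfold Psi Om CT
    rw [mkLin_xp, Finset.sum_mul, map_sum]
    by_cases hneg : ∀ i, 0 ≤ -(μ i)
    · have hmem : (fun i => (-(μ i)).toNat) ∈ Finset.piAntidiag (univ : Finset (Fin l)) n := by
        rw [Finset.mem_piAntidiag]
        refine ⟨?_, fun i _ => Finset.mem_univ i⟩
        have : ((∑ i, (-(μ i)).toNat : ℕ) : ℤ) = n := by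
          rw [Nat.cast_sum, ← neg_eq_iff_eq_neg.2 hμ', ← Finset.sum_neg_distrib]
          exact Finset.sum_congr rfl fun i _ => Int.toNat_of_nonneg (hneg i)
        exact_mod_cast this
      rw [Finset.sum_eq_single_of_mem _ hmem]
      · have hx : (fun i => (((-(μ i)).toNat : ℕ) : ℤ)) = -μ := by
          funext i
          rw [Int.toNat_of_nonneg (hneg i)]
          rfl
        rw [hx, smul_mul_assoc, ← xp_add, neg_add_cancel, map_smul, xp_zero]
        have h1 : co 0 (1 : LP k (Fin l)) = 1 := CT_one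
        rw [h1, smul_eq_mul, mul_one]
        refine Finset.prod_congr rfl fun i _ => ?_
        rw [Int.toNat_of_nonneg (hneg i)]
      · intro ν hν hne
        rw [smul_mul_assoc, ← xp_add, map_smul, co_xp_ne, smul_zero]
        intro h0
        refine hne ?_
        funext i
        have := congrFun h0 i
        simp only [Pi.add_apply, Pi.zero_apply] at this
        omega
    · push Not at hneg
      obtain ⟨i0, hi0⟩ := hneg
      rw [Finset.prod_eq_zero (Finset.mem_univ i0) (he _ hi0)]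
      symm
      refine Finset.sum_eq_zero fun ν _ => ?_
      rw [smul_mul_assoc, ← xp_add, map_smul, co_xp_ne, smul_zero]
      intro h0
      have := congrFun h0 i0
      simp only [Pi.add_apply, Pi.zero_apply] at this
      omega

/-- Monomials as units. -/
noncomputable def xu {ι : Type*} (ν : ι → ℤ) : (LP k ι)ˣ := ⟨xp ν, xp (-ν), xp_mul_neg ν, xp_neg_mul ν⟩

theorem xu_val {ι : Type*} (ν : ι → ℤ) : ((xu ν : (LP k ι)ˣ) : LP k ι) = xp ν := rfl

theorem xu_mul {ι : Type*} (ν μ : ι → ℤ) : (xu ν : (LP k ι)ˣ) * xu μ = xu (ν + μ) :=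
  Units.ext (xp_add ν μ).symm

theorem xu_zero {ι : Type*} : (xu 0 : (LP k ι)ˣ) = 1 := Units.ext rfl

theorem xu_inv {ι : Type*} (ν : ι → ℤ) : (xu ν : (LP k ι)ˣ)⁻¹ = xu (-ν) := by
  rw [inv_eq_iff_mul_eq_one, xu_mul, add_neg_cancel, xu_zero]

theorem xu_zpow {ι : Type*} (ν : ι → ℤ) (n : ℤ) : (xu ν : (LP k ι)ˣ) ^ n = xu (n • ν) := by
  have hnat : ∀ n : ℕ, (xu ν : (LP k ι)ˣ) ^ n = xu ((n : ℤ) • ν) := by
    intro n
    induction n with
    | zero => rw [pow_zero, Nat.cast_zero, zero_smul, xu_zero]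
    | succ n ih => rw [pow_succ, ih, xu_mul, Nat.cast_succ, add_smul, one_smul]
  rcases Int.eq_nat_or_neg n with ⟨n, rfl | rfl⟩
  · rw [zpow_natCast, hnat]
  · rw [zpow_neg, zpow_natCast, hnat, xu_inv, neg_smul]

theorem xu_prod {ι κ : Type*} (s : Finset κ) (ν : κ → ι → ℤ) :
    ∏ i ∈ s, (xu (ν i) : (LP k ι)ˣ) = xu (∑ i ∈ s, ν i) := by
  classical
  induction s using Finset.induction_on with
  | empty => rw [Finset.prod_empty, Finset.sum_empty, xu_zero]
  | insert a s ha ih => rw [Finset.prod_insert ha, Finset.sum_insert ha, ih, xu_mul]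

end

section
variable {k : Type*} [CommRing k] {m : ℕ}

/-- The units `x_i`, `i < m`, in the ring of Laurent polynomials in `x_0, ..., x_m`. -/
noncomputable def CA_z (i : Fin m) : (LP k (Fin (m + 1)))ˣ := xu (Pi.single i.castSucc 1)

/-- The elements `t x_{i+1}`. -/
noncomputable def CA_y (t : k) (i : Fin m) : LP k (Fin (m + 1)) := t • xp (Pi.single i.succ 1)

theorem CA_sum_castSucc (ν : Fin m → ℤ) :
    ∑ i, ν i • (Pi.single i.castSucc 1 : Fin (m + 1) → ℤ) = eC ν := by
  funext j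
  rw [Finset.sum_apply]
  simp only [Pi.smul_apply, smul_eq_mul]
  refine Fin.lastCases ?_ (fun j => ?_) j
  · rw [Finset.sum_eq_zero]
    · show 0 = Fin.snoc (α := fun _ => ℤ) ν 0 (Fin.last m)
      simp
    · intro i _
      rw [Pi.single_eq_of_ne (Fin.castSucc_lt_last i).ne', mul_zero]
  · rw [Finset.sum_eq_single j]
    · show _ = Fin.snoc (α := fun _ => ℤ) ν 0 j.castSucc
      rw [Pi.single_eq_same, mul_one, Fin.snoc_castSucc]
    · intro i _ hij
      rw [Pi.single_eq_of_ne, mul_zero]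
      intro h
      exact hij (Fin.castSucc_injective _ h).symm
    · intro h
      exact absurd (Finset.mem_univ _) h

theorem CA_sum_succ (ν : Fin m → ℤ) :
    ∑ i, ν i • (Pi.single i.succ 1 : Fin (m + 1) → ℤ) = eS ν := by
  funext j
  rw [Finset.sum_apply]
  simp only [Pi.smul_apply, smul_eq_mul]
  refine Fin.cases ?_ (fun j => ?_) j
  · rw [Finset.sum_eq_zero]
    · rfl
    · intro i _
      rw [Pi.single_eq_of_ne (Fin.succ_ne_zero i).symm, mul_zero]
  · rw [Finset.sum_eq_single j]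
    · show _ = Fin.cons (α := fun _ => ℤ) 0 ν j.succ
      rw [Pi.single_eq_same, mul_one, Fin.cons_succ]
    · intro i _ hij
      rw [Pi.single_eq_of_ne, mul_zero]
      intro h
      exact hij (Fin.succ_injective _ h).symm
    · intro h
      exact absurd (Finset.mem_univ _) h

theorem CA_spec_mp (f : LP k (Fin m)) :
    spec (CA_z (k := k)) (mp (algebraMap k (LP k (Fin (m + 1)))) f) = mE eC f := by
  refine LP.induct (P := fun f => spec (CA_z (k := k)) (mp (algebraMap k (LP k (Fin (m + 1)))) f) =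
    mE eC f) ?_ ?_ ?_ f
  · rw [map_zero, map_zero, map_zero]
  · intro f g hf hg
    rw [map_add, map_add, map_add, hf, hg]
  · intro c ν
    rw [mp_smul, mp_xp, map_smul, spec_xp, map_smul, mE_xp]
    unfold CA_z
    simp only [xu_zpow]
    rw [xu_prod, CA_sum_castSucc, xu_val, Algebra.smul_def, Algebra.smul_def, Algebra.algebraMap_self,
      RingHom.id_apply]

theorem CA_evn_mp (t : k) {d : ℕ} {f : LP k (Fin m)}
    (hf : f ∈ Sup {ν | (∀ i, 0 ≤ ν i) ∧ ∑ i, ν i = (d : ℤ)}) :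
    evn (CA_y t) (mp (algebraMap k (LP k (Fin (m + 1)))) f) = t ^ d • mE eS f := by
  refine Sup_induct (P := fun f => evn (CA_y t) (mp (algebraMap k (LP k (Fin (m + 1)))) f) =
    t ^ d • mE eS f) ?_ ?_ ?_ hf
  · rw [map_zero, map_zero, map_zero, smul_zero]
  · intro f g hf hg
    rw [map_add, map_add, map_add, hf, hg, smul_add]
  · rintro c ν ⟨h0, hd⟩
    rw [mp_smul, mp_xp, map_smul, map_smul, mE_xp]
    unfold evn CA_y
    rw [mkLin_xp, if_pos h0]
    have h1 : ∀ i : Fin m, (t • xp (Pi.single i.succ 1) : LP k (Fin (m + 1))) ^ (ν i).toNat =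
        t ^ (ν i).toNat • xp (ν i • Pi.single i.succ 1) := by
      intro i
      rw [smul_pow, ← xp_nsmul]
      congr 2
      conv_rhs => rw [← Int.toNat_of_nonneg (h0 i)]
      rw [natCast_zsmul]
    rw [Finset.prod_congr rfl fun i _ => h1 i, Finset.prod_smul, Finset.prod_pow_eq_pow_sum]
    have h2 : ∑ i, (ν i).toNat = d := by
      have : ((∑ i, (ν i).toNat : ℕ) : ℤ) = d := by
        rw [Nat.cast_sum, ← hd]
        exact Finset.sum_congr rfl fun i _ => Int.toNat_of_nonneg (h0 i)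
      exact_mod_cast this
    have h3 : ∏ i : Fin m, (xp (ν i • Pi.single i.succ 1) : LP k (Fin (m + 1))) = xp (eS ν) := by
      have := congrArg Units.val (xu_prod (k := k) (Finset.univ : Finset (Fin m))
        (fun i => ν i • (Pi.single i.succ 1 : Fin (m + 1) → ℤ)))
      rw [Units.coe_prod, xu_val, CA_sum_succ] at this
      exact this
    rw [h2, h3, Algebra.smul_def (algebraMap k _ c), Algebra.algebraMap_self, RingHom.id_apply,
      ← Algebra.smul_def, smul_comm]

theorem CA_spec_zi (i : Fin m) :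
    spec (CA_z (k := k)) (zi i) = xp (-(Pi.single i.castSucc 1)) := by
  unfold zi
  rw [spec_xp]
  unfold CA_z
  simp only [xu_zpow]
  rw [xu_prod, CA_sum_castSucc, xu_val]
  congr 1
  rw [map_neg]
  congr 1
  funext j
  show Fin.snoc (α := fun _ => ℤ) (Pi.single i 1) 0 j = _
  refine Fin.lastCases ?_ (fun j => ?_) j
  · rw [Fin.snoc_last, Pi.single_eq_of_ne (Fin.castSucc_lt_last i).ne']
  · rw [Fin.snoc_castSucc]
    by_cases h : j = i
    · rw [h, Pi.single_eq_same, Pi.single_eq_same]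
    · rw [Pi.single_eq_of_ne h, Pi.single_eq_of_ne]
      intro hc
      exact h (Fin.castSucc_injective _ hc)

theorem CA_uu (i j : Fin m) : (xp (Pi.single j.succ 1) * xp (-(Pi.single i.castSucc 1)) :
    LP k (Fin (m + 1))) = uu i.castSucc j.succ := by
  unfold uu al
  rw [← xp_add, sub_eq_add_neg]

theorem CA_map_inverse {A C : Type*} [CommRing A] [CommRing C] (φ : A →+* C) {x : A}
    (hx : IsUnit x) : φ (Ring.inverse x) = Ring.inverse (φ x) := by
  obtain ⟨u, rfl⟩ := hx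
  rw [Ring.inverse_unit]
  have : φ (u : A) = ((Units.map (φ : A →* C) u : Cˣ) : C) := rfl
  rw [this, Ring.inverse_unit]
  rfl

theorem CA_y_nilp {t : k} (ht : IsNilpotent t) (i : Fin m) : IsNilpotent (CA_y t i) := by
  obtain ⟨n, hn⟩ := ht
  exact ⟨n, by unfold CA_y; rw [smul_pow, hn, zero_smul]⟩

theorem CA_spec_KK (q t : k) (ht : IsNilpotent t) :
    spec (CA_z (k := k)) (KK (algebraMap k (LP k (Fin (m + 1))) q) (CA_y t)) = Kh q t := by
  classical
  unfold KK Kh
  rw [map_mul, map_prod, map_prod]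
  have hinj : Function.Injective (fun p : Fin m × Fin m => (p.1.castSucc, p.2.succ)) := by
    rintro ⟨a, b⟩ ⟨c, d⟩ h
    simp only [Prod.mk.injEq] at h
    rw [Fin.castSucc_injective _ h.1, Fin.succ_injective _ h.2]
  congr 1
  · refine Finset.prod_bij (fun p _ => (p.1.castSucc, p.2.succ)) ?_ ?_ ?_ ?_
    · rintro ⟨a, b⟩ h
      simp only [Finset.mem_filter, Finset.mem_univ, true_and, Fin.lt_def, Fin.val_castSucc,
        Fin.val_succ] at h ⊢
      omega
    · intro a _ b _ h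
      exact hinj h
    · rintro ⟨a, b⟩ h
      simp only [Finset.mem_filter, Finset.mem_univ, true_and] at h
      have ha : (a : ℕ) < m := by have := b.2; omega
      have hb : (b : ℕ) - 1 < m := by have := b.2; omega
      refine ⟨(⟨a, ha⟩, ⟨(b : ℕ) - 1, hb⟩), ?_, ?_⟩
      · simp only [Finset.mem_filter, Finset.mem_univ, true_and, Fin.lt_def]
        omega
      · refine Prod.ext (Fin.ext rfl) (Fin.ext ?_)
        simp only [Fin.val_succ]
        omega
    · rintro ⟨i, j⟩ _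
      rw [map_sub, map_one, map_smul, CA_spec_zi]
      unfold CA_y
      rw [smul_eq_mul, mul_smul_comm, smul_mul_assoc, mul_assoc, CA_uu, ← Algebra.smul_def, smul_smul,
        mul_comm t q]
  · refine Finset.prod_bij (fun p _ => (p.1.castSucc, p.2.succ)) ?_ ?_ ?_ ?_
    · rintro ⟨a, b⟩ h
      simp only [Finset.mem_filter, Finset.mem_univ, true_and, Fin.lt_def, Fin.le_def,
        Fin.val_castSucc, Fin.val_succ] at h ⊢
      omega
    · intro a _ b _ h
      exact hinj h
    · rintro ⟨a, b⟩ h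
      simp only [Finset.mem_filter, Finset.mem_univ, true_and, Fin.lt_def] at h
      have ha : (a : ℕ) < m := by have := b.2; omega
      have hb : (b : ℕ) - 1 < m := by have := b.2; omega
      refine ⟨(⟨a, ha⟩, ⟨(b : ℕ) - 1, hb⟩), ?_, ?_⟩
      · simp only [Finset.mem_filter, Finset.mem_univ, true_and, Fin.le_def]
        omega
      · refine Prod.ext (Fin.ext rfl) (Fin.ext ?_)
        simp only [Fin.val_succ]
        omega
    · rintro ⟨i, j⟩ _
      have hu := isUnit_one_sub (CA_y_nilp (m := m) ht j) (zi (k := LP k (Fin (m + 1))) i)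
      have h1 := CA_map_inverse (spec (CA_z (k := k) (m := m))).toRingHom hu
      refine h1.trans ?_
      unfold iv
      congr 1
      show spec (CA_z (k := k)) (1 - CA_y t j • zi i) = _
      rw [map_sub, map_one, map_smul, CA_spec_zi]
      unfold CA_y
      rw [smul_eq_mul, smul_mul_assoc, CA_uu]


/-! ### Assembly -/

theorem CA_W_sum {l : ℕ} {q : k} (hq : IsNilpotent q) :
    (W q : LP k (Fin l)) ∈ Sup {ν | ∑ i, ν i = 0} := by
  have hρ : StrictAnti (fun i : Fin l => -((i : ℕ) : ℝ)) := by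
    intro i j hij
    have : ((i : ℕ) : ℝ) < (j : ℕ) := by exact_mod_cast hij
    show -((j : ℕ) : ℝ) < -((i : ℕ) : ℝ)
    linarith
  have h1 := W_supp (k := k) hq hρ
  have h2 : (W q : LP k (Fin l)) = (W q - 1) + 1 := by ring
  rw [h2]
  refine Submodule.add_mem _ (Sup_mono (fun ν hν => hν.1) h1) (one_mem_Sup ?_)
  simp

/-- The kernel `Kh` in terms of the family `B`. -/
theorem CA_Kh {q t : k} (hq : IsNilpotent q) {N : ℕ} (hN : t ^ N = 0)
    {c : Fin (m + 1) → ℝ} {c' : ℝ} (hgen : Gen c)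
    (hgen' : Gen (Fin.snoc (fun i : Fin m => c i.succ) c' : Fin (m + 1) → ℝ))
    (hw : ∀ i j : Fin m, c i.succ - c j.succ < 1) (h0 : ∀ j : Fin m, c 0 < c j.succ + 1)
    (h' : ∀ j : Fin m, c' < c j.succ + 1) :
    (Kh q t : LP k (Fin (m + 1))) = ∑ a ∈ Fintype.piFinset fun _ : Fin m => range N,
      t ^ (∑ i, a i) • ((xp (Fin.cons 0 fun i => (a i : ℤ)) *
        B q (sh c (Fin.cons 0 fun i => (a i : ℤ)))) *
        (xp (-(Fin.snoc (fun i => (a i : ℤ)) 0 : Fin (m + 1) → ℤ)) *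
        B q (fun i => -(sh (Fin.snoc (fun i : Fin m => c i.succ) c')
          (Fin.snoc (fun i => (a i : ℤ)) 0) i)))) := by
  have ht : IsNilpotent t := ⟨N, hN⟩
  set φ := algebraMap k (LP k (Fin (m + 1))) with hφ
  have hq' : IsNilpotent (φ q) := hq.map φ
  set cb : Fin m → ℝ := fun i => c i.succ with hcb
  have hcg : Gen cb := by
    intro i j hij z
    exact hgen i.succ j.succ (fun h => hij (Fin.succ_injective _ h)) z
  have hN' : ∀ ν : Fin m → ℕ, N ≤ ∑ i, ν i → ∏ i, (CA_y t i) ^ ν i = 0 := by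
    intro ν hν
    unfold CA_y
    simp only [smul_pow]
    rw [Finset.prod_smul, Finset.prod_pow_eq_pow_sum, pow_eq_zero_of_le hν hN, zero_smul]
  have hC := cauchy hq' (fun i => CA_y_nilp (m := m) ht i) hcg hw hN'
  rw [← CA_spec_KK q t ht, hC, map_sum]
  refine Finset.sum_congr rfl fun a _ => ?_
  have ha0 : ∀ i, 0 ≤ (fun i => (a i : ℤ)) i := fun i => Int.natCast_nonneg _
  rw [map_smul, smul_eq_mul]
  -- first factor
  have e1 : xp (fun i => (a i : ℤ)) * B (φ q) (sh cb fun i => (a i : ℤ)) =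
      mp φ (xp (fun i => (a i : ℤ)) * B q (sh cb fun i => (a i : ℤ))) := by
    rw [map_mul, mp_xp, B_mp]
  have hs1 : (xp (fun i => (a i : ℤ)) * B q (sh cb fun i => (a i : ℤ)) : LP k (Fin m)) ∈
      Sup {ν | (∀ i, 0 ≤ ν i) ∧ ∑ i, ν i = ((∑ i, a i : ℕ) : ℤ)} := by
    have h1 := B_nonneg q hcg hw ha0
    have h2 : (xp (fun i => (a i : ℤ)) * B q (sh cb fun i => (a i : ℤ)) : LP k (Fin m)) ∈
        Sup {ν | ∑ i, ν i = ((∑ i, a i : ℕ) : ℤ)} := by
      refine mul_mem_Sup (xp_mem_Sup (X := {fun i => (a i : ℤ)}) rfl) (B_sum q (hcg.sh _)) ?_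
      rintro x rfl y hy
      show ∑ i, ((fun i => (a i : ℤ)) + y) i = _
      have hy' : ∑ i, y i = 0 := hy
      simp only [Pi.add_apply]
      rw [Finset.sum_add_distrib, hy', add_zero, Nat.cast_sum]
    intro ν hν
    exact ⟨h1 ν hν, h2 ν hν⟩
  have e2 : evn (CA_y t) (xp (fun i => (a i : ℤ)) * B (φ q) (sh cb fun i => (a i : ℤ))) =
      t ^ (∑ i, a i) • (xp (Fin.cons 0 fun i => (a i : ℤ)) *
        B q (sh c (Fin.cons 0 fun i => (a i : ℤ)))) := by
    rw [e1, CA_evn_mp t hs1, map_mul, mE_xp]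
    congr 2
    have hc1 : (sh c (Fin.cons 0 fun i => (a i : ℤ)) : Fin (m + 1) → ℝ) =
        Fin.cons (c 0) (sh cb fun i => (a i : ℤ)) := by
      funext i
      refine Fin.cases ?_ (fun i => ?_) i
      · show c 0 + ((Fin.cons 0 (fun i => (a i : ℤ)) : Fin (m + 1) → ℤ) 0 : ℝ) = _
        rw [Fin.cons_zero, Fin.cons_zero, Int.cast_zero, add_zero]
      · show c i.succ + ((Fin.cons 0 (fun i => (a i : ℤ)) : Fin (m + 1) → ℤ) i.succ : ℝ) = _
        rw [Fin.cons_succ, Fin.cons_succ]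
        rfl
    rw [hc1]
    refine (B_cons q ?_ ?_).symm
    · rw [← hc1]
      exact hgen.sh _
    · intro j
      show c 0 < c j.succ + ((a j : ℤ) : ℝ) + 1
      have := h0 j
      have h3 : (0 : ℝ) ≤ ((a j : ℤ) : ℝ) := Int.cast_nonneg (ha0 j)
      linarith
  -- second factor
  have e3 : xp (-(fun i => (a i : ℤ))) * B (φ q) (fun i => -(sh cb (fun i => (a i : ℤ)) i)) =
      mp φ (xp (-(fun i => (a i : ℤ))) * B q (fun i => -(sh cb (fun i => (a i : ℤ)) i))) := by
    rw [map_mul, mp_xp, B_mp]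
  have e4 : spec (CA_z (k := k)) (xp (-(fun i => (a i : ℤ))) *
      B (φ q) (fun i => -(sh cb (fun i => (a i : ℤ)) i))) =
      xp (-(Fin.snoc (fun i => (a i : ℤ)) 0 : Fin (m + 1) → ℤ)) *
        B q (fun i => -(sh (Fin.snoc cb c') (Fin.snoc (fun i => (a i : ℤ)) 0) i)) := by
    rw [e3, CA_spec_mp, map_mul, mE_xp, map_neg]
    congr 1
    have hc2 : (fun i => -(sh (Fin.snoc cb c' : Fin (m + 1) → ℝ)
        (Fin.snoc (fun i => (a i : ℤ)) 0) i)) =
        (Fin.snoc (fun i => -(sh cb (fun i => (a i : ℤ)) i)) (-c') : Fin (m + 1) → ℝ) := by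
      funext i
      refine Fin.lastCases ?_ (fun i => ?_) i
      · show -((Fin.snoc cb c' : Fin (m + 1) → ℝ) (Fin.last m) +
          ((Fin.snoc (fun i => (a i : ℤ)) 0 : Fin (m + 1) → ℤ) (Fin.last m) : ℝ)) = _
        simp
      · show -((Fin.snoc cb c' : Fin (m + 1) → ℝ) i.castSucc +
          ((Fin.snoc (fun i => (a i : ℤ)) 0 : Fin (m + 1) → ℤ) i.castSucc : ℝ)) = _
        rw [Fin.snoc_castSucc, Fin.snoc_castSucc, Fin.snoc_castSucc]
        rfl
    rw [hc2]
    refine (B_snoc q ?_ ?_).symm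
    · rw [← hc2]
      exact (hgen'.sh _).neg
    · intro j
      show -(c j.succ + ((a j : ℤ) : ℝ)) < -c' + 1
      have := h' j
      have h3 : (0 : ℝ) ≤ ((a j : ℤ) : ℝ) := Int.cast_nonneg (ha0 j)
      linarith
  rw [e2, e4, smul_mul_assoc]

theorem assembly {m : ℕ} {q t : k} (hq : IsNilpotent q) {N : ℕ} (hN : t ^ N = 0) (e : ℤ → k)
    (he : ∀ j < 0, e j = 0) (b : Fin (m + 1) → ℤ) {n : ℕ} (hn : ∑ i, b i = n)
    {c : Fin (m + 1) → ℝ} {c' κ₀ : ℝ} (h1 : ∀ i : Fin m, c i.succ = c i.castSucc + b i.castSucc + κ₀)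
    (h2 : c' = c (Fin.last m) + b (Fin.last m) + κ₀) (hgen : Gen c)
    (hgen' : Gen (Fin.snoc (fun i : Fin m => c i.succ) c' : Fin (m + 1) → ℝ))
    (hw : ∀ i j : Fin m, c i.succ - c j.succ < 1) (h0 : ∀ j : Fin m, c 0 < c j.succ + 1)
    (h' : ∀ j : Fin m, c' < c j.succ + 1) (g : (Fin m → ℕ) → (Fin (m + 1) → ℤ) →₀ k)
    (hg : ∀ a, Om e n * B q (sh c (Fin.cons 0 fun i => (a i : ℤ))) =
      ∑ κ ∈ (g a).support, g a κ • (xp κ * B q (sh (sh c (Fin.cons 0 fun i => (a i : ℤ))) κ))) :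
    Psi e (xp (-b) * W q * Kh q t) = ∑ a ∈ Fintype.piFinset fun _ : Fin m => range N,
      t ^ (∑ i, a i) * g a (b + Fin.snoc (fun i => (a i : ℤ)) 0 - Fin.cons 0 fun i => (a i : ℤ)) := by
  classical
  rw [CA_Kh hq hN hgen hgen' hw h0 h', Finset.mul_sum, map_sum]
  refine Finset.sum_congr rfl fun a _ => ?_
  rw [mul_smul_comm, map_smul, smul_eq_mul]
  congr 1
  set ga : Fin (m + 1) → ℤ := Fin.cons 0 fun i => (a i : ℤ) with hga
  set sa : Fin (m + 1) → ℤ := Fin.snoc (fun i => (a i : ℤ)) 0 with hsa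
  set cs : Fin (m + 1) → ℝ := Fin.snoc (fun i : Fin m => c i.succ) c' with hcs
  have hsum_ga : ∑ i, ga i = ∑ i, (a i : ℤ) := by
    rw [hga, Fin.sum_univ_succ]
    simp
  have hsum_sa : ∑ i, sa i = ∑ i, (a i : ℤ) := by
    rw [hsa, Fin.sum_univ_castSucc]
    simp
  have hcs_eq : ∀ i, cs i = c i + b i + κ₀ := by
    intro i
    refine Fin.lastCases ?_ (fun i => ?_) i
    · rw [hcs, Fin.snoc_last]
      exact h2
    · rw [hcs, Fin.snoc_castSucc]
      exact h1 i
  have hsup : xp (-b) * W q * ((xp ga * B q (sh c ga)) * (xp (-sa) * B q (fun i => -(sh cs sa i)))) ∈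
      Sup {ν | ∑ i, ν i = -(n : ℤ)} := by
    have hadd : ∀ (x y : ℤ) (u v : Fin (m + 1) → ℤ), ∑ i, u i = x → ∑ i, v i = y →
        ∑ i, (u + v) i = x + y := by
      intro x y u v hu hv
      simp only [Pi.add_apply]
      rw [Finset.sum_add_distrib, hu, hv]
    have s1 : (xp (-b) : LP k (Fin (m + 1))) ∈ Sup {ν | ∑ i, ν i = -(n : ℤ)} := by
      refine xp_mem_Sup ?_
      show ∑ i, (-b) i = _
      simp only [Pi.neg_apply]
      rw [Finset.sum_neg_distrib, hn]
    have s2 := CA_W_sum (k := k) (l := m + 1) hq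
    have s3 : (xp ga : LP k (Fin (m + 1))) ∈ Sup {ν | ∑ i, ν i = ∑ i, (a i : ℤ)} :=
      xp_mem_Sup hsum_ga
    have s4 : B q (sh c ga) ∈ Sup {ν | ∑ i, ν i = 0} := B_sum q (hgen.sh _)
    have s5 : (xp (-sa) : LP k (Fin (m + 1))) ∈ Sup {ν | ∑ i, ν i = -∑ i, (a i : ℤ)} := by
      refine xp_mem_Sup ?_
      show ∑ i, (-sa) i = _
      simp only [Pi.neg_apply]
      rw [Finset.sum_neg_distrib, hsum_sa]
    have s6 : B q (fun i => -(sh cs sa i)) ∈ Sup {ν | ∑ i, ν i = 0} := B_sum q (hgen'.sh _).neg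
    have s7 := mul_mem_Sup (Z := {ν | ∑ i, ν i = -(n : ℤ) + 0}) s1 s2
      (fun x hx y hy => hadd _ _ x y hx hy)
    have s8 := mul_mem_Sup (Z := {ν | ∑ i, ν i = ∑ i, (a i : ℤ) + 0}) s3 s4
      (fun x hx y hy => hadd _ _ x y hx hy)
    have s9 := mul_mem_Sup (Z := {ν | ∑ i, ν i = -∑ i, (a i : ℤ) + 0}) s5 s6
      (fun x hx y hy => hadd _ _ x y hx hy)
    have s10 := mul_mem_Sup (Z := {ν | ∑ i, ν i = (∑ i, (a i : ℤ) + 0) + (-∑ i, (a i : ℤ) + 0)}) s8 s9
      (fun x hx y hy => hadd _ _ x y hx hy)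
    refine mul_mem_Sup s7 s10 (fun x hx y hy => ?_)
    have := hadd _ _ x y hx hy
    show ∑ i, (x + y) i = -(n : ℤ)
    rw [this]
    ring
  rw [CA_Psi_eq e he hsup]
  have hre : Om e n * (xp (-b) * W q * ((xp ga * B q (sh c ga)) *
      (xp (-sa) * B q (fun i => -(sh cs sa i))))) =
      xp (-b + ga - sa) * (Om e n * B q (sh c ga)) * B q (fun i => -(sh cs sa i)) * W q := by
    rw [sub_eq_add_neg, xp_add, xp_add]
    ring
  rw [hre, hg a, Finset.mul_sum, Finset.sum_mul, Finset.sum_mul, map_sum]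
  have hterm : ∀ κ ∈ (g a).support, CT (xp (-b + ga - sa) *
      (g a κ • (xp κ * B q (sh (sh c ga) κ))) * B q (fun i => -(sh cs sa i)) * W q) =
      if κ = b + sa - ga then g a κ else 0 := by
    intro κ _
    have hd := duality (k := k) hq (hgen'.sh sa) (-b + ga - sa + κ)
    have hB : B q (sh (sh cs sa) (-b + ga - sa + κ)) = B q (sh (sh c ga) κ) := by
      have : sh (sh cs sa) (-b + ga - sa + κ) = fun i => sh (sh c ga) κ i + κ₀ := by
        funext i
        show cs i + (sa i : ℝ) + (((-b + ga - sa + κ) i : ℤ) : ℝ) =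
          c i + (ga i : ℝ) + (κ i : ℝ) + κ₀
        rw [hcs_eq i]
        simp only [Pi.add_apply, Pi.sub_apply, Pi.neg_apply]
        push_cast
        ring
      rw [this, B_const]
    rw [hB] at hd
    have h3 : xp (-b + ga - sa) * (g a κ • (xp κ * B q (sh (sh c ga) κ))) *
        B q (fun i => -(sh cs sa i)) * W q =
        g a κ • (xp (-b + ga - sa + κ) * B q (sh (sh c ga) κ) * B q (fun i => -(sh cs sa i)) *
          W q) := by
      rw [xp_add (-b + ga - sa) κ, mul_smul_comm, smul_mul_assoc, smul_mul_assoc]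
      congr 1
      ring
    rw [h3, map_smul, hd, smul_eq_mul, mul_ite, mul_one, mul_zero]
    have hiff : -b + ga - sa + κ = 0 ↔ κ = b + sa - ga := by
      constructor
      · intro h
        have : κ = b + sa - ga + (-b + ga - sa + κ) := by abel
        rw [this, h, add_zero]
      · rintro rfl
        abel
    simp only [hiff]
  rw [Finset.sum_congr rfl hterm, Finset.sum_ite_eq' (g a).support (b + sa - ga) fun κ => g a κ]
  split_ifs with h
  · rfl
  · exact (Finsupp.notMem_support_iff.1 h).symm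

end

end Pool.Agent.Helper95.SH
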