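import Pool.Agent.Helper95.SH.HB

namespace Pool.Agent.Helper95.SH

open Finset

section
variable {k : Type*} [CommRing k] {l : ℕ}

/-! ## H4 (file HS.lean): supports of the `B q γ` (uses H1, H3) -/

/-- Sets closed under exchange of adjacent entries and under moving adjacent entries towards each
other. -/
structure Cv (Q : Set (Fin l → ℝ)) : Prop where
  swap : ∀ δ ∈ Q, ∀ a b, Adj a b → δ ∘ Equiv.swap a b ∈ Q
  move : ∀ δ ∈ Q, ∀ a b, Adj a b → ∀ j : ℕ, (j : ℝ) < δ a - δ b →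
    (fun i => δ i - j * (al a b i : ℝ)) ∈ Q

theorem HS_al_swap_apply {a b : Fin l} (i : Fin l) : al a b (Equiv.swap a b i) = -al a b i := by
  rcases eq_or_ne a b with h | h
  · subst h
    simp [al]
  rcases eq_or_ne i a with h1 | h1
  · subst h1
    rw [Equiv.swap_apply_left, al_apply_left h, al_apply_right h]
  rcases eq_or_ne i b with h2 | h2
  · subst h2
    rw [Equiv.swap_apply_right, al_apply_left h, al_apply_right h, neg_neg]
  rw [Equiv.swap_apply_of_ne_of_ne h1 h2, al_apply_other h1 h2, neg_zero]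

theorem HS_al_neg (a b : Fin l) (i : Fin l) : al b a i = -al a b i := by
  simp [al]

theorem HS_sh_swap_add (γ : Fin l → ℝ) (ν μ : Fin l → ℤ) (a b : Fin l) :
    sh (γ ∘ Equiv.swap a b) (ν ∘ Equiv.swap a b + μ) =
      fun i => sh γ ν (Equiv.swap a b i) + μ i := by
  funext i
  simp only [sh, Function.comp, Pi.add_apply, Int.cast_add]
  ring

theorem HS_gen_ceil {γ : Fin l → ℝ} (hγ : Gen γ) {a b : Fin l} (hab : a ≠ b) :
    ((⌈γ b - γ a⌉ : ℤ) : ℝ) ≠ γ b - γ a := fun h => hγ b a hab.symm _ h.symm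

theorem R_Sup (q : k) {Q : Set (Fin l → ℝ)} (hQ : Cv Q) {γ : Fin l → ℝ} (hγ : Gen γ) {a b : Fin l}
    (hab : Adj a b) {f : LP k (Fin l)} (hf : f ∈ Sup {ν | sh γ ν ∈ Q}) :
    R q a b ⌈γ b - γ a⌉ f ∈ Sup {ν | sh (γ ∘ Equiv.swap a b) ν ∈ Q} := by
  have hne : a ≠ b := hab.ne
  refine Sup_induct (P := fun f => R q a b ⌈γ b - γ a⌉ f ∈
    Sup {ν | sh (γ ∘ Equiv.swap a b) ν ∈ Q}) ?_ ?_ ?_ hf
  · rw [map_zero]
    exact zero_mem _
  · intro f g h1 h2
    rw [map_add]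
    exact add_mem h1 h2
  intro c ν hν
  rw [map_smul]
  refine Submodule.smul_mem _ _ ?_
  rw [R_xp]
  set δ := sh γ ν with hδ
  have hδQ : δ ∈ Q := hν
  have hN : ⌈γ b - γ a⌉ + ν b - ν a = ⌈δ b - δ a⌉ := by
    have : δ b - δ a = (γ b - γ a) + ((ν b - ν a : ℤ) : ℝ) := by
      simp only [hδ, sh, Int.cast_sub]
      ring
    rw [this, Int.ceil_add_intCast]
    ring
  rw [hN]
  have hδg : Gen δ := hγ.sh ν
  have hsw : δ ∘ Equiv.swap a b ∈ Q := hQ.swap δ hδQ a b hab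
  have h0 : (xp (ν ∘ Equiv.swap a b) : LP k (Fin l)) ∈
      Sup {ν | sh (γ ∘ Equiv.swap a b) ν ∈ Q} := xp_mem_Sup hsw
  unfold rr
  split_ifs with hpos
  · rw [mul_add, mul_one, mul_smul_comm, Finset.mul_sum]
    refine add_mem h0 (Submodule.smul_mem _ _ (Submodule.sum_mem _ fun j hj => ?_))
    rw [← xp_add]
    refine xp_mem_Sup ?_
    show sh _ _ ∈ Q
    rw [HS_sh_swap_add]
    have hlt : ((j + 1 : ℕ) : ℝ) < (δ ∘ Equiv.swap a b) a - (δ ∘ Equiv.swap a b) b := by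
      simp only [Function.comp, Equiv.swap_apply_left, Equiv.swap_apply_right]
      have h1 : ((j + 1 : ℕ) : ℤ) < ⌈δ b - δ a⌉ := by
        have := Finset.mem_range.1 hj
        omega
      have h2 := Int.lt_ceil.1 h1
      exact_mod_cast h2
    have := hQ.move _ hsw a b hab (j + 1) hlt
    convert this using 2 with i
    simp only [hδ, Function.comp, Pi.smul_apply, HS_al_neg a b, smul_eq_mul]
    push_cast
    ring
  · rw [mul_sub, mul_smul_comm, mul_one, mul_smul_comm, Finset.mul_sum]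
    refine sub_mem (Submodule.smul_mem _ _ h0)
      (Submodule.smul_mem _ _ (Submodule.sum_mem _ fun j hj => ?_))
    rw [← xp_add]
    refine xp_mem_Sup ?_
    show sh _ _ ∈ Q
    rw [HS_sh_swap_add]
    have hlt : ((j + 1 : ℕ) : ℝ) < δ a - δ b := by
      have h1 : ((j + 1 : ℕ) : ℤ) ≤ -⌈δ b - δ a⌉ := by
        have := Finset.mem_range.1 hj
        omega
      have h2 : ((j + 1 : ℕ) : ℝ) ≤ -((⌈δ b - δ a⌉ : ℤ) : ℝ) := by exact_mod_cast h1
      have h3 := Int.le_ceil (δ b - δ a)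
      have h4 := HS_gen_ceil hδg hne
      have h5 : δ b - δ a < ((⌈δ b - δ a⌉ : ℤ) : ℝ) := lt_of_le_of_ne h3 h4.symm
      linarith
    have := hQ.swap _ (hQ.move _ hδQ a b hab (j + 1) hlt) a b hab
    convert this using 2 with i
    simp only [hδ, Function.comp, Pi.smul_apply, HS_al_neg a b, HS_al_swap_apply, smul_eq_mul]
    push_cast
    ring

theorem HS_nsq_move {a b : Fin l} (hab : a ≠ b) (δ : Fin l → ℝ) (x : ℝ) :
    nsq (fun i => δ i - x * (al a b i : ℝ)) = nsq δ - 2 * x * (δ a - δ b - x) := by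
  have h1 : ∀ i, (δ i - x * (al a b i : ℝ)) ^ 2 =
      δ i ^ 2 - ((if i = a then 2 * x * δ a - x ^ 2 else 0) +
        (if i = b then - 2 * x * δ b - x ^ 2 else 0)) := by
    intro i
    rcases eq_or_ne i a with h | h
    · subst h
      rw [al_apply_left hab, if_pos rfl, if_neg hab]
      push_cast
      ring
    rcases eq_or_ne i b with h' | h'
    · subst h'
      rw [al_apply_right hab, if_pos rfl, if_neg h]
      push_cast
      ring
    rw [al_apply_other h h', if_neg h, if_neg h']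
    push_cast
    ring
  unfold nsq
  simp only [h1]
  rw [Finset.sum_sub_distrib, Finset.sum_add_distrib, Finset.sum_ite_eq' univ a,
    Finset.sum_ite_eq' univ b, if_pos (mem_univ a), if_pos (mem_univ b)]
  ring

theorem HS_sum_al (a b : Fin l) : ∑ i, al a b i = 0 := by
  simp [al]

theorem HS_sum_move (a b : Fin l) (δ : Fin l → ℝ) (x : ℝ) :
    ∑ i, (δ i - x * (al a b i : ℝ)) = ∑ i, δ i := by
  rw [Finset.sum_sub_distrib, ← Finset.mul_sum, ← Int.cast_sum, HS_sum_al, Int.cast_zero, mul_zero,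
    sub_zero]

theorem HS_nsq_swap (δ : Fin l → ℝ) (a b : Fin l) : nsq (δ ∘ Equiv.swap a b) = nsq δ :=
  Equiv.sum_comp (Equiv.swap a b) fun i => δ i ^ 2

theorem HS_sum_swap (δ : Fin l → ℝ) (a b : Fin l) :
    ∑ i, (δ ∘ Equiv.swap a b) i = ∑ i, δ i :=
  Equiv.sum_comp (Equiv.swap a b) fun i => δ i

/-- The set of the vectors which are smaller than `γ`. -/
def HS_Q (γ : Fin l → ℝ) : Set (Fin l → ℝ) :=
  {δ | ∑ i, δ i = ∑ i, γ i ∧ nsq δ < nsq γ ∧ (∀ μ : ℝ, (∀ i, μ ≤ γ i) → ∀ i, μ ≤ δ i) ∧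
    (∀ μ : ℝ, (∀ i, γ i ≤ μ) → ∀ i, δ i ≤ μ)}

theorem HS_move_bounds {a b : Fin l} (hab : a ≠ b) (δ : Fin l → ℝ) (x : ℝ) (hx : 0 ≤ x)
    (h : x < δ a - δ b) :
    (∀ μ : ℝ, (∀ i, μ ≤ δ i) → ∀ i, μ ≤ δ i - x * (al a b i : ℝ)) ∧
    (∀ μ : ℝ, (∀ i, δ i ≤ μ) → ∀ i, δ i - x * (al a b i : ℝ) ≤ μ) := by
  constructor
  · intro μ hμ i
    rcases eq_or_ne i a with h' | h'
    · subst h'
      rw [al_apply_left hab]
      have := hμ b
      push_cast
      linarith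
    rcases eq_or_ne i b with h'' | h''
    · subst h''
      rw [al_apply_right hab]
      have := hμ i
      push_cast
      linarith
    rw [al_apply_other h' h'']
    have := hμ i
    push_cast
    linarith
  · intro μ hμ i
    rcases eq_or_ne i a with h' | h'
    · subst h'
      rw [al_apply_left hab]
      have := hμ i
      push_cast
      linarith
    rcases eq_or_ne i b with h'' | h''
    · subst h''
      rw [al_apply_right hab]
      have := hμ a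
      push_cast
      linarith
    rw [al_apply_other h' h'']
    have := hμ i
    push_cast
    linarith

theorem HS_Q_Cv (γ : Fin l → ℝ) : Cv (HS_Q γ) where
  swap := by
    rintro δ ⟨h1, h2, h3, h4⟩ a b -
    refine ⟨?_, ?_, fun μ hμ i => h3 μ hμ _, fun μ hμ i => h4 μ hμ _⟩
    · rw [HS_sum_swap, h1]
    · rw [HS_nsq_swap]
      exact h2
  move := by
    rintro δ ⟨h1, h2, h3, h4⟩ a b hab j hj
    have hb := HS_move_bounds hab.ne δ j (Nat.cast_nonneg j) hj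
    refine ⟨?_, ?_, fun μ hμ => hb.1 μ (h3 μ hμ), fun μ hμ => hb.2 μ (h4 μ hμ)⟩
    · rw [HS_sum_move, h1]
    · rw [HS_nsq_move hab.ne]
      have : 0 ≤ 2 * (j : ℝ) * (δ a - δ b - j) := by
        have := Nat.cast_nonneg (α := ℝ) j
        have h5 : 0 ≤ δ a - δ b - j := by linarith
        positivity
      linarith

/-- The set of the exponents in `B_supp`. -/
def HS_X (γ : Fin l → ℝ) : Set (Fin l → ℤ) :=
  {ν | ∑ i, ν i = 0 ∧ nsq (sh γ ν) < nsq γ ∧ (∀ μ : ℝ, (∀ i, μ ≤ γ i) → ∀ i, μ ≤ sh γ ν i) ∧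
      (∀ μ : ℝ, (∀ i, γ i ≤ μ) → ∀ i, sh γ ν i ≤ μ)}

theorem HS_sum_sh (γ : Fin l → ℝ) (ν : Fin l → ℤ) :
    ∑ i, sh γ ν i = ∑ i, γ i + ((∑ i, ν i : ℤ) : ℝ) := by
  unfold sh
  rw [Finset.sum_add_distrib, Int.cast_sum]

theorem HS_X_sub (γ : Fin l → ℝ) : HS_X γ ⊆ {ν | sh γ ν ∈ HS_Q γ} := by
  rintro ν ⟨h1, h2, h3, h4⟩
  refine ⟨?_, h2, h3, h4⟩
  rw [HS_sum_sh, h1, Int.cast_zero, add_zero]

theorem HS_sub_X (γ : Fin l → ℝ) (a b : Fin l) :
    {ν | sh (γ ∘ Equiv.swap a b) ν ∈ HS_Q γ} ⊆ HS_X (γ ∘ Equiv.swap a b) := by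
  rintro ν ⟨h1, h2, h3, h4⟩
  refine ⟨?_, ?_, fun μ hμ => h3 μ fun i => ?_, fun μ hμ => h4 μ fun i => ?_⟩
  · rw [HS_sum_sh, HS_sum_swap] at h1
    have : ((∑ i, ν i : ℤ) : ℝ) = 0 := by linarith
    exact_mod_cast this
  · rw [HS_nsq_swap]
    exact h2
  · have := hμ (Equiv.swap a b i)
    simpa using this
  · have := hμ (Equiv.swap a b i)
    simpa using this

theorem B_supp (q : k) {γ : Fin l → ℝ} (hγ : Gen γ) : B q γ - 1 ∈
    Sup {ν | ∑ i, ν i = 0 ∧ nsq (sh γ ν) < nsq γ ∧ (∀ μ : ℝ, (∀ i, μ ≤ γ i) → ∀ i, μ ≤ sh γ ν i) ∧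
      (∀ μ : ℝ, (∀ i, γ i ≤ μ) → ∀ i, sh γ ν i ≤ μ)} := by
  show B q γ - 1 ∈ Sup (HS_X γ)
  refine sort_induct (P := fun γ => B q γ - 1 ∈ Sup (HS_X γ)) ?_ ?_ hγ
  · intro γ _ hm
    rw [B_mono q hm, sub_self]
    exact zero_mem _
  intro γ hγ a b hab hlt ih
  rw [B_swap q hγ.injective hab hlt]
  have hn : 0 < ⌈γ b - γ a⌉ := Int.ceil_pos.2 (by linarith)
  have h1 : R q a b ⌈γ b - γ a⌉ (B q γ) - 1 =
      (1 - q) • ∑ j ∈ range (⌈γ b - γ a⌉ - 1).toNat, xp (((j : ℤ) + 1) • al b a) +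
        R q a b ⌈γ b - γ a⌉ (B q γ - 1) := by
    rw [map_sub, R_one q a b hn]
    ring
  rw [h1]
  refine add_mem (Submodule.smul_mem _ _ (Submodule.sum_mem _ fun j hj => ?_)) ?_
  · refine xp_mem_Sup ?_
    have hlt' : (j : ℝ) + 1 < γ b - γ a := by
      have h1 : ((j + 1 : ℕ) : ℤ) < ⌈γ b - γ a⌉ := by
        have := Finset.mem_range.1 hj
        omega
      have h2 := Int.lt_ceil.1 h1
      exact_mod_cast h2
    have e : sh (γ ∘ Equiv.swap a b) (((j : ℤ) + 1) • al b a) =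
        fun i => (γ ∘ Equiv.swap a b) i - ((j : ℝ) + 1) * (al a b i : ℝ) := by
      funext i
      simp only [sh, Pi.smul_apply, HS_al_neg a b, smul_eq_mul]
      push_cast
      ring
    have hj0 : (0 : ℝ) ≤ (j : ℝ) + 1 := by positivity
    have hb := HS_move_bounds hab.ne (γ ∘ Equiv.swap a b) ((j : ℝ) + 1) hj0 (by
      simpa using hlt')
    refine ⟨?_, ?_, ?_, ?_⟩
    · simp only [Pi.smul_apply]
      rw [← Finset.smul_sum, HS_sum_al, smul_zero]
    · rw [e, HS_nsq_move hab.ne]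
      have h3 : 0 < 2 * ((j : ℝ) + 1) * ((γ ∘ Equiv.swap a b) a - (γ ∘ Equiv.swap a b) b -
          ((j : ℝ) + 1)) := by
        have h4 : 0 < (γ ∘ Equiv.swap a b) a - (γ ∘ Equiv.swap a b) b - ((j : ℝ) + 1) := by
          simp only [Function.comp, Equiv.swap_apply_left, Equiv.swap_apply_right]
          linarith
        positivity
      linarith
    · rw [e]
      exact hb.1
    · rw [e]
      exact hb.2
  · exact Sup_mono (HS_sub_X γ a b) (R_Sup q (HS_Q_Cv γ) hγ hab (Sup_mono (HS_X_sub γ) ih))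

theorem B_co_zero (q : k) {γ : Fin l → ℝ} (hγ : Gen γ) : co 0 (B q γ) = 1 := by
  have h : co 0 (B q γ - 1) = 0 := by
    by_contra h
    have h1 := (B_supp q hγ 0 h).2.1
    have : sh γ 0 = γ := by
      funext i
      simp [sh]
    rw [this] at h1
    exact lt_irrefl _ h1
  rw [map_sub, sub_eq_zero] at h
  rw [h]
  exact co_xp_self 0

theorem HS_co_ne (q : k) {γ : Fin l → ℝ} (hγ : Gen γ) {ν : Fin l → ℤ} (h : co ν (B q γ) ≠ 0) :
    ν = 0 ∨ ν ∈ HS_X γ := by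
  by_cases h1 : co ν (B q γ - 1) = 0
  · left
    by_contra h2
    rw [map_sub, sub_eq_zero] at h1
    rw [h1] at h
    exact h (co_xp_ne (Ne.symm h2))
  · exact Or.inr (B_supp q hγ ν h1)

theorem B_norm (q : k) {γ : Fin l → ℝ} (hγ : Gen γ) {ν : Fin l → ℤ} (h : co ν (B q γ) ≠ 0) :
    ν = 0 ∨ nsq (sh γ ν) < nsq γ := (HS_co_ne q hγ h).imp id fun h => h.2.1

theorem B_sum (q : k) {γ : Fin l → ℝ} (hγ : Gen γ) : B q γ ∈ Sup {ν | ∑ i, ν i = 0} := by
  intro ν hν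
  rcases HS_co_ne q hγ hν with rfl | h
  · simp
  · exact h.1

theorem B_nonneg (q : k) {γ : Fin l → ℝ} (hγ : Gen γ) (hw : ∀ i j, γ i - γ j < 1) {κ : Fin l → ℤ}
    (hκ : ∀ i, 0 ≤ κ i) : xp κ * B q (sh γ κ) ∈ Sup {ν | ∀ i, 0 ≤ ν i} := by
  intro ν hν i
  rw [co_xp_mul] at hν
  rcases HS_co_ne q (hγ.sh κ) hν with h | h
  · have := hκ i
    have h' := congrFun h i
    simp only [Pi.sub_apply, Pi.zero_apply] at h'
    omega
  obtain ⟨i0, -, hi0⟩ := Finset.exists_min_image univ γ ⟨i, mem_univ i⟩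
  have h1 : ∀ j, γ i0 ≤ sh γ κ j := fun j => by
    have h2 := hi0 j (mem_univ j)
    have h3 : (0 : ℝ) ≤ κ j := by exact_mod_cast hκ j
    unfold sh
    linarith
  have h4 := h.2.2.1 _ h1 i
  have h5 := hw i i0
  simp only [sh, Pi.sub_apply] at h4
  push_cast at h4
  have h6 : (-1 : ℝ) < (ν i : ℝ) := by linarith
  have h7 : (-1 : ℤ) < ν i := by exact_mod_cast h6
  omega

theorem B_nonpos (q : k) {γ : Fin l → ℝ} (hγ : Gen γ) (hw : ∀ i j, γ i - γ j < 1) {κ : Fin l → ℤ}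
    (hκ : ∀ i, 0 ≤ κ i) : xp (-κ) * B q (fun i => -(sh γ κ i)) ∈ Sup {ν | ∀ i, ν i ≤ 0} := by
  intro ν hν i
  rw [co_xp_mul] at hν
  rcases HS_co_ne q (hγ.sh κ).neg hν with h | h
  · have := hκ i
    have h' := congrFun h i
    simp only [Pi.sub_apply, Pi.neg_apply, Pi.zero_apply] at h'
    omega
  obtain ⟨i0, -, hi0⟩ := Finset.exists_min_image univ γ ⟨i, mem_univ i⟩
  have h1 : ∀ j, (fun i => -(sh γ κ i)) j ≤ -γ i0 := fun j => by
    have h2 := hi0 j (mem_univ j)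
    have h3 : (0 : ℝ) ≤ κ j := by exact_mod_cast hκ j
    simp only [sh]
    linarith
  have h4 := h.2.2.2 _ h1 i
  have h5 := hw i i0
  simp only [sh, Pi.sub_apply, Pi.neg_apply] at h4
  push_cast at h4
  have h6 : (ν i : ℝ) < 1 := by linarith
  have h7 : ν i < (1 : ℤ) := by exact_mod_cast h6
  omega

end

end Pool.Agent.Helper95.SH
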