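import Pool.Agent.Helper95.SH.CW
import Pool.Agent.Helper95.SH.HS

namespace Pool.Agent.Helper95.SH

open Finset

section
variable {k : Type*} [CommRing k] {l : ℕ}

/-! ## C2 (file CD.lean): duality (uses H1, H3, H4, C1) -/

/-- The pairing. -/
noncomputable def CD_P (q : k) (γ : Fin l → ℝ) (κ : Fin l → ℤ) : k :=
  CT (xp κ * B q (sh γ κ) * B q (fun i => -γ i) * W q)

theorem CD_comp_comp (γ : Fin l → ℝ) (a b : Fin l) :
    (γ ∘ Equiv.swap a b) ∘ Equiv.swap a b = γ := by
  funext i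
  simp

theorem CD_comp_compZ (κ : Fin l → ℤ) (a b : Fin l) :
    (κ ∘ Equiv.swap a b) ∘ Equiv.swap a b = κ := by
  funext i
  simp

theorem CD_nsq_comp (γ : Fin l → ℝ) (σ : Equiv.Perm (Fin l)) : nsq (γ ∘ σ) = nsq γ := by
  unfold nsq
  exact Equiv.sum_comp σ (fun i => γ i ^ 2)

theorem CD_nsq_neg (γ : Fin l → ℝ) : nsq (fun i => -γ i) = nsq γ := by
  unfold nsq
  refine Finset.sum_congr rfl fun i _ => ?_
  ring

theorem CD_comp_eq_zero {κ : Fin l → ℤ} (σ : Equiv.Perm (Fin l)) (h : κ ∘ σ = 0) : κ = 0 := by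
  funext i
  have := congrFun h (σ.symm i)
  simpa using this

/-- The main identity. -/
theorem CD_main {q : k} (hq : IsNilpotent q) {γ : Fin l → ℝ} (hγ : Gen γ) (κ : Fin l → ℤ)
    {a b : Fin l} (hab : Adj a b) :
    (if sh γ κ b < sh γ κ a then q else 1) * CD_P q (γ ∘ Equiv.swap a b) (κ ∘ Equiv.swap a b) =
      (if γ b < γ a then q else 1) * CD_P q γ κ := by
  have hne : a ≠ b := hab.ne
  set s := Equiv.swap a b with hs
  set n0 : ℤ := ⌈γ b - γ a⌉ with hn0
  have h1 : R q a b n0 (xp κ * B q (sh γ κ)) =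
      (if sh γ κ b < sh γ κ a then q else 1) • (xp (κ ∘ s) * B q (sh γ κ ∘ s)) := by
    rw [R_xp_mul q hne]
    have h2 : n0 + κ b - κ a = ⌈sh γ κ b - sh γ κ a⌉ := by
      have h3 : sh γ κ b - sh γ κ a = (γ b - γ a) + ((κ b - κ a : ℤ) : ℝ) := by
        unfold sh
        push_cast
        ring
      rw [h3, Int.ceil_add_intCast]
      ring
    rw [h2, R_B q (hγ.sh κ) hab, mul_smul_comm]
  have hδ : Gen (fun i => -(γ ∘ s) i) := (hγ.comp s).neg
  have h4 : R q a b n0 (B q (fun i => -(γ ∘ s) i)) =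
      (if γ b < γ a then q else 1) • B q (fun i => -γ i) := by
    have h5 := R_B q hδ hab
    have h6 : (fun i => -(γ ∘ s) i) b - (fun i => -(γ ∘ s) i) a = γ b - γ a := by
      simp only [Function.comp_apply, hs, Equiv.swap_apply_left, Equiv.swap_apply_right]
      ring
    rw [h6] at h5
    have h7 : (fun i => -(γ ∘ s) i) ∘ Equiv.swap a b = fun i => -γ i := by
      funext i
      simp [hs]
    rw [h7] at h5
    have h8 : ((fun i => -(γ ∘ s) i) b < (fun i => -(γ ∘ s) i) a) ↔ (γ b < γ a) := by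
      simp only [Function.comp_apply, hs, Equiv.swap_apply_left, Equiv.swap_apply_right,
        neg_lt_neg_iff]
    rw [h5]
    congr 1
    exact if_congr h8 rfl rfl
  have h9 := R_adj hq hab n0 (xp κ * B q (sh γ κ)) (B q (fun i => -(γ ∘ s) i))
  rw [h1, h4] at h9
  rw [smul_mul_assoc, smul_mul_assoc, map_smul, smul_eq_mul, mul_smul_comm, smul_mul_assoc,
    map_smul, smul_eq_mul] at h9
  exact h9

theorem CD_up {q : k} (hq : IsNilpotent q) {γ : Fin l → ℝ} (hγ : Gen γ) (κ : Fin l → ℤ)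
    {a b : Fin l} (hab : Adj a b) (h : γ a < γ b) :
    CD_P q γ κ = (if sh γ κ b < sh γ κ a then q else 1) *
      CD_P q (γ ∘ Equiv.swap a b) (κ ∘ Equiv.swap a b) := by
  rw [CD_main hq hγ κ hab, if_neg (not_lt.2 h.le), one_mul]

theorem CD_down {q : k} (hq : IsNilpotent q) {γ : Fin l → ℝ} (hγ : Gen γ) (κ : Fin l → ℤ)
    {a b : Fin l} (hab : Adj a b) (h : sh γ κ b < sh γ κ a) :
    ∃ c : k, CD_P q γ κ = c * CD_P q (γ ∘ Equiv.swap a b) (κ ∘ Equiv.swap a b) := by
  have h1 := CD_main hq (hγ.comp (Equiv.swap a b)) (κ ∘ Equiv.swap a b) hab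
  rw [CD_comp_comp, CD_comp_compZ] at h1
  refine ⟨if (γ ∘ Equiv.swap a b) b < (γ ∘ Equiv.swap a b) a then q else 1, ?_⟩
  rw [← h1, if_neg, one_mul]
  have h2 : sh (γ ∘ Equiv.swap a b) (κ ∘ Equiv.swap a b) b = sh γ κ a := by
    simp [sh]
  have h3 : sh (γ ∘ Equiv.swap a b) (κ ∘ Equiv.swap a b) a = sh γ κ b := by
    simp [sh]
  rw [h2, h3]
  exact not_lt.2 h.le

theorem CD_nsq_sh (γ : Fin l → ℝ) (ν : Fin l → ℤ) :
    nsq (sh γ ν) = nsq γ + 2 * ∑ i, γ i * ν i + ∑ i, (ν i : ℝ) ^ 2 := by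
  unfold nsq sh
  rw [Finset.mul_sum, ← Finset.sum_add_distrib, ← Finset.sum_add_distrib]
  refine Finset.sum_congr rfl fun i _ => ?_
  ring

theorem CD_sq_nonneg (ν : Fin l → ℤ) : 0 ≤ ∑ i, (ν i : ℝ) ^ 2 :=
  Finset.sum_nonneg fun i _ => sq_nonneg _

theorem CD_sq_pos {ν : Fin l → ℤ} (h : ν ≠ 0) : 0 < ∑ i, (ν i : ℝ) ^ 2 := by
  obtain ⟨i, hi⟩ := Function.ne_iff.1 h
  refine Finset.sum_pos' (fun _ _ => sq_nonneg _) ⟨i, Finset.mem_univ _, ?_⟩
  have : (ν i : ℝ) ≠ 0 := by exact_mod_cast hi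
  positivity

theorem CD_one_gen {γ : Fin l → ℝ} (h : Gen fun i => -γ i) : Gen γ := by
  have := h.neg
  simpa using this

theorem CD_claim1 {q : k} (hq : IsNilpotent q) {δ : Fin l → ℝ} (hδ : Gen δ) :
    ∀ κ : Fin l → ℤ, CD_P q (fun i => -δ i) κ ≠ 0 →
      κ = 0 ∨ nsq (fun i => -δ i) < nsq (sh (fun i => -δ i) κ) := by
  refine sort_induct (P := fun δ => ∀ κ : Fin l → ℤ, CD_P q (fun i => -δ i) κ ≠ 0 →
      κ = 0 ∨ nsq (fun i => -δ i) < nsq (sh (fun i => -δ i) κ)) ?_ ?_ hδ
  · intro δ hδ hm κ hne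
    set γ : Fin l → ℝ := fun i => -δ i with hγdef
    have hγ : Gen γ := hδ.neg
    have hanti : StrictAnti γ := fun i j hij => neg_lt_neg (hm hij)
    have h1 : B q (fun i => -γ i) = 1 := by
      have : (fun i => -γ i) = δ := by
        funext i
        simp [hγdef]
      rw [this]
      exact B_mono q hm
    unfold CD_P at hne
    rw [h1, mul_one] at hne
    obtain ⟨μ, η, hμη, h2, h3⟩ := exists_of_co_mul_ne hne
    rw [co_xp_mul] at h2
    have h4 := B_norm q (hγ.sh κ) h2
    have h5 := W_norm hq hanti h3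
    have h6 : ∑ i, γ i * η i ≤ 0 := by
      rcases h5 with h5 | h5
      · rw [h5]
        simp
      · exact h5.le
    have h7 : ∑ i, γ i * (μ i : ℝ) = -∑ i, γ i * (η i : ℝ) := by
      rw [← Finset.sum_neg_distrib]
      refine Finset.sum_congr rfl fun i _ => ?_
      have : μ i = -η i := eq_neg_of_add_eq_zero_left (congrFun hμη i)
      rw [this]
      push_cast
      ring
    have h8 := CD_nsq_sh γ μ
    have h9 : sh (sh γ κ) (μ - κ) = sh γ μ := by
      funext i
      simp [sh]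
    by_cases hκ : κ = 0
    · exact Or.inl hκ
    · right
      rcases h4 with h4 | h4
      · have h10 : μ = κ := sub_eq_zero.1 h4
        have h11 := CD_sq_pos hκ
        rw [h10] at h7 h8
        rw [h8]
        linarith
      · rw [h9] at h4
        have h11 := CD_sq_nonneg μ
        linarith
  · intro δ hδ a b hab hlt ih κ hne
    have hγ' : Gen (fun i => -(δ ∘ Equiv.swap a b) i) := (hδ.comp _).neg
    have h1 : (fun i => -(δ ∘ Equiv.swap a b) i) a < (fun i => -(δ ∘ Equiv.swap a b) i) b := by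
      simp only [Function.comp_apply, Equiv.swap_apply_left, Equiv.swap_apply_right]
      linarith
    have h2 := CD_up hq hγ' κ hab h1
    have h3 : (fun i => -(δ ∘ Equiv.swap a b) i) ∘ Equiv.swap a b = fun i => -δ i := by
      funext i
      simp
    rw [h3] at h2
    have h4 : CD_P q (fun i => -δ i) (κ ∘ Equiv.swap a b) ≠ 0 := by
      intro h0
      rw [h0, mul_zero] at h2
      exact hne h2
    have h5 : (fun i => -(δ ∘ Equiv.swap a b) i) = (fun i => -δ i) ∘ Equiv.swap a b := rfl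
    have h6 : sh (fun i => -(δ ∘ Equiv.swap a b) i) κ =
        sh (fun i => -δ i) (κ ∘ Equiv.swap a b) ∘ Equiv.swap a b := by
      funext i
      simp [sh]
    rcases ih _ h4 with h | h
    · exact Or.inl (CD_comp_eq_zero _ h)
    · right
      rw [h6, h5, CD_nsq_comp, CD_nsq_comp]
      exact h

theorem CD_claim2 {q : k} (hq : IsNilpotent q) {δ : Fin l → ℝ} (hδ : Gen δ) :
    ∀ κ : Fin l → ℤ, CD_P q (sh δ (-κ)) κ ≠ 0 → nsq δ ≤ nsq (sh δ (-κ)) := by
  refine sort_induct (P := fun δ => ∀ κ : Fin l → ℤ, CD_P q (sh δ (-κ)) κ ≠ 0 →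
      nsq δ ≤ nsq (sh δ (-κ))) ?_ ?_ hδ
  · intro δ hδ hm κ hne
    have h0 : sh (sh δ (-κ)) κ = δ := by
      funext i
      simp [sh]
    have hγ : Gen (sh δ (-κ)) := hδ.sh _
    unfold CD_P at hne
    rw [h0, B_mono q hm, mul_one] at hne
    obtain ⟨μ, η, hμη, h2, h3⟩ := exists_of_co_mul_ne hne
    rw [co_xp_mul] at h2
    have h4 := B_norm q hγ.neg h2
    have hanti : StrictAnti (fun i => -δ i) := fun i j hij => neg_lt_neg (hm hij)
    have h5 := W_norm hq hanti h3
    have h6 : ∑ i, (fun i => -δ i) i * (η i : ℝ) ≤ 0 := by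
      rcases h5 with h5 | h5
      · rw [h5]
        simp
      · exact h5.le
    have h7 : ∑ i, (fun i => -δ i) i * (μ i : ℝ) = -∑ i, (fun i => -δ i) i * (η i : ℝ) := by
      rw [← Finset.sum_neg_distrib]
      refine Finset.sum_congr rfl fun i _ => ?_
      have : μ i = -η i := eq_neg_of_add_eq_zero_left (congrFun hμη i)
      rw [this]
      push_cast
      ring
    have h8 := CD_nsq_sh (fun i => -δ i) μ
    rw [CD_nsq_neg] at h8
    have h9 : sh (fun i => -sh δ (-κ) i) (μ - κ) = sh (fun i => -δ i) μ := by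
      funext i
      simp [sh]
      ring
    have h11 := CD_sq_nonneg μ
    have h12 : nsq (sh (fun i => -sh δ (-κ) i) (μ - κ)) ≤ nsq (sh δ (-κ)) := by
      rcases h4 with h4 | h4
      · rw [h4]
        have : sh (fun i => -sh δ (-κ) i) 0 = fun i => -sh δ (-κ) i := by
          funext i
          simp [sh]
        rw [this, CD_nsq_neg]
      · rw [CD_nsq_neg (sh δ (-κ))] at h4
        exact h4.le
    rw [h9] at h12
    linarith
  · intro δ hδ a b hab hlt ih κ hne
    have hγ' : Gen (sh (δ ∘ Equiv.swap a b) (-κ)) := (hδ.comp _).sh _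
    have h0 : sh (sh (δ ∘ Equiv.swap a b) (-κ)) κ = δ ∘ Equiv.swap a b := by
      funext i
      simp [sh]
    have h1 : sh (sh (δ ∘ Equiv.swap a b) (-κ)) κ b < sh (sh (δ ∘ Equiv.swap a b) (-κ)) κ a := by
      rw [h0]
      simpa using hlt
    obtain ⟨c, h2⟩ := CD_down hq hγ' κ hab h1
    have h3 : sh (δ ∘ Equiv.swap a b) (-κ) ∘ Equiv.swap a b =
        sh δ (-(κ ∘ Equiv.swap a b)) := by
      funext i
      simp [sh]
    rw [h3] at h2
    have h4 : CD_P q (sh δ (-(κ ∘ Equiv.swap a b))) (κ ∘ Equiv.swap a b) ≠ 0 := by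
      intro h
      rw [h, mul_zero] at h2
      exact hne h2
    have h5 := ih _ h4
    rw [← h3, CD_nsq_comp] at h5
    rw [CD_nsq_comp]
    exact h5

theorem CD_zero {q : k} (hq : IsNilpotent q) {δ : Fin l → ℝ} (hδ : Gen δ) :
    CD_P q (fun i => -δ i) 0 = 1 := by
  refine sort_induct (P := fun δ => CD_P q (fun i => -δ i) 0 = 1) ?_ ?_ hδ
  · intro δ hδ hm
    set γ : Fin l → ℝ := fun i => -δ i with hγdef
    have hγ : Gen γ := hδ.neg
    have hanti : StrictAnti γ := fun i j hij => neg_lt_neg (hm hij)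
    have h1 : B q (fun i => -γ i) = 1 := by
      have : (fun i => -γ i) = δ := by
        funext i
        simp [hγdef]
      rw [this]
      exact B_mono q hm
    have h0 : sh γ 0 = γ := by
      funext i
      simp [sh]
    unfold CD_P
    rw [h1, mul_one, h0, xp_zero, one_mul]
    have h2 : B q γ * W q = 1 + (B q γ - 1) + (W q - 1) + (B q γ - 1) * (W q - 1) := by ring
    have h3 : CT (B q γ - 1) = 0 := by
      rw [map_sub, CT_one]
      change co 0 (B q γ) - 1 = 0
      rw [B_co_zero q hγ, sub_self]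
    have h4 : CT (W q - 1 : LP k (Fin l)) = 0 := by
      rw [map_sub, CT_one]
      change co 0 (W q) - 1 = 0
      rw [W_co_zero hq, sub_self]
    have h5 : CT ((B q γ - 1) * (W q - 1)) = 0 := by
      by_contra hne
      obtain ⟨ν, η, hνη, h6, h7⟩ := exists_of_co_mul_ne hne
      have h8 := (B_supp q hγ) ν h6
      have h9 := (W_supp hq hanti) η h7
      have h10 : nsq (sh γ ν) < nsq γ := h8.2.1
      have h11 : ∑ i, γ i * (η i : ℝ) < 0 := h9.2
      have h12 : ∑ i, γ i * (ν i : ℝ) = -∑ i, γ i * (η i : ℝ) := by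
        rw [← Finset.sum_neg_distrib]
        refine Finset.sum_congr rfl fun i _ => ?_
        have : ν i = -η i := eq_neg_of_add_eq_zero_left (congrFun hνη i)
        rw [this]
        push_cast
        ring
      have h13 := CD_nsq_sh γ ν
      have h14 := CD_sq_nonneg ν
      linarith
    rw [h2, map_add, map_add, map_add, h3, h4, h5, CT_one]
    ring
  · intro δ hδ a b hab hlt ih
    have hγ' : Gen (fun i => -(δ ∘ Equiv.swap a b) i) := (hδ.comp _).neg
    have h1 : (fun i => -(δ ∘ Equiv.swap a b) i) a < (fun i => -(δ ∘ Equiv.swap a b) i) b := by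
      simp only [Function.comp_apply, Equiv.swap_apply_left, Equiv.swap_apply_right]
      linarith
    have h2 := CD_up hq hγ' 0 hab h1
    have h3 : (fun i => -(δ ∘ Equiv.swap a b) i) ∘ Equiv.swap a b = fun i => -δ i := by
      funext i
      simp
    have h4 : (0 : Fin l → ℤ) ∘ Equiv.swap a b = 0 := rfl
    rw [h3, h4, ih, mul_one] at h2
    rw [h2, if_neg]
    simp only [sh, Pi.zero_apply, Int.cast_zero, add_zero]
    exact not_lt.2 h1.le

theorem duality {q : k} (hq : IsNilpotent q) {γ : Fin l → ℝ} (hγ : Gen γ) (κ : Fin l → ℤ) :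
    CT (xp κ * B q (sh γ κ) * B q (fun i => -γ i) * W q) = if κ = 0 then 1 else 0 := by
  change CD_P q γ κ = _
  have hnn : (fun i => -(fun i => -γ i) i) = γ := by
    funext i
    simp
  split_ifs with h
  · subst h
    have h1 := CD_zero hq hγ.neg
    rw [hnn] at h1
    exact h1
  · by_contra hne
    have h1 := CD_claim1 hq hγ.neg κ
    rw [hnn] at h1
    have h2 := CD_claim2 hq (hγ.sh κ) κ
    have h3 : sh (sh γ κ) (-κ) = γ := by
      funext i
      simp [sh]
    rw [h3] at h2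
    rcases h1 hne with h4 | h4
    · exact h h4
    · exact absurd (h2 hne) (not_le.2 h4)

end

end Pool.Agent.Helper95.SH
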