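import Pool.Agent.Helper95.SH.HB

namespace Pool.Agent.Helper95.SH

open Finset

section
variable {k : Type*} [CommRing k] {l : ℕ}

/-! ## H5 (file HP.lean): positivity (uses H1, H3) -/

theorem HP_gen_mem (S : Subsemiring k) (q : k) (γ : Fin l → ℝ) {c : k} (hc : c ∈ S) {κ : Fin l → ℤ}
    (hκ : ∀ i, 0 ≤ κ i) : c • (xp κ * B q (sh γ κ)) ∈ Zp S q γ :=
  AddSubmonoid.subset_closure ⟨c, hc, κ, hκ, rfl⟩

theorem HP_smul_mem (S : Subsemiring k) (q : k) {γ : Fin l → ℝ} {c : k} (hc : c ∈ S)
    {f : LP k (Fin l)} (hf : f ∈ Zp S q γ) : c • f ∈ Zp S q γ := by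
  unfold Zp at hf
  induction hf using AddSubmonoid.closure_induction with
  | mem f hf =>
    obtain ⟨d, hd, κ, hκ, rfl⟩ := hf
    rw [smul_smul]
    exact HP_gen_mem S q γ (S.mul_mem hc hd) hκ
  | zero => rw [smul_zero]; exact (Zp S q γ).zero_mem
  | add f g _ _ hf hg => rw [smul_add]; exact (Zp S q γ).add_mem hf hg

theorem HP_comp_swap_swap {M : Type*} (γ : Fin l → M) (a b : Fin l) :
    (γ ∘ Equiv.swap a b) ∘ Equiv.swap a b = γ := by
  funext i
  simp

theorem R_Zp (S : Subsemiring k) (q : k) (hq : q - 1 ∈ S) {γ : Fin l → ℝ} (hγ : Gen γ) {a b : Fin l}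
    (hab : Adj a b) {f : LP k (Fin l)} (hf : f ∈ Zp S q γ) :
    R q a b ⌈γ b - γ a⌉ f ∈ Zp S q (γ ∘ Equiv.swap a b) := by
  have hqS : q ∈ S := by
    have := S.add_mem hq S.one_mem
    rwa [sub_add_cancel] at this
  unfold Zp at hf
  induction hf using AddSubmonoid.closure_induction with
  | mem f hf =>
    obtain ⟨c, hc, κ, hκ, rfl⟩ := hf
    have h1 : ⌈γ b - γ a⌉ + κ b - κ a = ⌈sh γ κ b - sh γ κ a⌉ := by
      have : sh γ κ b - sh γ κ a = γ b - γ a + ((κ b - κ a : ℤ) : ℝ) := by
        simp only [sh]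
        push_cast
        ring
      rw [this, Int.ceil_add_intCast]
      ring
    rw [map_smul, R_xp_mul q hab.ne, h1, R_B q (hγ.sh κ) hab, mul_smul_comm, smul_smul, sh_comp]
    refine HP_gen_mem S q _ (S.mul_mem hc ?_) fun i => hκ _
    split_ifs
    · exact hqS
    · exact S.one_mem
  | zero => rw [map_zero]; exact (Zp S q _).zero_mem
  | add f g _ _ hf hg => rw [map_add]; exact (Zp S q _).add_mem hf hg

/-! ### The measure -/

theorem HP_finite (γ : Fin l → ℝ) (M : ℝ) : {κ : Fin l → ℤ | nsq (sh γ κ) < M}.Finite := by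
  refine Set.Finite.subset (Set.finite_Icc (fun i => ⌊-(M + 1) - γ i⌋) (fun i => ⌈M + 1 - γ i⌉)) ?_
  intro κ hκ
  have h1 : ∀ i, (γ i + κ i) ^ 2 < M := by
    intro i
    refine lt_of_le_of_lt ?_ hκ
    unfold nsq
    exact Finset.single_le_sum (f := fun i => sh γ κ i ^ 2) (fun i _ => sq_nonneg _) (Finset.mem_univ i)
  rw [Set.mem_Icc, Pi.le_def, Pi.le_def]
  constructor
  · intro i
    have h2 : -(M + 1) - γ i < κ i := by nlinarith [h1 i, sq_nonneg (γ i + κ i + 1)]
    have h3 : (⌊-(M + 1) - γ i⌋ : ℝ) ≤ -(M + 1) - γ i := Int.floor_le _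
    exact_mod_cast (h3.trans_lt h2).le
  · intro i
    have h2 : (κ i : ℝ) < M + 1 - γ i := by nlinarith [h1 i, sq_nonneg (γ i + κ i - 1)]
    have h3 : M + 1 - γ i ≤ (⌈M + 1 - γ i⌉ : ℝ) := Int.le_ceil _
    exact_mod_cast (h2.trans_le h3).le

/-- The measure: the number of integer translates with smaller norm. -/
noncomputable def HP_meas (γ : Fin l → ℝ) (ν : Fin l → ℤ) : ℕ :=
  {κ : Fin l → ℤ | nsq (sh γ κ) < nsq (sh γ ν)}.ncard

theorem HP_nsq_comp (γ : Fin l → ℝ) (σ : Equiv.Perm (Fin l)) : nsq (γ ∘ σ) = nsq γ := by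
  unfold nsq
  exact Equiv.sum_comp σ fun i => γ i ^ 2

theorem HP_meas_comp (γ : Fin l → ℝ) (ν : Fin l → ℤ) (σ : Equiv.Perm (Fin l)) :
    HP_meas (γ ∘ σ) (ν ∘ σ) = HP_meas γ ν := by
  unfold HP_meas
  have : {κ : Fin l → ℤ | nsq (sh γ κ) < nsq (sh γ ν)} =
      (fun κ : Fin l → ℤ => κ ∘ σ.symm) ''
        {κ : Fin l → ℤ | nsq (sh (γ ∘ σ) κ) < nsq (sh (γ ∘ σ) (ν ∘ σ))} := by
    ext κ
    simp only [Set.mem_image, Set.mem_ofPred_eq]
    constructor
    · intro h
      refine ⟨κ ∘ σ, ?_, ?_⟩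
      · rw [← sh_comp, ← sh_comp, HP_nsq_comp, HP_nsq_comp]
        exact h
      · funext i
        simp
    · rintro ⟨κ', h, rfl⟩
      have h2 : κ' = (κ' ∘ σ.symm) ∘ σ := by
        funext i
        simp
      rw [h2, ← sh_comp, ← sh_comp, HP_nsq_comp, HP_nsq_comp] at h
      exact h
  rw [this, Set.ncard_image_of_injective]
  intro κ κ' h
  funext i
  have := congrFun h (σ i)
  simpa using this

theorem HP_meas_lt {γ : Fin l → ℝ} {ν ν' : Fin l → ℤ} (h : nsq (sh γ ν') < nsq (sh γ ν)) :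
    HP_meas γ ν' < HP_meas γ ν := by
  unfold HP_meas
  refine Set.ncard_lt_ncard ?_ (HP_finite γ _)
  refine ⟨fun κ hκ => lt_trans hκ h, fun hc => ?_⟩
  exact lt_irrefl (nsq (sh γ ν')) (hc (show ν' ∈ {κ : Fin l → ℤ | nsq (sh γ κ) < nsq (sh γ ν)} from h))

theorem HP_nsq_move {δ : Fin l → ℝ} {a b : Fin l} (hab : a ≠ b) (j : ℝ) (h0 : 0 < j)
    (h1 : j < δ a - δ b) : nsq (fun i => δ i - j * (al a b i : ℝ)) < nsq δ := by
  unfold nsq
  have h2 : ∀ i, (δ i - j * (al a b i : ℝ)) ^ 2 =
      δ i ^ 2 + ((if i = a then (-2 * j * δ a + j ^ 2) else 0) +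
        (if i = b then (2 * j * δ b + j ^ 2) else 0)) := by
    intro i
    by_cases ha : i = a
    · subst ha
      rw [al_apply_left hab, if_pos rfl, if_neg hab]
      push_cast
      ring
    · by_cases hb : i = b
      · subst hb
        rw [al_apply_right hab, if_neg ha, if_pos rfl]
        push_cast
        ring
      · rw [al_apply_other ha hb, if_neg ha, if_neg hb]
        push_cast
        ring
  simp only [h2]
  rw [Finset.sum_add_distrib, Finset.sum_add_distrib, Finset.sum_ite_eq' Finset.univ a,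
    Finset.sum_ite_eq' Finset.univ b, if_pos (Finset.mem_univ _), if_pos (Finset.mem_univ _)]
  nlinarith

/-- A vector with distinct entries that is not increasing has an adjacent descent. -/
theorem HP_descent {δ : Fin l → ℝ} (hδ : Function.Injective δ) (h : ¬ StrictMono δ) :
    ∃ a b, Adj a b ∧ δ b < δ a := by
  by_contra hc
  push Not at hc
  refine h ?_
  have key : ∀ n : ℕ, ∀ a b : Fin l, (a : ℕ) + (n + 1) = b → δ a < δ b := by
    intro n
    induction n with
    | zero =>
      intro a b hab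
      have h1 : Adj a b := by
        unfold Adj
        omega
      exact lt_of_le_of_ne (hc a b h1) fun h2 => by
        have := hδ h2
        subst this
        omega
    | succ n ih =>
      intro a b hab
      have hc' : (a : ℕ) + 1 < l := by
        have := b.2
        omega
      have h1 := ih ⟨(a : ℕ) + 1, hc'⟩ b (by simp only; omega)
      have h2 : Adj a ⟨(a : ℕ) + 1, hc'⟩ := rfl
      exact lt_of_le_of_lt (hc _ _ h2) h1
  intro a b hab
  exact key ((b : ℕ) - a - 1) a b (by have : (a : ℕ) < b := hab; omega)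

/-- The main lemma, with an abstract predicate. -/
theorem HP_main (S : Subsemiring k) (q : k) (hq : q - 1 ∈ S)
    (Qp : (Fin l → ℝ) → (Fin l → ℝ) → Prop)
    (h1 : ∀ γ δ : Fin l → ℝ, Qp γ δ → ∀ a b, Adj a b → δ b < δ a →
      Qp (γ ∘ Equiv.swap a b) (δ ∘ Equiv.swap a b))
    (h2 : ∀ γ δ : Fin l → ℝ, Qp γ δ → ∀ a b, Adj a b → ∀ j : ℕ, 0 < j → (j : ℝ) < δ a - δ b →
      Qp γ (fun i => δ i - j * (al a b i : ℝ)))
    (h3 : ∀ (γ : Fin l → ℝ) (ν : Fin l → ℤ), Qp γ (sh γ ν) → ∀ i, 0 ≤ ν i) :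
    ∀ (γ : Fin l → ℝ) (ν : Fin l → ℤ), Gen γ → Qp γ (sh γ ν) → xp ν ∈ Zp S q γ := by
  have main : ∀ (n m : ℕ) (γ : Fin l → ℝ) (ν : Fin l → ℤ), HP_meas γ ν = n → ninv (sh γ ν) = m →
      Gen γ → Qp γ (sh γ ν) → (xp ν : LP k (Fin l)) ∈ Zp S q γ := by
    intro n
    induction n using Nat.strong_induction_on with
    | _ n ihn =>
    intro m
    induction m using Nat.strong_induction_on with
    | _ m ihm =>
    intro γ ν hn hm hγ hQ
    by_cases hmono : StrictMono (sh γ ν)
    · have := HP_gen_mem S q γ S.one_mem (h3 γ ν hQ)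
      rwa [B_mono q hmono, mul_one, one_smul] at this
    · obtain ⟨a, b, hab, hd⟩ := HP_descent (hγ.sh ν).injective hmono
      -- the swapped pair
      have hinv := ninv_swap hab hd
      have hsw : xp (ν ∘ Equiv.swap a b) ∈ Zp S q (γ ∘ Equiv.swap a b) := by
        refine ihm (ninv (sh γ ν ∘ Equiv.swap a b)) (by omega) _ _ ?_ rfl (hγ.comp _) ?_
        · rw [HP_meas_comp, hn]
        · have := h1 _ _ hQ a b hab hd
          rwa [sh_comp] at this
      have hR := R_Zp S q hq (hγ.comp (Equiv.swap a b)) hab hsw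
      rw [HP_comp_swap_swap, R_xp, HP_comp_swap_swap] at hR
      simp only [Function.comp_apply, Equiv.swap_apply_left, Equiv.swap_apply_right] at hR
      have hN : ⌈γ a - γ b⌉ + ν a - ν b = ⌈sh γ ν a - sh γ ν b⌉ := by
        have : sh γ ν a - sh γ ν b = γ a - γ b + ((ν a - ν b : ℤ) : ℝ) := by
          simp only [sh]
          push_cast
          ring
        rw [this, Int.ceil_add_intCast]
        ring
      rw [hN] at hR
      set N : ℤ := ⌈sh γ ν a - sh γ ν b⌉ with hNdef
      have hNpos : 0 < N := Int.ceil_pos.2 (sub_pos.2 hd)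
      unfold rr at hR
      rw [if_pos hNpos] at hR
      -- the remaining terms
      have hrest : ∀ j ∈ range (N - 1).toNat,
          (xp (ν + ((j : ℤ) + 1) • al b a) : LP k (Fin l)) ∈ Zp S q γ := by
        intro j hj
        have hjN : ((j : ℤ) + 1) < N := by
          have := Finset.mem_range.1 hj
          omega
        have hjδ : ((j + 1 : ℕ) : ℝ) < sh γ ν a - sh γ ν b := by
          have := Int.lt_ceil.1 hjN
          push_cast at this ⊢
          exact this
        have hshift : sh γ (ν + ((j : ℤ) + 1) • al b a) =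
            fun i => sh γ ν i - ((j + 1 : ℕ) : ℝ) * (al a b i : ℝ) := by
          funext i
          have : al b a i = -al a b i := by
            unfold al
            simp
          simp only [sh, Pi.add_apply, Pi.smul_apply, smul_eq_mul, this]
          push_cast
          ring
        have hlt : HP_meas γ (ν + ((j : ℤ) + 1) • al b a) < n := by
          rw [← hn]
          refine HP_meas_lt ?_
          rw [hshift]
          exact HP_nsq_move hab.ne _ (by positivity) hjδ
        refine ihn _ hlt _ γ _ rfl rfl hγ ?_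
        rw [hshift]
        exact h2 _ _ hQ a b hab (j + 1) (Nat.succ_pos _) hjδ
      have hsum : (q - 1) • ∑ j ∈ range (N - 1).toNat, (xp (ν + ((j : ℤ) + 1) • al b a) : LP k (Fin l)) ∈
          Zp S q γ := HP_smul_mem S q hq (AddSubmonoid.sum_mem _ hrest)
      have := (Zp S q γ).add_mem hR hsum
      have heq : xp ν * (1 + (1 - q) • ∑ j ∈ range (N - 1).toNat, xp (((j : ℤ) + 1) • al b a)) +
          (q - 1) • ∑ j ∈ range (N - 1).toNat, (xp (ν + ((j : ℤ) + 1) • al b a) : LP k (Fin l)) = xp ν := by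
        rw [mul_add, mul_one, mul_smul_comm, Finset.mul_sum]
        simp only [← xp_add]
        rw [add_assoc, ← add_smul]
        have : (1 - q + (q - 1) : k) = 0 := by ring
        rw [this, zero_smul, add_zero]
      rwa [heq] at this
  intro γ ν hγ hQ
  exact main _ _ γ ν rfl rfl hγ hQ

theorem xp_mem_Zp_mono (S : Subsemiring k) (q : k) (hq : q - 1 ∈ S) {γ : Fin l → ℝ} (hγ : Gen γ)
    (hmono : StrictMono γ) {ν : Fin l → ℤ} (hν : ∀ i, 0 ≤ ν i) : xp ν ∈ Zp S q γ := by
  refine HP_main S q hq (fun γ δ => ∀ p p', p ≤ p' → γ p ≤ δ p') ?_ ?_ ?_ γ ν hγ ?_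
  · intro γ δ hQ a b hab hd p p' hpp
    simp only [Function.comp_apply]
    by_cases h : Equiv.swap a b p ≤ Equiv.swap a b p'
    · exact hQ _ _ h
    · have hab' : (a : ℕ) + 1 = b := hab
      have hpa : p = a ∧ p' = b := by
        push Not at h
        by_contra hc
        have hp : p = a ∨ p = b ∨ (p ≠ a ∧ p ≠ b) := by tauto
        have hp' : p' = a ∨ p' = b ∨ (p' ≠ a ∧ p' ≠ b) := by tauto
        rcases hp with rfl | rfl | ⟨ha, hb⟩
        · rcases hp' with rfl | rfl | ⟨ha', hb'⟩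
          · exact lt_irrefl _ h
          · exact hc ⟨rfl, rfl⟩
          · rw [Equiv.swap_apply_left, Equiv.swap_apply_of_ne_of_ne ha' hb'] at h
            have h5 : (p' : ℕ) < b := h
            have h6 : (p : ℕ) ≤ p' := hpp
            have h7 : (p' : ℕ) ≠ p := fun h => ha' (Fin.ext h)
            omega
        · rcases hp' with rfl | rfl | ⟨ha', hb'⟩
          · have h6 : (p : ℕ) ≤ p' := hpp
            omega
          · exact lt_irrefl _ h
          · rw [Equiv.swap_apply_right, Equiv.swap_apply_of_ne_of_ne ha' hb'] at h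
            have h5 : (p' : ℕ) < a := h
            have h6 : (p : ℕ) ≤ p' := hpp
            omega
        · rcases hp' with rfl | rfl | ⟨ha', hb'⟩
          · rw [Equiv.swap_apply_left, Equiv.swap_apply_of_ne_of_ne ha hb] at h
            have h5 : (b : ℕ) < p := h
            have h6 : (p : ℕ) ≤ p' := hpp
            omega
          · rw [Equiv.swap_apply_right, Equiv.swap_apply_of_ne_of_ne ha hb] at h
            have h5 : (a : ℕ) < p := h
            have h6 : (p : ℕ) ≤ p' := hpp
            have h7 : (p : ℕ) ≠ p' := fun h => hb (Fin.ext h)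
            omega
          · rw [Equiv.swap_apply_of_ne_of_ne ha hb, Equiv.swap_apply_of_ne_of_ne ha' hb'] at h
            exact absurd hpp (not_le.2 h)
      obtain ⟨rfl, rfl⟩ := hpa
      rw [Equiv.swap_apply_left, Equiv.swap_apply_right]
      exact (hQ _ _ le_rfl).trans hd.le
  · intro γ δ hQ a b hab j hj hjd p p' hpp
    have hj0 : (0 : ℝ) < j := by exact_mod_cast hj
    show γ p ≤ δ p' - j * (al a b p' : ℝ)
    by_cases ha : p' = a
    · subst ha
      rw [al_apply_left hab.ne]
      have h4 : p ≤ b := hpp.trans hab.lt.le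
      have := hQ p b h4
      push_cast
      linarith
    · by_cases hb : p' = b
      · subst hb
        rw [al_apply_right hab.ne]
        have := hQ p p' hpp
        push_cast
        linarith
      · rw [al_apply_other ha hb]
        have := hQ p p' hpp
        push_cast
        linarith
  · intro γ ν hQ i
    have := hQ i i le_rfl
    simp only [sh] at this
    have h4 : (0 : ℝ) ≤ ν i := by linarith
    exact_mod_cast h4
  · intro p p' hpp
    have h4 := hmono.monotone hpp
    have h5 : (0 : ℝ) ≤ ν p' := by exact_mod_cast hν p'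
    simp only [sh]
    linarith

theorem xp_mem_Zp_window (S : Subsemiring k) (q : k) (hq : q - 1 ∈ S) {γ : Fin l → ℝ} (hγ : Gen γ)
    (hw : ∀ i j, γ i - γ j < 1) {ν : Fin l → ℤ} (hν : ∀ i, 0 ≤ ν i) : xp ν ∈ Zp S q γ := by
  obtain ⟨μ, hμ1, hμ2⟩ : ∃ μ : ℝ, (∀ i, γ i < μ + 1) ∧ (∀ i, μ ≤ γ i) := by
    rcases isEmpty_or_nonempty (Fin l) with h | h
    · exact ⟨0, fun i => h.elim i, fun i => h.elim i⟩
    · obtain ⟨j, hj⟩ := Finite.exists_min γ
      exact ⟨γ j, fun i => by have := hw i j; linarith, hj⟩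
  refine HP_main S q hq (fun γ δ => (∀ p, γ p < μ + 1) ∧ (∀ p, μ ≤ δ p)) ?_ ?_ ?_ γ ν hγ ?_
  · intro γ δ hQ a b hab hd
    exact ⟨fun p => hQ.1 _, fun p => hQ.2 _⟩
  · intro γ δ hQ a b hab j hj hjd
    refine ⟨hQ.1, fun p => ?_⟩
    have hj0 : (0 : ℝ) < j := by exact_mod_cast hj
    show μ ≤ δ p - j * (al a b p : ℝ)
    by_cases ha : p = a
    · subst ha
      rw [al_apply_left hab.ne]
      have := hQ.2 b
      push_cast
      linarith
    · by_cases hb : p = b
      · subst hb
        rw [al_apply_right hab.ne]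
        have := hQ.2 p
        push_cast
        linarith
      · rw [al_apply_other ha hb]
        have := hQ.2 p
        push_cast
        linarith
  · intro γ ν hQ i
    have h4 := hQ.1 i
    have h5 := hQ.2 i
    simp only [sh] at h5
    have h6 : (-1 : ℝ) < ν i := by linarith
    have h7 : (-1 : ℤ) < ν i := by exact_mod_cast h6
    omega
  · refine ⟨hμ1, fun p => ?_⟩
    have h5 : (0 : ℝ) ≤ ν p := by exact_mod_cast hν p
    have h6 := hμ2 p
    simp only [sh]
    linarith

theorem sym_mul_B_mem (S : Subsemiring k) (q : k) (hq : q - 1 ∈ S) {γ : Fin l → ℝ} (hγ : Gen γ)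
    {f : LP k (Fin l)}
    (hf : f ∈ AddSubmonoid.closure {f | ∃ c ∈ S, ∃ ν : Fin l → ℤ, (∀ i, 0 ≤ ν i) ∧ f = c • xp ν})
    (hsym : ∀ a b, Adj a b → pa (Equiv.swap a b) f = f) : f * B q γ ∈ Zp S q γ := by
  refine sort_induct (P := fun γ => f * B q γ ∈ Zp S q γ) ?_ ?_ hγ
  · intro γ hγ hmono
    rw [B_mono q hmono, mul_one]
    clear hsym
    induction hf using AddSubmonoid.closure_induction with
    | mem f hf =>
      obtain ⟨c, hc, ν, hν, rfl⟩ := hf
      exact HP_smul_mem S q hc (xp_mem_Zp_mono S q hq hγ hmono hν)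
    | zero => exact (Zp S q γ).zero_mem
    | add f g _ _ hf hg => exact (Zp S q γ).add_mem hf hg
  · intro γ hγ a b hab hlt hP
    have h1 := R_Zp S q hq hγ hab hP
    rw [R_symm_mul q hab.ne _ (hsym a b hab), ← B_swap q hγ.injective hab hlt] at h1
    exact h1

theorem Zp_repr (S : Subsemiring k) (q : k) {γ : Fin l → ℝ} {f : LP k (Fin l)} (hf : f ∈ Zp S q γ) :
    ∃ g : (Fin l → ℤ) →₀ k, (∀ κ, g κ ∈ S) ∧ (∀ κ, g κ ≠ 0 → ∀ i, 0 ≤ κ i) ∧
      f = ∑ κ ∈ g.support, g κ • (xp κ * B q (sh γ κ)) := by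
  classical
  have key : ∃ g : (Fin l → ℤ) →₀ k, (∀ κ, g κ ∈ S) ∧ (∀ κ, g κ ≠ 0 → ∀ i, 0 ≤ κ i) ∧
      f = g.sum fun κ c => c • (xp κ * B q (sh γ κ)) := by
    unfold Zp at hf
    induction hf using AddSubmonoid.closure_induction with
    | mem f hf =>
      obtain ⟨c, hc, κ, hκ, rfl⟩ := hf
      refine ⟨Finsupp.single κ c, fun κ' => ?_, fun κ' h => ?_, ?_⟩
      · rw [Finsupp.single_apply]
        split_ifs
        · exact hc
        · exact S.zero_mem
      · rw [Finsupp.single_apply] at h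
        by_cases hk : κ = κ'
        · subst hk
          exact hκ
        · rw [if_neg hk] at h
          exact absurd rfl h
      · rw [Finsupp.sum_single_index]
        exact zero_smul _ _
    | zero =>
      exact ⟨0, fun κ => S.zero_mem, fun κ h => absurd rfl h, by rw [Finsupp.sum_zero_index]⟩
    | add f g _ _ hf hg =>
      obtain ⟨g1, h11, h12, h13⟩ := hf
      obtain ⟨g2, h21, h22, h23⟩ := hg
      refine ⟨g1 + g2, fun κ => ?_, fun κ h => ?_, ?_⟩
      · rw [Finsupp.add_apply]
        exact S.add_mem (h11 κ) (h21 κ)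
      · by_cases h1 : g1 κ = 0
        · refine h22 κ fun h2 => h ?_
          rw [Finsupp.add_apply, h1, h2, add_zero]
        · exact h12 κ h1
      · rw [Finsupp.sum_add_index', ← h13, ← h23]
        · exact fun κ => zero_smul _ _
        · exact fun κ c d => add_smul c d _
  exact key

end

end Pool.Agent.Helper95.SH
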