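import Pool.Agent.Helper95.SH.CR
import Pool.Agent.Helper95.SH.CD
import Pool.Agent.Helper95.SH.HP

namespace Pool.Agent.Helper95.SH

open Finset

section
variable {k : Type*} [CommRing k] {l : ℕ}

/-! ## C4 (file CC.lean): the Cauchy identity (uses H4, H5, C1, C2, C3) -/

theorem CC_sup_mul {f g : LP k (Fin l)} (hf : f ∈ Sup {ν : Fin l → ℤ | ∀ i, ν i ≤ 0})
    (hg : g ∈ Sup {ν : Fin l → ℤ | ∀ i, ν i ≤ 0}) :
    f * g ∈ Sup {ν : Fin l → ℤ | ∀ i, ν i ≤ 0} := by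
  refine mul_mem_Sup hf hg fun x hx y hy i => ?_
  have h1 := hx i
  have h2 := hy i
  rw [Pi.add_apply]
  omega

theorem CC_one_mem : (1 : LP k (Fin l)) ∈ Sup {ν : Fin l → ℤ | ∀ i, ν i ≤ 0} :=
  one_mem_Sup fun _ => le_rfl

theorem CC_zi_mem (i : Fin l) : (zi i : LP k (Fin l)) ∈ Sup {ν : Fin l → ℤ | ∀ i, ν i ≤ 0} := by
  refine xp_mem_Sup fun j => ?_
  rw [Pi.neg_apply, Pi.single_apply]
  split_ifs <;> simp

theorem CC_pow_mem {f : LP k (Fin l)} (hf : f ∈ Sup {ν : Fin l → ℤ | ∀ i, ν i ≤ 0}) (n : ℕ) :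
    f ^ n ∈ Sup {ν : Fin l → ℤ | ∀ i, ν i ≤ 0} := by
  induction n with
  | zero => rw [pow_zero]; exact CC_one_mem
  | succ n ih => rw [pow_succ]; exact CC_sup_mul ih hf

theorem CC_inv_mem {c : k} (hc : IsNilpotent c) (i : Fin l) :
    Ring.inverse (1 - c • zi i : LP k (Fin l)) ∈ Sup {ν : Fin l → ℤ | ∀ i, ν i ≤ 0} := by
  obtain ⟨n, hn⟩ := hc
  have h1 : (1 - c • zi i : LP k (Fin l)) * ∑ p ∈ range n, (c • zi i : LP k (Fin l)) ^ p = 1 := by
    rw [mul_neg_geom_sum, smul_pow, hn, zero_smul, sub_zero]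
  have h2 : Ring.inverse (1 - c • zi i : LP k (Fin l)) =
      ∑ p ∈ range n, (c • zi i : LP k (Fin l)) ^ p := by
    have hu : IsUnit (1 - c • zi i : LP k (Fin l)) := IsUnit.of_mul_eq_one _ h1
    calc Ring.inverse (1 - c • zi i : LP k (Fin l)) =
        Ring.inverse (1 - c • zi i : LP k (Fin l)) *
          ((1 - c • zi i : LP k (Fin l)) * ∑ p ∈ range n, (c • zi i : LP k (Fin l)) ^ p) := by
          rw [h1, mul_one]
      _ = _ := by rw [← mul_assoc, Ring.inverse_mul_cancel _ hu, one_mul]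
  rw [h2]
  exact Submodule.sum_mem _ fun p _ => CC_pow_mem (Submodule.smul_mem _ _ (CC_zi_mem i)) p

theorem CC_KK_mem (q : k) {y : Fin l → k} (hy : ∀ i, IsNilpotent (y i)) :
    KK q y ∈ Sup {ν : Fin l → ℤ | ∀ i, ν i ≤ 0} := by
  unfold KK
  refine CC_sup_mul ?_ ?_
  · refine Finset.prod_induction _ (fun f => f ∈ Sup {ν : Fin l → ℤ | ∀ i, ν i ≤ 0})
      (fun a b => CC_sup_mul) CC_one_mem fun p _ => ?_
    exact Submodule.sub_mem _ CC_one_mem (Submodule.smul_mem _ _ (CC_zi_mem _))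
  · refine Finset.prod_induction _ (fun f => f ∈ Sup {ν : Fin l → ℤ | ∀ i, ν i ≤ 0})
      (fun a b => CC_sup_mul) CC_one_mem fun p _ => ?_
    exact CC_inv_mem (hy _) _

theorem CC_dual {q : k} (hq : IsNilpotent q) {c : Fin l → ℝ} (hc : Gen c) (κ a : Fin l → ℤ) :
    CT ((xp κ * B q (sh c κ)) * (xp (-a) * B q (fun i => -(sh c a i))) * W q) =
      if κ = a then 1 else 0 := by
  have h := duality hq (hc.sh a) (κ - a)
  have e1 : sh (sh c a) (κ - a) = sh c κ := by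
    funext i
    simp only [sh, Pi.sub_apply]
    push_cast
    ring
  rw [e1] at h
  simp only [sub_eq_zero] at h
  rw [← h]
  congr 1
  rw [sub_eq_add_neg, xp_add]
  ring

theorem CC_evn_zero {y : Fin l → k} {N : ℕ}
    (hN : ∀ ν : Fin l → ℕ, N ≤ ∑ i, ν i → ∏ i, y i ^ ν i = 0) {f : LP k (Fin l)}
    (hf : f ∈ Sup {ν : Fin l → ℤ | (N : ℤ) ≤ ∑ i, ν i}) : evn y f = 0 := by
  refine Sup_induct (P := fun f => evn y f = 0) (map_zero _) ?_ ?_ hf
  · intro f g h1 h2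
    rw [map_add, h1, h2, add_zero]
  · intro c ν hν
    have hν' : (N : ℤ) ≤ ∑ i, ν i := hν
    rw [map_smul]
    unfold evn
    rw [mkLin_xp]
    split_ifs with h
    · rw [hN (fun i => (ν i).toNat), smul_zero]
      have h3 : ((∑ i, (ν i).toNat : ℕ) : ℤ) = ∑ i, ν i := by
        rw [Nat.cast_sum]
        exact Finset.sum_congr rfl fun i _ => Int.toNat_of_nonneg (h i)
      rw [← h3] at hν'
      exact_mod_cast hν'
    · rw [smul_zero]

theorem CC_evn_zero' (q : k) {y : Fin l → k} {c : Fin l → ℝ} (hc : Gen c) {N : ℕ}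
    (hN : ∀ ν : Fin l → ℕ, N ≤ ∑ i, ν i → ∏ i, y i ^ ν i = 0) {κ : Fin l → ℤ}
    (hκ : (N : ℤ) ≤ ∑ i, κ i) : evn y (xp κ * B q (sh c κ)) = 0 := by
  refine CC_evn_zero hN (mul_mem_Sup (X := {ν | ν = κ}) (xp_mem_Sup rfl) (B_sum q (hc.sh κ)) ?_)
  rintro x rfl z hz
  have hz' : ∑ i, z i = 0 := hz
  show (N : ℤ) ≤ ∑ i, (x + z) i
  simp only [Pi.add_apply]
  rw [Finset.sum_add_distrib, hz', add_zero]
  exact hκ

theorem CC_step1 {q : k} (hq : IsNilpotent q) {y : Fin l → k} {c : Fin l → ℝ} (hc : Gen c)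
    (hw : ∀ i j, c i - c j < 1) {N : ℕ}
    (hN : ∀ ν : Fin l → ℕ, N ≤ ∑ i, ν i → ∏ i, y i ^ ν i = 0) (ν : Fin l → ℕ) :
    CT (xp (fun i => (ν i : ℤ)) * (∑ a ∈ Fintype.piFinset fun _ : Fin l => range N,
      evn y (xp (fun i => (a i : ℤ)) * B q (sh c fun i => (a i : ℤ))) •
        (xp (-(fun i => (a i : ℤ))) * B q (fun i => -(sh c (fun i => (a i : ℤ)) i)))) * W q) =
      ∏ i, y i ^ ν i := by
  classical
  obtain ⟨g, -, hg0, hg⟩ := Zp_repr ⊤ q (xp_mem_Zp_window (k := k) ⊤ q (Subsemiring.mem_top _) hc hw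
    (ν := fun i => (ν i : ℤ)) fun i => Int.natCast_nonneg _)
  have hS : ∀ a : Fin l → ℤ, CT (xp (fun i => (ν i : ℤ)) *
      (xp (-a) * B q (fun i => -(sh c a i))) * W q) = g a := by
    intro a
    rw [hg, Finset.sum_mul, Finset.sum_mul, map_sum]
    have : ∀ κ ∈ g.support, CT (g κ • (xp κ * B q (sh c κ)) *
        (xp (-a) * B q (fun i => -(sh c a i))) * W q) = if κ = a then g κ else 0 := by
      intro κ _
      rw [smul_mul_assoc, smul_mul_assoc, map_smul, CC_dual hq hc, smul_eq_mul, mul_ite, mul_one,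
        mul_zero]
    rw [Finset.sum_congr rfl this, Finset.sum_ite_eq' g.support a fun κ => g κ]
    split_ifs with h
    · rfl
    · exact (Finsupp.notMem_support_iff.1 h).symm
  have hE : ∏ i, y i ^ ν i = ∑ κ ∈ g.support, g κ * evn y (xp κ * B q (sh c κ)) := by
    have e1 : evn y (xp (fun i => (ν i : ℤ))) = ∏ i, y i ^ ν i := by
      unfold evn
      rw [mkLin_xp, if_pos fun i => Int.natCast_nonneg _]
      simp
    rw [← e1, hg, map_sum]
    refine Finset.sum_congr rfl fun κ _ => ?_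
    rw [map_smul, smul_eq_mul]
  rw [hE, Finset.mul_sum, Finset.sum_mul, map_sum]
  have h1 : ∀ a ∈ Fintype.piFinset fun _ : Fin l => range N,
      CT (xp (fun i => (ν i : ℤ)) *
        (evn y (xp (fun i => (a i : ℤ)) * B q (sh c fun i => (a i : ℤ))) •
        (xp (-(fun i => (a i : ℤ))) * B q (fun i => -(sh c (fun i => (a i : ℤ)) i)))) * W q) =
      (fun κ : Fin l → ℤ => g κ * evn y (xp κ * B q (sh c κ))) (fun i => (a i : ℤ)) := by
    intro a _
    rw [mul_smul_comm, smul_mul_assoc, map_smul, hS (fun i => (a i : ℤ)), smul_eq_mul, mul_comm]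
  rw [Finset.sum_congr rfl h1]
  let emb : (Fin l → ℕ) ↪ (Fin l → ℤ) := ⟨fun a i => (a i : ℤ), fun a b h => by
    funext i
    have h5 : ((a i : ℕ) : ℤ) = ((b i : ℕ) : ℤ) := congrFun h i
    exact_mod_cast h5⟩
  have h2 : ∑ a ∈ Fintype.piFinset fun _ : Fin l => range N,
      (fun κ : Fin l → ℤ => g κ * evn y (xp κ * B q (sh c κ))) (fun i => (a i : ℤ)) =
      ∑ κ ∈ (Fintype.piFinset fun _ : Fin l => range N).map emb,
        g κ * evn y (xp κ * B q (sh c κ)) := by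
    rw [Finset.sum_map]
    rfl
  rw [h2]
  have h3 : ∑ κ ∈ g.support, g κ * evn y (xp κ * B q (sh c κ)) =
      ∑ κ ∈ g.support ∪ (Fintype.piFinset fun _ : Fin l => range N).map emb,
        g κ * evn y (xp κ * B q (sh c κ)) := by
    refine Finset.sum_subset Finset.subset_union_left fun κ _ hκ => ?_
    rw [Finsupp.notMem_support_iff.1 hκ, zero_mul]
  have h4 : ∑ κ ∈ (Fintype.piFinset fun _ : Fin l => range N).map emb,
      g κ * evn y (xp κ * B q (sh c κ)) =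
      ∑ κ ∈ g.support ∪ (Fintype.piFinset fun _ : Fin l => range N).map emb,
        g κ * evn y (xp κ * B q (sh c κ)) := by
    refine Finset.sum_subset Finset.subset_union_right fun κ _ hκ => ?_
    by_cases hz : g κ = 0
    · rw [hz, zero_mul]
    have hpos := hg0 κ hz
    have : (N : ℤ) ≤ ∑ i, κ i := by
      by_contra hlt
      apply hκ
      rw [Finset.mem_map]
      refine ⟨fun i => (κ i).toNat, ?_, ?_⟩
      · rw [Fintype.mem_piFinset]
        intro i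
        rw [Finset.mem_range]
        have h5 : κ i ≤ ∑ j, κ j := Finset.single_le_sum (fun j _ => hpos j) (Finset.mem_univ i)
        have := hpos i
        omega
      · funext i
        exact Int.toNat_of_nonneg (hpos i)
    rw [CC_evn_zero' q hc hN this, mul_zero]
  rw [h3, h4]

theorem CC_step2 {q : k} (hq : IsNilpotent q) {Δ : LP k (Fin l)}
    (hΔ : Δ ∈ Sup {ν : Fin l → ℤ | ∀ i, ν i ≤ 0})
    (h : ∀ ν : Fin l → ℕ, CT (xp (fun i => (ν i : ℤ)) * Δ * W q) = 0) : Δ = 0 := by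
  by_contra hne
  have hs : Δ.coeff.support.Nonempty := by
    rw [Finset.nonempty_iff_ne_empty]
    intro he
    apply hne
    rw [LP.eq_sum Δ, he, Finset.sum_empty]
  obtain ⟨μ, hμ, hmax⟩ := Finset.exists_max_image Δ.coeff.support
    (fun ν => ∑ i : Fin l, (-((i : ℕ) : ℝ)) * (ν i : ℝ)) hs
  have hμ' : co μ Δ ≠ 0 := Finsupp.mem_support_iff.1 hμ
  have h1 := h (fun i => (-(μ i)).toNat)
  have e : (fun i => (((-(μ i)).toNat : ℕ) : ℤ)) = -μ := by
    funext i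
    have h0 : μ i ≤ 0 := hΔ μ hμ' i
    rw [Pi.neg_apply]
    omega
  rw [e] at h1
  have h2 : co μ (Δ * W q) = 0 := by
    rw [mul_assoc] at h1
    unfold CT at h1
    rw [co_xp_mul, zero_sub, neg_neg] at h1
    exact h1
  have h3 : Δ * W q = Δ + Δ * (W q - 1) := by ring
  rw [h3, map_add] at h2
  have hρ : StrictAnti fun i : Fin l => -((i : ℕ) : ℝ) := by
    intro i j hij
    have : ((i : ℕ) : ℝ) < ((j : ℕ) : ℝ) := by exact_mod_cast hij
    simpa using this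
  have h4 : co μ (Δ * (W q - 1)) = 0 := by
    by_contra hne
    obtain ⟨κ, η, hκη, h5, h6⟩ := exists_of_co_mul_ne hne
    have h7 := (W_supp hq hρ η h6).2
    have h8 := hmax κ (Finsupp.mem_support_iff.2 h5)
    have h9 : ∑ i : Fin l, (-((i : ℕ) : ℝ)) * (μ i : ℝ) = ∑ i : Fin l, (-((i : ℕ) : ℝ)) * (κ i : ℝ) +
        ∑ i : Fin l, (-((i : ℕ) : ℝ)) * (η i : ℝ) := by
      rw [← Finset.sum_add_distrib]
      refine Finset.sum_congr rfl fun i _ => ?_
      rw [← hκη, Pi.add_apply]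
      push_cast
      ring
    have h8' : ∑ i : Fin l, (-((i : ℕ) : ℝ)) * (κ i : ℝ) ≤ ∑ i : Fin l, (-((i : ℕ) : ℝ)) * (μ i : ℝ) := h8
    rw [h9] at h8'
    linarith
  rw [h4, add_zero] at h2
  exact hμ' h2

theorem cauchy {q : k} (hq : IsNilpotent q) {y : Fin l → k} (hy : ∀ i, IsNilpotent (y i))
    {c : Fin l → ℝ} (hc : Gen c) (hw : ∀ i j, c i - c j < 1) {N : ℕ}
    (hN : ∀ ν : Fin l → ℕ, N ≤ ∑ i, ν i → ∏ i, y i ^ ν i = 0) :
    KK q y = ∑ a ∈ Fintype.piFinset fun _ : Fin l => range N,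
      evn y (xp (fun i => (a i : ℤ)) * B q (sh c fun i => (a i : ℤ))) •
        (xp (-(fun i => (a i : ℤ))) * B q (fun i => -(sh c (fun i => (a i : ℤ)) i))) := by
  rw [← sub_eq_zero]
  refine CC_step2 hq (Submodule.sub_mem _ (CC_KK_mem q hy) (Submodule.sum_mem _ fun a _ =>
    Submodule.smul_mem _ _ (B_nonpos q hc hw fun i => Int.natCast_nonneg _))) fun ν => ?_
  rw [mul_sub, sub_mul, map_sub, repro hq hy ν, CC_step1 hq hc hw hN ν, sub_self]

end

end Pool.Agent.Helper95.SH
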