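import Pool.Agent.Helper95.SH.CW

namespace Pool.Agent.Helper95.SH

open Finset

section
variable {k : Type*} [CommRing k] {l : ℕ}

/-! ## C3 (file CR.lean): the reproducing kernel (uses C1) -/

/-- Exponents of the embedding `x_i ↦ x_i`. -/
def CRe (m : ℕ) : (Fin m → ℤ) →+ (Fin (m + 1) → ℤ) where
  toFun ν := Fin.snoc ν 0
  map_zero' := by funext i; refine Fin.lastCases (by simp) (fun _ => by simp) i
  map_add' ν μ := by funext i; refine Fin.lastCases (by simp) (fun _ => by simp) i

theorem CRe_castSucc (m : ℕ) (ν : Fin m → ℤ) (i : Fin m) : CRe m ν i.castSucc = ν i :=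
  Fin.snoc_castSucc (α := fun _ => ℤ) _ _ _

theorem CRe_last (m : ℕ) (ν : Fin m → ℤ) : CRe m ν (Fin.last m) = 0 :=
  Fin.snoc_last (α := fun _ => ℤ) _ _

/-- The last variable. -/
noncomputable def CRz (k : Type*) [CommRing k] (m : ℕ) : LP k (Fin (m + 1)) :=
  xp (Pi.single (Fin.last m) 1)

/-- The embedding of the Laurent polynomials in one variable less. -/
noncomputable def CRem (k : Type*) [CommRing k] (m : ℕ) : LP k (Fin m) →ₐ[k] LP k (Fin (m + 1)) :=
  mE (CRe m)

theorem CRem_xp (m : ℕ) (ν : Fin m → ℤ) : CRem k m (xp ν) = xp (CRe m ν) := mE_xp _ _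

theorem CR_zi_castSucc (m : ℕ) (i : Fin m) :
    (zi i.castSucc : LP k (Fin (m + 1))) = CRem k m (zi i) := by
  unfold zi
  rw [CRem_xp]
  congr 1
  funext j
  refine Fin.lastCases ?_ (fun j => ?_) j
  · rw [CRe_last]
    simp [(Fin.castSucc_lt_last i).ne']
  · rw [CRe_castSucc]
    simp [Pi.single_apply]

theorem CR_uu_castSucc (m : ℕ) (i j : Fin m) :
    (uu i.castSucc j.castSucc : LP k (Fin (m + 1))) = CRem k m (uu i j) := by
  unfold uu al
  rw [CRem_xp]
  congr 1
  funext n
  refine Fin.lastCases ?_ (fun n => ?_) n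
  · rw [CRe_last]
    simp [(Fin.castSucc_lt_last i).ne', (Fin.castSucc_lt_last j).ne']
  · rw [CRe_castSucc]
    simp [Pi.single_apply]

theorem CR_uu_last (m : ℕ) (i : Fin m) :
    (uu i.castSucc (Fin.last m) : LP k (Fin (m + 1))) = CRem k m (zi i) * CRz k m := by
  rw [← CR_zi_castSucc]
  unfold uu al zi CRz
  rw [← xp_add]
  congr 1
  abel

theorem CR_CT (m : ℕ) (ν : Fin m → ℤ) (n p : ℕ) :
    CT (CRem k m (xp ν) * CRz k m ^ n * (zi (Fin.last m)) ^ p) =
      if n = p then CT (xp ν : LP k (Fin m)) else 0 := by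
  classical
  rw [CRem_xp]
  unfold CRz zi
  rw [← xp_nsmul, ← xp_nsmul, ← xp_add, ← xp_add, CT_xp, CT_xp]
  by_cases h : n = p
  · rw [if_pos h]
    congr 1
    rw [eq_iff_iff]
    constructor
    · intro h1
      funext i
      have := congrFun h1 i.castSucc
      simpa [CRe_castSucc, Pi.single_apply, (Fin.castSucc_lt_last i).ne] using this
    · rintro rfl
      subst h
      rw [map_zero]
      simp
  · rw [if_neg h, if_neg]
    intro h1
    have := congrFun h1 (Fin.last m)
    simp [CRe_last] at this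
    omega

/-- Polynomials in the last variable. -/
noncomputable def CRf (k : Type*) [CommRing k] (m : ℕ) :
    Polynomial (LP k (Fin m)) →+* LP k (Fin (m + 1)) :=
  Polynomial.eval₂RingHom (CRem k m : LP k (Fin m) →+* LP k (Fin (m + 1))) (CRz k m)

theorem CRf_C (m : ℕ) (a : LP k (Fin m)) : CRf k m (Polynomial.C a) = CRem k m a := by
  unfold CRf
  simp

theorem CRf_X (m : ℕ) : CRf k m Polynomial.X = CRz k m := by
  unfold CRf
  simp

theorem CR_inv {c : k} {N : ℕ} (hc : c ^ N = 0) {ι : Type*} (f : LP k ι) :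
    Ring.inverse (1 - c • f) = ∑ p ∈ range N, c ^ p • f ^ p := by
  have h : (1 - c • f) * ∑ p ∈ range N, c ^ p • f ^ p = 1 := by
    have h1 := mul_neg_geom_sum (c • f) N
    rw [smul_pow, hc, zero_smul, sub_zero] at h1
    simpa only [smul_pow] using h1
  have hu : IsUnit (1 - c • f) := IsUnit.of_mul_eq_one _ h
  calc Ring.inverse (1 - c • f) = Ring.inverse (1 - c • f) *
        ((1 - c • f) * ∑ p ∈ range N, c ^ p • f ^ p) := by rw [h, mul_one]
    _ = _ := by rw [← mul_assoc, Ring.inverse_mul_cancel _ hu, one_mul]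

theorem CR_key {c : k} (hc : IsNilpotent c) (m : ℕ) (P : Polynomial (LP k (Fin m))) :
    CT (CRf k m P * Ring.inverse (1 - c • zi (Fin.last m))) =
      CT (P.eval (algebraMap k (LP k (Fin m)) c)) := by
  obtain ⟨N, hN⟩ := hc
  rw [CR_inv hN]
  induction P using Polynomial.induction_on' with
  | add P Q hP hQ => rw [map_add, add_mul, map_add, hP, hQ, Polynomial.eval_add, map_add]
  | monomial n a =>
    refine LP.induct (P := fun a => CT (CRf k m (Polynomial.monomial n a) *
      ∑ p ∈ range N, c ^ p • (zi (Fin.last m)) ^ p) =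
      CT ((Polynomial.monomial n a).eval (algebraMap k (LP k (Fin m)) c))) ?_ ?_ ?_ a
    · simp
    · intro f g hf hg
      rw [map_add, map_add, add_mul, map_add, hf, hg, Polynomial.eval_add, map_add]
    · intro d ν
      have h2 : CT ((Polynomial.monomial n (d • (xp ν : LP k (Fin m)))).eval
          (algebraMap k (LP k (Fin m)) c)) = c ^ n * (d * CT (xp ν : LP k (Fin m))) := by
        rw [Polynomial.eval_monomial, ← map_pow, ← Algebra.commutes, ← Algebra.smul_def,
          (CT (k := k) (ι := Fin m)).map_smul, (CT (k := k) (ι := Fin m)).map_smul, smul_eq_mul,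
          smul_eq_mul]
      rw [h2, ← Polynomial.C_mul_X_pow_eq_monomial, (CRf k m).map_mul, CRf_C, (CRf k m).map_pow,
        CRf_X, map_smul (CRem k m), Finset.mul_sum, map_sum]
      have h1 : ∀ p ∈ range N, CT (d • CRem k m (xp ν) * CRz k m ^ n *
          c ^ p • (zi (Fin.last m) : LP k (Fin (m + 1))) ^ p) =
          if p = n then c ^ n * (d * CT (xp ν : LP k (Fin m))) else 0 := by
        intro p _
        rw [smul_mul_assoc, smul_mul_assoc, mul_smul_comm, map_smul, map_smul, CR_CT,
          smul_eq_mul, smul_eq_mul]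
        by_cases h : n = p
        · subst h
          rw [if_pos rfl, if_pos rfl]
          ring
        · rw [if_neg h, if_neg (Ne.symm h)]
          ring
      rw [Finset.sum_congr rfl h1, Finset.sum_ite_eq']
      split_ifs with h
      · rfl
      · rw [Finset.mem_range, not_lt] at h
        rw [pow_eq_zero_of_le h hN, zero_mul]

theorem CR_prod_lt {M : Type*} [CommMonoid M] (f : Fin (l + 1) → Fin (l + 1) → M) :
    ∏ p ∈ univ.filter (fun p : Fin (l + 1) × Fin (l + 1) => p.1 < p.2), f p.1 p.2 =
      (∏ p ∈ univ.filter (fun p : Fin l × Fin l => p.1 < p.2), f p.1.castSucc p.2.castSucc) *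
        ∏ i : Fin l, f i.castSucc (Fin.last l) := by
  rw [Finset.prod_filter, Finset.prod_filter, Fintype.prod_prod_type, Fintype.prod_prod_type,
    Fin.prod_univ_castSucc]
  have h1 : ∏ j : Fin (l + 1), (if Fin.last l < j then f (Fin.last l) j else 1) = 1 := by
    refine Finset.prod_eq_one fun j _ => ?_
    rw [if_neg]
    exact not_lt.2 (Fin.le_last j)
  rw [h1, mul_one, ← Finset.prod_mul_distrib]
  refine Finset.prod_congr rfl fun i _ => ?_
  rw [Fin.prod_univ_castSucc, if_pos (Fin.castSucc_lt_last i)]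
  simp only [Fin.castSucc_lt_castSucc_iff]

theorem CR_prod_le {M : Type*} [CommMonoid M] (f : Fin (l + 1) → Fin (l + 1) → M) :
    ∏ p ∈ univ.filter (fun p : Fin (l + 1) × Fin (l + 1) => p.1 ≤ p.2), f p.1 p.2 =
      (∏ p ∈ univ.filter (fun p : Fin l × Fin l => p.1 ≤ p.2), f p.1.castSucc p.2.castSucc) *
        (∏ i : Fin l, f i.castSucc (Fin.last l)) * f (Fin.last l) (Fin.last l) := by
  rw [Finset.prod_filter, Finset.prod_filter, Fintype.prod_prod_type, Fintype.prod_prod_type,
    Fin.prod_univ_castSucc]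
  have h1 : ∏ j : Fin (l + 1), (if Fin.last l ≤ j then f (Fin.last l) j else 1) =
      f (Fin.last l) (Fin.last l) := by
    rw [Fin.prod_univ_castSucc, if_pos le_rfl, Finset.prod_eq_one, one_mul]
    intro j _
    rw [if_neg]
    exact not_le.2 (Fin.castSucc_lt_last j)
  rw [h1, ← Finset.prod_mul_distrib]
  congr 1
  refine Finset.prod_congr rfl fun i _ => ?_
  rw [Fin.prod_univ_castSucc, if_pos (Fin.le_last _)]
  simp only [Fin.castSucc_le_castSucc_iff]

theorem CR_map_inverse {R S : Type*} [CommRing R] [CommRing S] (φ : R →+* S) {a : R}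
    (ha : IsUnit a) : φ (Ring.inverse a) = Ring.inverse (φ a) := by
  have h : φ a * φ (Ring.inverse a) = 1 := by
    rw [← map_mul, Ring.mul_inverse_cancel _ ha, map_one]
  calc φ (Ring.inverse a) = (Ring.inverse (φ a) * φ a) * φ (Ring.inverse a) := by
        rw [Ring.inverse_mul_cancel _ (ha.map φ), one_mul]
    _ = _ := by rw [mul_assoc, h, mul_one]

theorem CR_inv_em {c : k} (hc : IsNilpotent c) (m : ℕ) (f : LP k (Fin m)) :
    Ring.inverse (1 - c • CRem k m f) = CRem k m (Ring.inverse (1 - c • f)) := by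
  have := CR_map_inverse (CRem k m : LP k (Fin m) →+* LP k (Fin (m + 1)))
    (isUnit_one_sub hc f)
  simp only [RingHom.coe_coe, map_sub, map_one, map_smul] at this
  exact this.symm

theorem CR_KK {q : k} {y : Fin (l + 1) → k} (hy : ∀ i, IsNilpotent (y i)) :
    KK q y = CRem k l (KK q (fun i : Fin l => y i.castSucc) *
      (∏ i : Fin l, (1 - (q * y (Fin.last l)) • zi i)) *
      ∏ i : Fin l, Ring.inverse (1 - y (Fin.last l) • zi i)) *
      Ring.inverse (1 - y (Fin.last l) • zi (Fin.last l)) := by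
  unfold KK
  rw [CR_prod_lt (fun a b => (1 - (q * y b) • (zi a : LP k (Fin (l + 1))))),
    CR_prod_le (fun a b => Ring.inverse (1 - y b • (zi a : LP k (Fin (l + 1)))))]
  simp only [CR_zi_castSucc]
  simp only [CR_inv_em (hy _)]
  simp only [map_mul, map_prod, map_sub, map_one, map_smul]
  ring

theorem CR_W {q : k} (hq : IsNilpotent q) : (W q : LP k (Fin (l + 1))) =
    CRf k l (Polynomial.C (W q) * ∏ i : Fin l, (1 - Polynomial.C (zi i) * Polynomial.X) *
      Ring.inverse (1 - Polynomial.C (q • zi i) * Polynomial.X)) := by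
  have hu : ∀ i : Fin l, IsUnit (1 - Polynomial.C (q • (zi i : LP k (Fin l))) * Polynomial.X) := by
    intro i
    obtain ⟨N, hN⟩ := hq
    refine IsNilpotent.isUnit_one_sub ⟨N, ?_⟩
    rw [mul_pow, ← map_pow, smul_pow, hN, zero_smul, map_zero, zero_mul]
  unfold W
  rw [CR_prod_lt (fun a b => (om q a b : LP k (Fin (l + 1)))), map_mul, CRf_C, map_prod, map_prod]
  congr 1
  · refine Finset.prod_congr rfl fun p _ => ?_
    unfold om iv
    rw [CR_uu_castSucc, CR_inv_em hq, map_mul, map_sub, map_one]
  · refine Finset.prod_congr rfl fun i _ => ?_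
    unfold om iv
    rw [map_mul, CR_map_inverse _ (hu i)]
    simp only [map_mul, map_sub, map_one, CRf_C, CRf_X, CR_uu_last, map_smul, smul_mul_assoc]

theorem repro {q : k} (hq : IsNilpotent q) {y : Fin l → k} (hy : ∀ i, IsNilpotent (y i))
    (ν : Fin l → ℕ) : CT (xp (fun i => (ν i : ℤ)) * KK q y * W q) = ∏ i, y i ^ ν i := by
  induction l with
  | zero =>
    unfold KK W
    have h0 : (fun i => (ν i : ℤ)) = 0 := Subsingleton.elim _ _
    rw [h0, xp_zero]
    simp [CT_one]
  | succ l ih =>
    have hyl := hy (Fin.last l)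
    set w := y (Fin.last l) with hw
    have hqw : IsNilpotent (q * w) := (Commute.all q w).isNilpotent_mul_left hyl
    have hx : (xp (fun i => (ν i : ℤ)) : LP k (Fin (l + 1))) =
        CRem k l (xp fun i => (ν i.castSucc : ℤ)) * CRz k l ^ ν (Fin.last l) := by
      rw [CRem_xp]
      unfold CRz
      rw [← xp_nsmul, ← xp_add]
      congr 1
      funext i
      refine Fin.lastCases ?_ (fun i => ?_) i
      · simp [CRe_last]
      · simp [CRe_castSucc, (Fin.castSucc_lt_last i).ne]
    have hu : ∀ i : Fin l, IsUnit (1 - Polynomial.C (q • (zi i : LP k (Fin l))) *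
        Polynomial.X) := by
      intro i
      obtain ⟨N, hN⟩ := hq
      refine IsNilpotent.isUnit_one_sub ⟨N, ?_⟩
      rw [mul_pow, ← map_pow, smul_pow, hN, zero_smul, map_zero, zero_mul]
    rw [hx, CR_KK hy, CR_W hq, ← hw]
    set A := KK q (fun i : Fin l => y i.castSucc) *
      (∏ i : Fin l, (1 - (q * w) • zi i)) *
      ∏ i : Fin l, Ring.inverse (1 - w • zi i) with hA
    set D := Polynomial.C (W q : LP k (Fin l)) *
      ∏ i : Fin l, (1 - Polynomial.C (zi i) * Polynomial.X) *
      Ring.inverse (1 - Polynomial.C (q • zi i) * Polynomial.X) with hD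
    clear_value A D
    have h1 : CRem k l (xp fun i => (ν i.castSucc : ℤ)) * CRz k l ^ ν (Fin.last l) *
        (CRem k l A * Ring.inverse (1 - w • zi (Fin.last l))) * CRf k l D =
        CRf k l (Polynomial.C (xp (fun i => (ν i.castSucc : ℤ)) * A) *
          Polynomial.X ^ ν (Fin.last l) * D) * Ring.inverse (1 - w • zi (Fin.last l)) := by
      rw [(CRf k l).map_mul, (CRf k l).map_mul, (CRf k l).map_pow, CRf_C, CRf_X,
        map_mul (CRem k l) _ A]
      ring
    rw [h1, CR_key hyl]
    have h2 : (algebraMap k (LP k (Fin l)) w) = w • 1 := Algebra.algebraMap_eq_smul_one w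
    have h3 : D.eval (algebraMap k (LP k (Fin l)) w) = W q *
        ∏ i : Fin l, (1 - w • zi i) * Ring.inverse (1 - (q * w) • zi i) := by
      rw [hD, Polynomial.eval_mul, Polynomial.eval_C, Polynomial.eval_prod]
      congr 1
      refine Finset.prod_congr rfl fun i _ => ?_
      have h4 := CR_map_inverse (Polynomial.evalRingHom (algebraMap k (LP k (Fin l)) w)) (hu i)
      rw [Polynomial.coe_evalRingHom] at h4
      rw [Polynomial.eval_mul, h4]
      simp only [Polynomial.eval_sub, Polynomial.eval_mul, Polynomial.eval_one, Polynomial.eval_C,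
        Polynomial.eval_X, h2, mul_smul_comm, mul_one, smul_smul]
      rw [mul_comm w q]
    rw [Polynomial.eval_mul, Polynomial.eval_mul, Polynomial.eval_C, Polynomial.eval_pow,
      Polynomial.eval_X, h3]
    have h5 : (∏ i : Fin l, (1 - (q * w) • (zi i : LP k (Fin l)))) *
        (∏ i : Fin l, Ring.inverse (1 - w • (zi i : LP k (Fin l)))) *
        ∏ i : Fin l, ((1 - w • zi i) * Ring.inverse (1 - (q * w) • (zi i : LP k (Fin l)))) = 1 := by
      rw [← Finset.prod_mul_distrib, ← Finset.prod_mul_distrib]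
      refine Finset.prod_eq_one fun i _ => ?_
      have h6 := Ring.mul_inverse_cancel _ (isUnit_one_sub hqw (zi i : LP k (Fin l)))
      have h7 := Ring.inverse_mul_cancel _ (isUnit_one_sub hyl (zi i : LP k (Fin l)))
      calc _ = ((1 - (q * w) • (zi i : LP k (Fin l))) *
            Ring.inverse (1 - (q * w) • (zi i : LP k (Fin l)))) *
            (Ring.inverse (1 - w • (zi i : LP k (Fin l))) * (1 - w • (zi i : LP k (Fin l)))) := by
              ring
        _ = 1 := by rw [h6, h7, one_mul]
    have h8 : xp (fun i => (ν i.castSucc : ℤ)) * A * (algebraMap k (LP k (Fin l)) w) ^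
        ν (Fin.last l) * (W q * ∏ i : Fin l, (1 - w • zi i) *
          Ring.inverse (1 - (q * w) • zi i)) =
        w ^ ν (Fin.last l) • (xp (fun i => (ν i.castSucc : ℤ)) *
          KK q (fun i : Fin l => y i.castSucc) * W q) := by
      rw [Algebra.smul_def, map_pow, hA]
      calc _ = (algebraMap k (LP k (Fin l)) w) ^ ν (Fin.last l) *
            (xp (fun i => (ν i.castSucc : ℤ)) * KK q (fun i : Fin l => y i.castSucc) * W q) *
            ((∏ i : Fin l, (1 - (q * w) • (zi i : LP k (Fin l)))) *
            (∏ i : Fin l, Ring.inverse (1 - w • (zi i : LP k (Fin l)))) *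
            ∏ i : Fin l, ((1 - w • zi i) *
              Ring.inverse (1 - (q * w) • (zi i : LP k (Fin l))))) := by ring
        _ = _ := by rw [h5, mul_one]
    rw [h8, map_smul, ih (fun i => hy i.castSucc) (fun i => ν i.castSucc), Fin.prod_univ_castSucc,
      smul_eq_mul, mul_comm]

end

end Pool.Agent.Helper95.SH
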