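import Pool.Agent.Helper95.SH.HR1

/-!
# C1: the weight and the self-adjointness of the Hecke operators
-/

namespace Pool.Agent.Helper95.SH

open Finset

section
variable {k : Type*} [CommRing k] {l : ℕ}

/-! ## C1 (file CW.lean): the weight, self-adjointness (uses H1) -/

theorem CW_inverse_eq {A : Type*} [CommRing A] {x y : A} (h : x * y = 1) : Ring.inverse x = y := by
  have hx : IsUnit x := IsUnit.of_mul_eq_one y h
  have h1 : x * Ring.inverse x = 1 := Ring.mul_inverse_cancel x hx
  calc Ring.inverse x = (x * y) * Ring.inverse x := by rw [h, one_mul]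
    _ = y * (x * Ring.inverse x) := by ring
    _ = y := by rw [h1, mul_one]

theorem CW_map_inverse {A A' : Type*} [CommRing A] [CommRing A'] (φ : A →+* A') {x : A}
    (hx : IsUnit x) : φ (Ring.inverse x) = Ring.inverse (φ x) := by
  refine (CW_inverse_eq ?_).symm
  rw [← map_mul, Ring.mul_inverse_cancel x hx, map_one]

theorem isUnit_one_sub {c : k} (hc : IsNilpotent c) {ι : Type*} (f : LP k ι) :
    IsUnit (1 - c • f) := by
  refine IsNilpotent.isUnit_one_sub ?_
  obtain ⟨n, hn⟩ := hc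
  refine ⟨n, ?_⟩
  rw [smul_pow, hn, zero_smul]

theorem iv_mul {c : k} (hc : IsNilpotent c) (a b : Fin l) : (1 - c • uu a b) * iv c a b = 1 :=
  Ring.mul_inverse_cancel _ (isUnit_one_sub hc _)

theorem CW_pa_uu (σ : Equiv.Perm (Fin l)) (a b : Fin l) :
    pa σ (uu a b : LP k (Fin l)) = uu (σ a) (σ b) := by
  unfold uu
  rw [pa_xp]
  congr 1
  funext i
  simp only [al, Function.comp_apply, Pi.sub_apply, Pi.single_apply, Equiv.symm_apply_eq]

theorem CW_pa_iv (σ : Equiv.Perm (Fin l)) {c : k} (hc : IsNilpotent c) (a b : Fin l) :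
    pa σ (iv c a b) = iv c (σ a) (σ b) := by
  unfold iv
  have := CW_map_inverse ((pa σ : LP k (Fin l) →ₐ[k] LP k (Fin l)) : LP k (Fin l) →+* LP k (Fin l))
    (isUnit_one_sub hc (uu a b : LP k (Fin l)))
  rw [RingHom.coe_coe] at this
  rw [this, map_sub, map_one, map_smul, CW_pa_uu]

theorem CW_pa_om (σ : Equiv.Perm (Fin l)) {c : k} (hc : IsNilpotent c) (a b : Fin l) :
    pa σ (om c a b) = om c (σ a) (σ b) := by
  unfold om
  rw [map_mul, map_sub, map_one, CW_pa_uu, CW_pa_iv σ hc]

/-- the pairs different from `(a,b)` are permuted by the swap of the adjacent positions `a`, `b` -/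
theorem CW_swap_lt {a b i j : Fin l} (hab : Adj a b) (hij : i < j) (hne : (i, j) ≠ (a, b)) :
    Equiv.swap a b i < Equiv.swap a b j ∧ (Equiv.swap a b i, Equiv.swap a b j) ≠ (a, b) := by
  unfold Adj at hab
  have h1 : ¬ (i = a ∧ j = b) := fun h => hne (by rw [h.1, h.2])
  constructor
  · rw [Fin.lt_def] at hij ⊢
    simp only [Equiv.swap_apply_def]
    split_ifs with h2 h3 h4 h5 h6 h7 h8 <;> (simp only [Fin.ext_iff] at *; omega)
  · intro h
    rw [Prod.mk.injEq] at h
    have h2 : i = b := by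
      have := congrArg (Equiv.swap a b) h.1
      rwa [Equiv.swap_apply_self, Equiv.swap_apply_left] at this
    have h3 : j = a := by
      have := congrArg (Equiv.swap a b) h.2
      rwa [Equiv.swap_apply_self, Equiv.swap_apply_right] at this
    rw [Fin.lt_def, h2, h3] at hij
    omega

theorem W_fac {q : k} (hq : IsNilpotent q) {a b : Fin l} (hab : Adj a b) :
    ∃ V : LP k (Fin l), pa (Equiv.swap a b) V = V ∧ (1 - q • uu a b) * W q = (1 - uu a b) * V := by
  classical
  set P := univ.filter (fun p : Fin l × Fin l => p.1 < p.2) with hP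
  have hlt : a < b := by
    unfold Adj at hab
    rw [Fin.lt_def]
    omega
  have hmem : (a, b) ∈ P := by simp [hP, hlt]
  refine ⟨∏ p ∈ P.erase (a, b), om q p.1 p.2, ?_, ?_⟩
  · rw [map_prod]
    refine Finset.prod_nbij' (fun p => (Equiv.swap a b p.1, Equiv.swap a b p.2))
      (fun p => (Equiv.swap a b p.1, Equiv.swap a b p.2)) ?_ ?_ ?_ ?_ ?_
    · intro p hp
      simp only [mem_erase, hP, mem_filter, mem_univ, true_and] at hp ⊢
      have := CW_swap_lt hab hp.2 hp.1
      exact ⟨this.2, this.1⟩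
    · intro p hp
      simp only [mem_erase, hP, mem_filter, mem_univ, true_and] at hp ⊢
      have := CW_swap_lt hab hp.2 hp.1
      exact ⟨this.2, this.1⟩
    · intro p _
      simp
    · intro p _
      simp
    · intro p _
      exact CW_pa_om _ hq _ _
  · have h1 : W q = om q a b * ∏ p ∈ P.erase (a, b), om q p.1 p.2 := by
      unfold W
      rw [← hP, Finset.mul_prod_erase P (fun p => om q p.1 p.2) hmem]
    rw [h1]
    unfold om
    rw [← mul_assoc, mul_left_comm, iv_mul hq, mul_one]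

theorem R_adj {q : k} (hq : IsNilpotent q) {a b : Fin l} (hab : Adj a b) (n : ℤ)
    (f g : LP k (Fin l)) : CT (R q a b n f * g * W q) = CT (f * R q a b n g * W q) := by
  have hne : a ≠ b := by
    unfold Adj at hab
    intro h
    rw [h] at hab
    omega
  obtain ⟨V, hV, hW⟩ := W_fac hq hab
  have hW' : W q = iv q a b * ((1 - uu a b) * V) := by
    rw [← hW, ← mul_assoc, mul_comm (iv q a b), iv_mul hq, one_mul]
  have key : ∀ f g : LP k (Fin l), R q a b n f * g * W q =
      pa (Equiv.swap a b) f * g * V -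
        (1 - q) • (xp (n • al b a) * f * g * V * iv q a b) := by
    intro f g
    rw [hW']
    calc R q a b n f * g * (iv q a b * ((1 - uu a b) * V))
        = ((1 - uu a b) * R q a b n f) * (g * V * iv q a b) := by ring
      _ = ((1 - q • uu a b) * pa (Equiv.swap a b) f - (1 - q) • (xp (n • al b a) * f)) *
          (g * V * iv q a b) := by rw [R_key q hne]
      _ = pa (Equiv.swap a b) f * g * V * ((1 - q • uu a b) * iv q a b) -
          (1 - q) • (xp (n • al b a) * f * g * V * iv q a b) := by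
        rw [sub_mul, smul_mul_assoc]
        congr 1
        · ring
        · congr 1
          ring
      _ = _ := by rw [iv_mul hq, mul_one]
  have key2 : f * R q a b n g * W q = R q a b n g * f * W q := by ring
  rw [key2, key f g, key g f, map_sub, map_sub]
  congr 1
  · rw [← CT_pa (Equiv.swap a b) (pa (Equiv.swap a b) f * g * V),
      map_mul (pa (Equiv.swap a b)), map_mul (pa (Equiv.swap a b)), hV, pa_pa,
      Equiv.swap_mul_self, pa_one]
    congr 1
    ring
  · congr 1
    congr 1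
    ring

theorem CW_geom {A : Type*} [CommRing A] {x : A} {N : ℕ} (h : x ^ N = 0) :
    (1 - x) * ∑ p ∈ range N, x ^ p = 1 := by
  have := mul_neg_geom_sum x N
  rw [h, sub_zero] at this
  exact this

/-- the set of the exponents -/
theorem iv_supp {c : k} (hc : IsNilpotent c) {a b : Fin l} (hab : a ≠ b) {ρ : Fin l → ℝ}
    (hρ : ρ b < ρ a) : iv c a b - 1 ∈ Sup {ν | ∑ i, ν i = 0 ∧ ∑ i, ρ i * ν i < 0} := by
  obtain ⟨N, hN⟩ := hc
  have h1 : (c • (uu a b : LP k (Fin l))) ^ (N + 1) = 0 := by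
    rw [smul_pow, pow_succ, hN, zero_mul, zero_smul]
  have h2 : iv c a b = ∑ p ∈ range (N + 1), (c • (uu a b : LP k (Fin l))) ^ p :=
    CW_inverse_eq (CW_geom h1)
  rw [h2, Finset.sum_range_succ', pow_zero, add_sub_cancel_right]
  refine Submodule.sum_mem _ fun p _ => ?_
  rw [smul_pow]
  refine Submodule.smul_mem _ _ ?_
  unfold uu
  rw [← xp_nsmul]
  refine xp_mem_Sup ⟨?_, ?_⟩
  · have : ∀ i, ((p + 1) • al b a) i = ((p : ℤ) + 1) * (al b a i) := by
      intro i
      simp [Pi.smul_apply]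
    simp only [this]
    rw [← Finset.mul_sum]
    simp [al]
  · have : ∀ i, ρ i * (((p + 1) • al b a) i : ℤ) =
        ((p : ℝ) + 1) * (ρ i * (al b a i : ℤ)) := by
      intro i
      simp [Pi.smul_apply]
      ring
    simp only [this]
    rw [← Finset.mul_sum]
    have h3 : ∑ i, ρ i * ((al b a i : ℤ) : ℝ) = ρ b - ρ a := by
      simp [al, Pi.single_apply, mul_sub, Finset.sum_sub_distrib]
    rw [h3]
    have : (0 : ℝ) < (p : ℝ) + 1 := by positivity
    nlinarith

/-- if `f - 1` and `g - 1` have exponents in a set closed under addition, so does `f g - 1` -/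
theorem CW_mul_sub_one {X : Set (Fin l → ℤ)} (hX : ∀ x ∈ X, ∀ y ∈ X, x + y ∈ X)
    {f g : LP k (Fin l)} (hf : f - 1 ∈ Sup X) (hg : g - 1 ∈ Sup X) : f * g - 1 ∈ Sup X := by
  have h : f * g - 1 = (f - 1) * (g - 1) + (f - 1) + (g - 1) := by ring
  rw [h]
  exact Submodule.add_mem _ (Submodule.add_mem _ (mul_mem_Sup hf hg hX) hf) hg

theorem W_supp {q : k} (hq : IsNilpotent q) {ρ : Fin l → ℝ} (hρ : StrictAnti ρ) :
    W q - 1 ∈ Sup {ν : Fin l → ℤ | ∑ i, ν i = 0 ∧ ∑ i, ρ i * ν i < 0} := by
  set X : Set (Fin l → ℤ) := {ν : Fin l → ℤ | ∑ i, ν i = 0 ∧ ∑ i, ρ i * ν i < 0} with hXd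
  have hX : ∀ x ∈ X, ∀ y ∈ X, x + y ∈ X := by
    rintro x ⟨h1, h2⟩ y ⟨h3, h4⟩
    refine ⟨?_, ?_⟩
    · simp only [Pi.add_apply, Finset.sum_add_distrib, h1, h3, add_zero]
    · simp only [Pi.add_apply, Int.cast_add, mul_add, Finset.sum_add_distrib]
      linarith
  unfold W
  refine Finset.prod_induction _ (fun f : LP k (Fin l) => f - 1 ∈ Sup X)
    (fun f g hf hg => CW_mul_sub_one hX hf hg) (by simp) ?_
  rintro ⟨a, b⟩ hab
  simp only [mem_filter, mem_univ, true_and] at hab
  have h1 := iv_supp (k := k) hq hab.ne (hρ hab)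
  have hu : (1 - uu a b : LP k (Fin l)) - 1 ∈ Sup X := by
    rw [sub_sub_cancel_left]
    refine Submodule.neg_mem _ (xp_mem_Sup ⟨?_, ?_⟩)
    · simp [al]
    · have h3 : ∑ i, ρ i * ((al b a i : ℤ) : ℝ) = ρ b - ρ a := by
        simp [al, Pi.single_apply, mul_sub, Finset.sum_sub_distrib]
      rw [h3]
      have := hρ hab
      linarith
  exact CW_mul_sub_one hX hu h1

theorem CW_anti : StrictAnti (fun i : Fin l => -((i : ℕ) : ℝ)) := by
  intro i j hij
  simp only [neg_lt_neg_iff, Nat.cast_lt]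
  exact hij

theorem W_norm {q : k} (hq : IsNilpotent q) {ρ : Fin l → ℝ} (hρ : StrictAnti ρ) {ν : Fin l → ℤ}
    (h : co ν (W q : LP k (Fin l)) ≠ 0) : ν = 0 ∨ ∑ i, ρ i * ν i < 0 := by
  by_cases h0 : ν = 0
  · exact Or.inl h0
  · refine Or.inr (W_supp hq hρ ν ?_).2
    rw [map_sub, ← xp_zero, co_xp_ne (fun h => h0 h.symm), sub_zero]
    exact h

theorem W_co_zero {q : k} (hq : IsNilpotent q) : co 0 (W q : LP k (Fin l)) = 1 := by
  have h : co 0 (W q - 1 : LP k (Fin l)) = 0 := by
    by_contra hc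
    have := (W_supp hq CW_anti 0 hc).2
    simp at this
  rw [map_sub, ← xp_zero, co_xp_self, sub_eq_zero] at h
  exact h

theorem W_mp {k' : Type*} [CommRing k'] (φ : k →+* k') {q : k} (hq : IsNilpotent q) :
    mp φ (W q : LP k (Fin l)) = W (φ q) := by
  unfold W om iv
  rw [map_prod]
  refine Finset.prod_congr rfl fun p _ => ?_
  have h1 : mp φ (uu p.1 p.2 : LP k (Fin l)) = uu p.1 p.2 := mp_xp _ _
  rw [map_mul, map_sub, map_one, h1, CW_map_inverse _ (isUnit_one_sub hq _), map_sub, map_one,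
    mp_smul, h1]

end

end Pool.Agent.Helper95.SH
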