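import Pool.Agent.Helper95.SH.HDefs

/-!
# The operators `D_k` and the elements `D_b · 1`

The ring of symmetric functions over `k` is `MvPolynomial ℕ k`; the variable `X i` is the elementary
symmetric function `e_{i+1}`.
-/

namespace Pool.Agent.Helper95.SH

open Finset

section

variable {k : Type*} [CommRing k]

/-- The elementary symmetric function `e_n`. -/
noncomputable def ee (n : ℤ) : MvPolynomial ℕ k :=
  if n < 0 then 0 else if n = 0 then 1 else MvPolynomial.X (n.toNat - 1)

/-- `e_j[M]` for `M = (1 - q) (1 - t)`. -/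
def mM (q t : k) : ℕ → k
  | 0 => 1
  | j + 1 => (-1) ^ j * ((1 - q) * (1 - t)) * ∑ i ∈ range (j + 1), q ^ i * t ^ (j - i)

/-- The substitution `f ↦ f[X + M / z]`, as a polynomial in `v = 1 / z`. -/
noncomputable def tau (q t : k) : MvPolynomial ℕ k →ₐ[k] Polynomial (MvPolynomial ℕ k) :=
  MvPolynomial.aeval fun i => ∑ j ∈ range (i + 2),
    Polynomial.monomial j (mM q t j • ee ((i : ℤ) + 1 - j))

/-- `(-1) ^ n e_n`. -/
noncomputable def se (n : ℤ) : MvPolynomial ℕ k := (-1) ^ n.natAbs * ee n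

/-- The operator `D_b`: the coefficient of `z ^ b` in `f[X + M / z] ∑ (-z) ^ n e_n`. -/
noncomputable def Dop (q t : k) (b : ℤ) (f : MvPolynomial ℕ k) : MvPolynomial ℕ k :=
  (tau q t f).sum fun j c => c * se (b + j)

/-- `D_b · 1` for `b = (b_0, ..., b_m)`: the coefficient of `z ^ b` in
`D(z_0) ⋯ D(z_m) / ∏ (1 - q t z_{i+1} / z_i)` applied to `1`. -/
noncomputable def DV (q t : k) : (m : ℕ) → (Fin (m + 1) → ℤ) → MvPolynomial ℕ k
  | 0, b => Dop q t (b 0) 1
  | m + 1, b => ∑ j ∈ range ((∑ i, Fin.tail b i).toNat + 1),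
      MvPolynomial.C ((q * t) ^ j) * Dop q t (b 0 + j)
        (DV q t m (Function.update (Fin.tail b) 0 (Fin.tail b 0 - j)))

/-- `(-1) ^ n D_b · 1`, `n` the degree. -/
noncomputable def EV (q t : k) {m : ℕ} (b : Fin (m + 1) → ℤ) : MvPolynomial ℕ k :=
  (-1) ^ (∑ i, b i).natAbs * DV q t m b

/-- The semiring of positive elements: generated by the `e_n`, by `q - 1` and by `t`. -/
noncomputable def SS (q t : k) : Subsemiring (MvPolynomial ℕ k) :=
  Subsemiring.closure (Set.range (fun n : ℤ => (ee n : MvPolynomial ℕ k)) ∪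
    {MvPolynomial.C (q - 1), MvPolynomial.C t})

end

end Pool.Agent.Helper95.SH
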