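import Pool.Agent.Helper95.SH.CW
import Pool.Agent.Helper95.SH.DDefs

namespace Pool.Agent.Helper95.SH

open Finset

section
variable {k : Type*} [CommRing k]

/-! ## Auxiliary lemmas -/

/-- The complete homogeneous polynomial in `q`, `t`. -/
def DK_h (q t : k) (j : ℕ) : k := ∑ i ∈ range (j + 1), q ^ i * t ^ (j - i)

theorem DK_mM_zero (q t : k) : mM q t 0 = 1 := rfl

theorem DK_mM_succ (q t : k) (j : ℕ) :
    mM q t (j + 1) = (-1) ^ j * ((1 - q) * (1 - t)) * DK_h q t j := rfl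

theorem DK_h_zero (q t : k) : DK_h q t 0 = 1 := by simp [DK_h]

theorem DK_h_succ (q t : k) (j : ℕ) : DK_h q t (j + 1) = t * DK_h q t j + q ^ (j + 1) := by
  unfold DK_h
  rw [sum_range_succ, Nat.sub_self, pow_zero, mul_one, mul_sum]
  congr 1
  refine sum_congr rfl fun i hi => ?_
  rw [Nat.succ_sub (Nat.lt_succ_iff.1 (mem_range.1 hi)), pow_succ]
  ring

theorem DK_h_comm (q t : k) (j : ℕ) : DK_h q t j = DK_h t q j := by
  unfold DK_h
  rw [← sum_range_reflect]
  refine sum_congr rfl fun i hi => ?_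
  have h : i ≤ j := Nat.lt_succ_iff.1 (mem_range.1 hi)
  rw [show j + 1 - 1 - i = j - i by omega, show j - (j - i) = i by omega, mul_comm]

theorem DK_mM_comm (q t : k) (j : ℕ) : mM q t j = mM t q j := by
  cases j with
  | zero => rfl
  | succ j => rw [DK_mM_succ, DK_mM_succ, DK_h_comm]; ring

theorem DK_h_map {k' : Type*} [CommRing k'] (φ : k →+* k') (q t : k) (j : ℕ) :
    φ (DK_h q t j) = DK_h (φ q) (φ t) j := by
  simp [DK_h, map_sum]

theorem DK_mM_map {k' : Type*} [CommRing k'] (φ : k →+* k') (q t : k) (j : ℕ) :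
    φ (mM q t j) = mM (φ q) (φ t) j := by
  cases j with
  | zero => simp [DK_mM_zero]
  | succ j => simp [DK_mM_succ, DK_h_map]

theorem DK_h_nilp {q t : k} (hq : IsNilpotent q) (ht : IsNilpotent t) :
    ∃ N, (∀ j, N ≤ j → DK_h q t j = 0) ∧ (∀ j, N ≤ j → q ^ j = 0) ∧
      (∀ j, N ≤ j → (q * t) ^ j = 0) := by
  obtain ⟨a, ha⟩ := hq
  obtain ⟨b, hb⟩ := ht
  refine ⟨a + b, fun j hj => ?_, fun j hj => pow_eq_zero_of_le (by omega) ha, fun j hj => ?_⟩
  · unfold DK_h
    refine sum_eq_zero fun i _ => ?_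
    by_cases hi : a ≤ i
    · rw [pow_eq_zero_of_le hi ha, zero_mul]
    · rw [pow_eq_zero_of_le (by omega : b ≤ j - i) hb, mul_zero]
  · rw [mul_pow, pow_eq_zero_of_le (by omega : a ≤ j) ha, zero_mul]

/-! ### `ee` and `se` -/

theorem DK_ee_neg {n : ℤ} (hn : n < 0) : (ee n : MvPolynomial ℕ k) = 0 := if_pos hn

theorem DK_ee_zero : (ee 0 : MvPolynomial ℕ k) = 1 := by simp [ee]

theorem DK_ee_succ (n : ℕ) : (ee ((n : ℤ) + 1) : MvPolynomial ℕ k) = MvPolynomial.X n := by
  unfold ee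
  rw [if_neg (by omega), if_neg (by omega)]
  congr 1

theorem DK_ee_map {k' : Type*} [CommRing k'] (φ : k →+* k') (n : ℤ) :
    MvPolynomial.map φ (ee n : MvPolynomial ℕ k) = ee n := by
  unfold ee
  split_ifs <;> simp

theorem DK_se_map {k' : Type*} [CommRing k'] (φ : k →+* k') (n : ℤ) :
    MvPolynomial.map φ (se n : MvPolynomial ℕ k) = se n := by
  unfold se
  simp [DK_ee_map]

/-- Signs. -/
theorem DK_sign {R : Type*} [CommRing R] (a b : ℤ) :
    ((-1 : R)) ^ (a + b).natAbs = (-1) ^ a.natAbs * (-1) ^ b.natAbs := by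
  have key : ∀ n : ℤ, ((-1 : R)) ^ n.natAbs = if Even n then 1 else -1 := by
    intro n
    by_cases h : Even n
    · rw [if_pos h, Even.neg_one_pow (Int.natAbs_even.2 h)]
    · rw [if_neg h, Odd.neg_one_pow (Int.natAbs_odd.2 (Int.not_even_iff_odd.1 h))]
  rw [key, key, key]
  by_cases ha : Even a <;> by_cases hb : Even b
  · rw [if_pos (ha.add hb), if_pos ha, if_pos hb]; ring
  · rw [if_neg (fun h => hb ((Int.even_add.1 h).1 ha)), if_pos ha, if_neg hb]; ring
  · rw [if_neg (fun h => ha ((Int.even_add.1 h).2 hb)), if_neg ha, if_pos hb]; ring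
  · rw [if_pos (Int.even_add.2 ⟨fun h => absurd h ha, fun h => absurd h hb⟩), if_neg ha, if_neg hb]
    ring

theorem DK_se_add (c : ℤ) (j : ℕ) : (se (c + j) : MvPolynomial ℕ k) =
    (-1) ^ c.natAbs * ((-1) ^ j * ee (c + j)) := by
  unfold se
  rw [DK_sign, Int.natAbs_natCast, mul_assoc]

/-! ### The linear functional behind `Dop` -/

/-- The linear functional `v ^ j c ↦ c se (b + j)`. -/
noncomputable def DK_L (b : ℤ) : Polynomial (MvPolynomial ℕ k) →ₗ[MvPolynomial ℕ k] MvPolynomial ℕ k :=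
  Polynomial.lsum fun j => LinearMap.mulRight (MvPolynomial ℕ k) (se (b + j))

theorem DK_Dop_eq (q t : k) (b : ℤ) (f : MvPolynomial ℕ k) : Dop q t b f = DK_L b (tau q t f) := rfl

theorem DK_L_monomial (b : ℤ) (j : ℕ) (c : MvPolynomial ℕ k) :
    DK_L b (Polynomial.monomial j c) = c * se (b + j) := by
  unfold DK_L
  simp [Polynomial.lsum, Polynomial.sum_monomial_index]

theorem DK_L_map {k' : Type*} [CommRing k'] (φ : k →+* k') (b : ℤ)
    (p : Polynomial (MvPolynomial ℕ k)) :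
    MvPolynomial.map φ (DK_L b p) = DK_L b (p.map (MvPolynomial.map φ)) := by
  induction p using Polynomial.induction_on' with
  | add p q hp hq => rw [map_add, map_add, Polynomial.map_add, map_add, hp, hq]
  | monomial n a =>
    rw [DK_L_monomial, Polynomial.map_monomial, DK_L_monomial, map_mul, DK_se_map]

theorem DK_tau_map {k' : Type*} [CommRing k'] (φ : k →+* k') (q t : k) (f : MvPolynomial ℕ k) :
    (tau q t f).map (MvPolynomial.map φ) = tau (φ q) (φ t) (MvPolynomial.map φ f) := by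
  have h : (Polynomial.mapRingHom (MvPolynomial.map φ)).comp (tau q t).toRingHom =
      (tau (φ q) (φ t)).toRingHom.comp (MvPolynomial.map φ) := by
    refine MvPolynomial.ringHom_ext (fun r => ?_) (fun i => ?_)
    · simp only [RingHom.comp_apply, AlgHom.toRingHom_eq_coe, RingHom.coe_coe,
        Polynomial.coe_mapRingHom, MvPolynomial.map_C, MvPolynomial.algHom_C]
      simp [Polynomial.algebraMap_apply, MvPolynomial.algebraMap_eq]
    · simp only [RingHom.comp_apply, AlgHom.toRingHom_eq_coe, RingHom.coe_coe,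
        Polynomial.coe_mapRingHom, MvPolynomial.map_X, tau, MvPolynomial.aeval_X,
        Polynomial.map_sum, Polynomial.map_monomial]
      refine sum_congr rfl fun j _ => ?_
      rw [MvPolynomial.smul_eq_C_mul, MvPolynomial.smul_eq_C_mul, map_mul, MvPolynomial.map_C,
        DK_ee_map, DK_mM_map]
  exact RingHom.congr_fun h f

theorem DK_Dop_map {k' : Type*} [CommRing k'] (φ : k →+* k') (q t : k) (b : ℤ)
    (f : MvPolynomial ℕ k) :
    MvPolynomial.map φ (Dop q t b f) = Dop (φ q) (φ t) b (MvPolynomial.map φ f) := by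
  rw [DK_Dop_eq, DK_Dop_eq, DK_L_map, DK_tau_map]

theorem DK_DV_map {k' : Type*} [CommRing k'] (φ : k →+* k') (q t : k) (m : ℕ) :
    ∀ b : Fin (m + 1) → ℤ, MvPolynomial.map φ (DV q t m b) = DV (φ q) (φ t) m b := by
  induction m with
  | zero => intro b; simp only [DV]; rw [DK_Dop_map, map_one]
  | succ m ih =>
    intro b
    simp only [DV]
    rw [map_sum]
    refine sum_congr rfl fun j _ => ?_
    rw [map_mul, MvPolynomial.map_C, DK_Dop_map, ih, map_pow, map_mul]

theorem DK_tau_comm (q t : k) : tau q t = tau t q := by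
  unfold tau
  congr 1
  funext i
  refine sum_congr rfl fun j _ => ?_
  rw [DK_mM_comm]

theorem DK_DV_comm (q t : k) (m : ℕ) : ∀ b : Fin (m + 1) → ℤ, DV q t m b = DV t q m b := by
  induction m with
  | zero => intro b; simp only [DV]; rw [DK_Dop_eq, DK_Dop_eq, DK_tau_comm]
  | succ m ih =>
    intro b
    simp only [DV]
    refine sum_congr rfl fun j _ => ?_
    rw [ih, DK_Dop_eq, DK_Dop_eq, DK_tau_comm, mul_comm q t]

theorem DK_Dop_one (q t : k) (b : ℤ) : Dop q t b 1 = se b := by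
  rw [DK_Dop_eq, map_one, ← Polynomial.monomial_zero_one, DK_L_monomial, one_mul]
  simp

theorem DK_DV_snoc (q t : k) (m : ℕ) :
    ∀ b : Fin (m + 1) → ℤ, DV q t (m + 1) (Fin.snoc b 0 : Fin (m + 2) → ℤ) = DV q t m b := by
  induction m with
  | zero =>
    intro b
    have h1 : Fin.tail (Fin.snoc b 0 : Fin 2 → ℤ) = fun _ => 0 := by
      funext i
      have : i = 0 := Subsingleton.elim _ _
      subst this
      simp [Fin.tail, Fin.snoc]
    have h2 : (Fin.snoc b 0 : Fin 2 → ℤ) 0 = b 0 := by simp [Fin.snoc]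
    simp only [DV]
    rw [h1, h2]
    simp only [Finset.sum_const_zero, Int.toNat_zero, zero_add, range_one, sum_singleton, pow_zero,
      map_one, one_mul, Nat.cast_zero, add_zero, sub_zero, DK_Dop_one, Function.update_self]
    have : (se 0 : MvPolynomial ℕ k) = 1 := by simp [se, DK_ee_zero]
    rw [this, DK_Dop_one]
  | succ m ih =>
    intro b
    have h1 : Fin.tail (Fin.snoc b 0 : Fin (m + 3) → ℤ) = Fin.snoc (Fin.tail b) 0 := by
      funext i
      refine Fin.lastCases ?_ (fun i => ?_) i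
      · simp [Fin.tail, Fin.succ_last]
      · simp only [Fin.tail, Fin.snoc_castSucc]
        rw [Fin.succ_castSucc, Fin.snoc_castSucc]
    have h2 : (Fin.snoc b 0 : Fin (m + 3) → ℤ) 0 = b 0 := by
      rw [← Fin.castSucc_zero, Fin.snoc_castSucc]
    have h3 : (Fin.snoc (Fin.tail b) 0 : Fin (m + 2) → ℤ) 0 = Fin.tail b 0 := by
      rw [← Fin.castSucc_zero, Fin.snoc_castSucc]
    rw [DV, DV]
    rw [h1, h2, h3]
    have h4 : ∑ i, (Fin.snoc (Fin.tail b) 0 : Fin (m + 2) → ℤ) i = ∑ i, Fin.tail b i := by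
      rw [Fin.sum_univ_castSucc]
      simp
    rw [h4]
    refine sum_congr rfl fun j _ => ?_
    congr 2
    have h5 : Function.update (Fin.snoc (Fin.tail b) 0 : Fin (m + 2) → ℤ) 0 (Fin.tail b 0 - j) =
        Fin.snoc (Function.update (Fin.tail b) 0 (Fin.tail b 0 - j)) 0 := by
      rw [← Fin.castSucc_zero, Fin.snoc_update]
    rw [h5, ih]

/-! ### The step -/

theorem DK_sum_range {M : Type*} [AddCommMonoid M] {F : ℕ → M} {a b : ℕ}
    (ha : ∀ j, a ≤ j → F j = 0) (hb : ∀ j, b ≤ j → F j = 0) :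
    ∑ j ∈ range a, F j = ∑ j ∈ range b, F j := by
  have key : ∀ {c d : ℕ}, c ≤ d → (∀ j, c ≤ j → F j = 0) →
      ∑ j ∈ range c, F j = ∑ j ∈ range d, F j := by
    intro c d hcd hc
    refine sum_subset (range_subset_range.2 hcd) fun j _ hj => hc j ?_
    exact not_lt.1 fun h => hj (mem_range.2 h)
  rcases le_total a b with h | h
  · exact key h ha
  · exact (key h hb).symm

theorem DK_tau_ee {q t : k} {N : ℕ} (hN : ∀ j, N ≤ j → mM q t j = 0) (n : ℤ) :
    tau q t (ee n) = ∑ j ∈ range N, Polynomial.monomial j (mM q t j • ee (n - j)) := by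
  rcases lt_or_ge n 0 with h | h
  · rw [DK_ee_neg h, map_zero]
    symm
    refine sum_eq_zero fun j _ => ?_
    rw [DK_ee_neg (by omega), smul_zero, map_zero]
  · obtain ⟨i, rfl⟩ := Int.eq_ofNat_of_zero_le h
    rw [DK_sum_range (a := N) (b := i + 1)
      (fun j hj => by rw [hN j hj, zero_smul, map_zero])
      (fun j hj => by rw [DK_ee_neg (by omega), smul_zero, map_zero])]
    cases i with
    | zero =>
      rw [zero_add, range_one, sum_singleton]
      simp [DK_ee_zero, DK_mM_zero]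
    | succ i =>
      rw [Nat.cast_succ, DK_ee_succ]
      unfold tau
      rw [MvPolynomial.aeval_X]

theorem DK_prod_xp {ι σ : Type*} (s : Finset σ) (F : σ → ι → ℤ) :
    ∏ i ∈ s, (xp (F i) : LP k ι) = xp (∑ i ∈ s, F i) := by
  classical
  induction s using Finset.induction_on with
  | empty => simp [xp_zero]
  | insert a s ha ih => rw [prod_insert ha, sum_insert ha, xp_add, ih]

theorem DK_prod_monomial {R σ : Type*} [CommSemiring R] (s : Finset σ) (d : σ → ℕ) (c : σ → R) :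
    ∏ i ∈ s, Polynomial.monomial (d i) (c i) = Polynomial.monomial (∑ i ∈ s, d i) (∏ i ∈ s, c i) := by
  classical
  induction s using Finset.induction_on with
  | empty => simp
  | insert a s ha ih =>
    rw [prod_insert ha, sum_insert ha, prod_insert ha, ih, Polynomial.monomial_mul_monomial]

theorem DK_prod_smul {R A σ : Type*} [CommSemiring R] [CommSemiring A] [Algebra R A] (s : Finset σ)
    (c : σ → R) (f : σ → A) : ∏ i ∈ s, c i • f i = (∏ i ∈ s, c i) • ∏ i ∈ s, f i := by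
  classical
  induction s using Finset.induction_on with
  | empty => simp
  | insert a s ha ih =>
    rw [prod_insert ha, prod_insert ha, prod_insert ha, ih, smul_mul_smul_comm]

/-- Exponents of the embedding `x_i ↦ x_{i+1}`. -/
def DK_eS {m : ℕ} : (Fin m → ℤ) →+ (Fin (m + 1) → ℤ) where
  toFun ν := Fin.cons 0 ν
  map_zero' := by funext i; refine Fin.cases rfl (fun _ => rfl) i
  map_add' ν μ := by funext i; refine Fin.cases (by simp) (fun _ => by simp) i

theorem DK_eS_zero {m : ℕ} (ν : Fin m → ℤ) : DK_eS ν 0 = 0 := rfl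

theorem DK_eS_succ {m : ℕ} (ν : Fin m → ℤ) (i : Fin m) : DK_eS ν i.succ = ν i := rfl

theorem DK_Psi_xp {l : ℕ} (ν : Fin l → ℤ) :
    Psi (k := k) (Λ := MvPolynomial ℕ k) ee (xp ν) = ∏ i, ee (-(ν i)) := mkLin_xp _ _

theorem DK_al_zero {l : ℕ} (i : Fin l) : al i.succ (0 : Fin (l + 1)) 0 = -1 := by
  simp [al, (Fin.succ_ne_zero i).symm]

theorem DK_al_succ {l : ℕ} (i j : Fin l) :
    al i.succ (0 : Fin (l + 1)) j.succ = if j = i then 1 else 0 := by
  simp [al, Pi.single_apply, Fin.succ_ne_zero j]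

theorem DK_uu_pow {l : ℕ} (a b : Fin l) (j : ℕ) : (uu a b : LP k (Fin l)) ^ j = xp (j • al b a) := by
  unfold uu
  rw [xp_nsmul]

theorem DK_step_xp {q t : k} {N : ℕ} (hN : ∀ j, N ≤ j → mM q t j = 0) (c : ℤ) {l : ℕ}
    (ν : Fin l → ℤ) :
    Dop q t c (Psi (k := k) ee (xp ν)) = (-1) ^ c.natAbs * Psi (k := k) ee
      (xp (Pi.single 0 (-c)) * mE DK_eS (xp ν) *
        ∏ i : Fin l, ∑ j ∈ range N, ((-1) ^ j * mM q t j) • uu 0 i.succ ^ j) := by
  rw [DK_Dop_eq, DK_Psi_xp, map_prod]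
  simp only [DK_tau_ee hN]
  rw [prod_univ_sum, prod_univ_sum, map_sum, mul_sum, map_sum, mul_sum]
  refine sum_congr rfl fun p _ => ?_
  rw [DK_prod_monomial, DK_L_monomial, DK_prod_smul, DK_prod_smul]
  simp only [DK_uu_pow]
  rw [DK_prod_xp, mE_xp, ← xp_add, mul_smul_comm, ← xp_add, map_smul, DK_Psi_xp,
    Fin.prod_univ_succ, DK_se_add]
  have h0 : (Pi.single 0 (-c) + DK_eS ν + ∑ i : Fin l, p i • al i.succ (0 : Fin (l + 1)) :
      Fin (l + 1) → ℤ) 0 = -(c + (∑ i, p i : ℕ)) := by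
    simp only [Pi.add_apply, Pi.single_eq_same, DK_eS_zero, Finset.sum_apply, Pi.smul_apply,
      DK_al_zero]
    push_cast
    simp only [smul_neg, nsmul_eq_mul, mul_one, sum_neg_distrib]
    ring
  have h1 : ∀ j : Fin l, (Pi.single 0 (-c) + DK_eS ν + ∑ i : Fin l, p i • al i.succ (0 : Fin (l + 1)) :
      Fin (l + 1) → ℤ) j.succ = ν j + p j := by
    intro j
    simp only [Pi.add_apply, DK_eS_succ, Finset.sum_apply, Pi.smul_apply, DK_al_succ]
    rw [Pi.single_eq_of_ne (Fin.succ_ne_zero j), zero_add]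
    congr 1
    simp
  have h2 : ∀ x : Fin l, -(ν x + (p x : ℤ)) = -ν x - p x := fun x => by ring
  simp only [h0, h1, h2, neg_neg]
  rw [prod_mul_distrib, prod_pow_eq_pow_sum]
  simp only [MvPolynomial.smul_eq_C_mul, map_mul, map_pow, map_neg, map_one]
  ring

theorem DK_step {q t : k} {N : ℕ} (hN : ∀ j, N ≤ j → mM q t j = 0) (c : ℤ) {l : ℕ}
    (f : LP k (Fin l)) :
    Dop q t c (Psi (k := k) ee f) = (-1) ^ c.natAbs * Psi (k := k) ee
      (xp (Pi.single 0 (-c)) * mE DK_eS f *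
        ∏ i : Fin l, ∑ j ∈ range N, ((-1) ^ j * mM q t j) • uu 0 i.succ ^ j) := by
  refine LP.induct (P := fun f => Dop q t c (Psi (k := k) ee f) = (-1) ^ c.natAbs *
    Psi (k := k) ee (xp (Pi.single 0 (-c)) * mE DK_eS f *
        ∏ i : Fin l, ∑ j ∈ range N, ((-1) ^ j * mM q t j) • uu 0 i.succ ^ j)) ?_ ?_ ?_ f
  · simp [DK_Dop_eq]
  · intro f g hf hg
    rw [map_add, DK_Dop_eq, map_add, map_add, ← DK_Dop_eq, ← DK_Dop_eq, hf, hg, map_add, mul_add,
      add_mul, map_add, mul_add]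
  · intro a ν
    rw [map_smul, map_smul, mul_smul_comm, smul_mul_assoc, map_smul, DK_Dop_eq, map_smul,
      mul_smul_comm, ← DK_step_xp hN, DK_Dop_eq,
      ← algebraMap_smul (MvPolynomial ℕ k) a (tau q t (Psi ee (xp ν))), map_smul, algebraMap_smul]

/-! ### Geometric series -/

theorem DK_iv_eq {c : k} {N : ℕ} (hN : c ^ N = 0) {l : ℕ} (a b : Fin l) :
    ∑ j ∈ range N, c ^ j • (uu a b : LP k (Fin l)) ^ j = iv c a b := by
  have h1 : ∀ n : ℕ, (1 - c • uu a b) * ∑ j ∈ range n, c ^ j • (uu a b : LP k (Fin l)) ^ j =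
      1 - c ^ n • uu a b ^ n := by
    intro n
    induction n with
    | zero => simp
    | succ n ih =>
      rw [sum_range_succ, mul_add, ih, pow_succ, pow_succ]
      simp only [Algebra.smul_def, map_mul, map_pow]
      ring
  have h2 := h1 N
  rw [hN, zero_smul, sub_zero] at h2
  have h3 := iv_mul (⟨N, hN⟩ : IsNilpotent c) a b
  calc ∑ j ∈ range N, c ^ j • (uu a b : LP k (Fin l)) ^ j
      = ((1 - c • uu a b) * iv c a b) * ∑ j ∈ range N, c ^ j • (uu a b : LP k (Fin l)) ^ j := by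
        rw [h3, one_mul]
    _ = ((1 - c • uu a b) * ∑ j ∈ range N, c ^ j • (uu a b : LP k (Fin l)) ^ j) * iv c a b := by
        ring
    _ = iv c a b := by rw [h2, one_mul]

theorem DK_MM {q t : k} {N : ℕ} (hh : DK_h q t N = 0) (hqN : q ^ N = 0) (ht : IsNilpotent t)
    {l : ℕ} (a b : Fin l) :
    ∑ j ∈ range (N + 1), ((-1) ^ j * mM q t j) • (uu a b : LP k (Fin l)) ^ j =
      om q a b * iv t a b * (1 - (q * t) • uu a b) := by
  have h1 : ∀ n : ℕ, (1 - t • uu a b) * ∑ j ∈ range n, DK_h q t j • (uu a b : LP k (Fin l)) ^ j =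
      ∑ j ∈ range n, q ^ j • (uu a b : LP k (Fin l)) ^ j - (DK_h q t n - q ^ n) • uu a b ^ n := by
    intro n
    induction n with
    | zero => simp [DK_h_zero]
    | succ n ih =>
      rw [sum_range_succ, sum_range_succ, mul_add, ih, DK_h_succ]
      simp only [Algebra.smul_def, map_mul, map_pow, map_sub, map_add]
      ring
  have h2 := h1 N
  rw [hh, hqN, sub_zero, zero_smul, sub_zero, DK_iv_eq hqN] at h2
  have h3 := iv_mul ht a b
  have h4 := iv_mul (⟨N, hqN⟩ : IsNilpotent q) a b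
  rw [sum_range_succ']
  have h5 : ∀ j, ((-1 : k) ^ (j + 1) * mM q t (j + 1)) = -((1 - q) * (1 - t)) * DK_h q t j := by
    intro j
    rw [DK_mM_succ]
    have : ((-1 : k) ^ j) * (-1) ^ j = 1 := by rw [← mul_pow]; simp
    linear_combination (-(1 - q) * (1 - t) * DK_h q t j) * this
  have h6 : ∑ j ∈ range N, ((-1) ^ (j + 1) * mM q t (j + 1)) • (uu a b : LP k (Fin l)) ^ (j + 1) =
      -(((1 - q) * (1 - t)) • uu a b) * ∑ j ∈ range N, DK_h q t j • (uu a b : LP k (Fin l)) ^ j := by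
    rw [mul_sum]
    refine sum_congr rfl fun j _ => ?_
    rw [h5]
    simp only [Algebra.smul_def, map_mul, map_sub, map_one, map_neg]
    ring
  rw [h6, DK_mM_zero]
  set S := ∑ j ∈ range N, DK_h q t j • (uu a b : LP k (Fin l)) ^ j with hS
  unfold om
  simp only [Algebra.smul_def, map_mul, map_sub, map_one, pow_zero, mul_one] at h2 h3 h4 ⊢
  set u : LP k (Fin l) := uu a b
  set Q : LP k (Fin l) := algebraMap k (LP k (Fin l)) q
  set T : LP k (Fin l) := algebraMap k (LP k (Fin l)) t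
  set iq := iv q a b
  set it := iv t a b
  have h7 : S = iq * it := by
    linear_combination (-S) * h3 + it * h2
  rw [h7]
  linear_combination (-(1 - T * u) * it) * h4 - h3

theorem DK_map_iv {c : k} (hc : IsNilpotent c) {l : ℕ} (a b : Fin l) :
    mE DK_eS (iv c a b) = iv c a.succ b.succ := by
  have h1 := iv_mul hc a.succ b.succ
  have h2 := congrArg (mE DK_eS) (iv_mul hc a b)
  rw [map_mul, map_sub, map_one, map_smul] at h2
  have h3 : mE DK_eS (uu a b : LP k (Fin l)) = uu a.succ b.succ := by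
    unfold uu
    rw [mE_xp]
    congr 1
    funext i
    refine Fin.cases ?_ (fun i => ?_) i
    · simp [DK_eS_zero, al, (Fin.succ_ne_zero _).symm]
    · simp [DK_eS_succ, al, Pi.single_apply]
  rw [h3] at h2
  linear_combination (iv c a.succ b.succ) * h2 - mE DK_eS (iv c a b) * h1

theorem DK_map_uu {l : ℕ} (a b : Fin l) :
    mE DK_eS (uu a b : LP k (Fin l)) = uu a.succ b.succ := by
  unfold uu
  rw [mE_xp]
  congr 1
  funext i
  refine Fin.cases ?_ (fun i => ?_) i
  · simp [DK_eS_zero, al, (Fin.succ_ne_zero _).symm]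
  · simp [DK_eS_succ, al, Pi.single_apply]

theorem DK_pairs {M : Type*} [CommMonoid M] {n : ℕ} (F : Fin (n + 1) → Fin (n + 1) → M) :
    ∏ p ∈ univ.filter (fun p : Fin (n + 1) × Fin (n + 1) => p.1 < p.2), F p.1 p.2 =
      (∏ j : Fin n, F 0 j.succ) *
        ∏ p ∈ univ.filter (fun p : Fin n × Fin n => p.1 < p.2), F p.1.succ p.2.succ := by
  rw [prod_filter, prod_filter, Fintype.prod_prod_type, Fintype.prod_prod_type,
    Fin.prod_univ_succ]
  congr 1
  · rw [Fin.prod_univ_succ]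
    simp
  · refine prod_congr rfl fun i _ => ?_
    rw [Fin.prod_univ_succ]
    simp

theorem DK_pairs' {M : Type*} [CommMonoid M] {n : ℕ} (F : Fin (n + 2) → Fin (n + 2) → M) :
    ∏ p ∈ univ.filter (fun p : Fin (n + 2) × Fin (n + 2) => (p.1 : ℕ) + 1 < p.2), F p.1 p.2 =
      (∏ j : Fin n, F 0 j.succ.succ) *
        ∏ p ∈ univ.filter (fun p : Fin (n + 1) × Fin (n + 1) => (p.1 : ℕ) + 1 < p.2),
          F p.1.succ p.2.succ := by
  rw [prod_filter, prod_filter, Fintype.prod_prod_type, Fintype.prod_prod_type,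
    Fin.prod_univ_succ]
  congr 1
  · rw [Fin.prod_univ_succ, Fin.prod_univ_succ]
    simp
  · refine prod_congr rfl fun i _ => ?_
    rw [Fin.prod_univ_succ]
    simp

theorem DK_recursion {q t : k} (hq : IsNilpotent q) (ht : IsNilpotent t) {N : ℕ}
    (hh : DK_h q t N = 0) (hqN : q ^ N = 0) (m : ℕ) :
    (W q * Kh q t : LP k (Fin (m + 2))) = iv (q * t) 0 1 * mE DK_eS (W q * Kh q t) *
      ∏ i : Fin (m + 1), ∑ j ∈ range (N + 1), ((-1) ^ j * mM q t j) • uu 0 i.succ ^ j := by
  have hqt : IsNilpotent (q * t) := (Commute.all q t).isNilpotent_mul_right hq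
  have h1 : (W q : LP k (Fin (m + 2))) = (∏ j : Fin (m + 1), om q 0 j.succ) * mE DK_eS (W q) := by
    unfold W
    rw [DK_pairs, map_prod]
    congr 1
    refine prod_congr rfl fun p _ => ?_
    unfold om
    rw [map_mul, map_sub, map_one, DK_map_uu, DK_map_iv hq]
  have h2 : (Kh q t : LP k (Fin (m + 2))) =
      (∏ j : Fin m, (1 - (q * t) • uu 0 j.succ.succ)) * (∏ j : Fin (m + 1), iv t 0 j.succ) *
        mE DK_eS (Kh q t) := by
    unfold Kh
    rw [DK_pairs' (fun a b => (1 - (q * t) • uu a b : LP k (Fin (m + 2)))),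
      DK_pairs (fun a b => (iv t a b : LP k (Fin (m + 2)))), map_mul, map_prod, map_prod]
    have e1 : ∀ p : Fin (m + 1) × Fin (m + 1), mE DK_eS (1 - (q * t) • uu p.1 p.2 :
        LP k (Fin (m + 1))) = 1 - (q * t) • uu p.1.succ p.2.succ := by
      intro p
      rw [map_sub, map_one, map_smul, DK_map_uu]
    have e2 : ∀ p : Fin (m + 1) × Fin (m + 1), mE DK_eS (iv t p.1 p.2 :
        LP k (Fin (m + 1))) = iv t p.1.succ p.2.succ := fun p => DK_map_iv ht _ _
    simp only [e1, e2]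
    ring
  have h3 := iv_mul hqt (0 : Fin (m + 2)) 1
  simp only [DK_MM hh hqN ht]
  rw [h1, h2, prod_mul_distrib, prod_mul_distrib, Fin.prod_univ_succ (n := m)
    (f := fun j : Fin (m + 1) => (1 - (q * t) • uu 0 j.succ : LP k (Fin (m + 2)))), map_mul,
    Fin.succ_zero_eq_one]
  linear_combination (-(∏ j : Fin (m + 1), om q 0 j.succ) * mE DK_eS (W q) *
    ((∏ j : Fin m, (1 - (q * t) • uu 0 j.succ.succ)) * (∏ j : Fin (m + 1), iv t 0 j.succ) *
        mE DK_eS (Kh q t))) * h3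

/-! ### Degree zero -/

/-- The Laurent polynomials of degree zero. -/
noncomputable def DK_Z (k : Type*) [CommRing k] (l : ℕ) : Subalgebra k (LP k (Fin l)) where
  carrier := {f | f ∈ (Sup {ν : Fin l → ℤ | ∑ i, ν i = 0} : Submodule k (LP k (Fin l)))}
  mul_mem' := by
    intro f g hf hg
    refine mul_mem_Sup hf hg ?_
    intro x hx y hy
    have h1 : ∑ i, x i = 0 := hx
    have h2 : ∑ i, y i = 0 := hy
    show ∑ i, (x + y) i = 0
    simp only [Pi.add_apply, sum_add_distrib, h1, h2, add_zero]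
  add_mem' := by
    intro f g hf hg
    exact (Sup {ν : Fin l → ℤ | ∑ i, ν i = 0} : Submodule k (LP k (Fin l))).add_mem hf hg
  algebraMap_mem' := by
    intro r
    show algebraMap k (LP k (Fin l)) r ∈
      (Sup {ν : Fin l → ℤ | ∑ i, ν i = 0} : Submodule k (LP k (Fin l)))
    rw [Algebra.algebraMap_eq_smul_one]
    exact Submodule.smul_mem _ _ (one_mem_Sup (by simp))

theorem DK_mem_Z {l : ℕ} {f : LP k (Fin l)} :
    f ∈ DK_Z k l ↔ f ∈ (Sup {ν : Fin l → ℤ | ∑ i, ν i = 0} : Submodule k (LP k (Fin l))) :=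
  Iff.rfl

theorem DK_uu_mem {l : ℕ} (a b : Fin l) : (uu a b : LP k (Fin l)) ∈ DK_Z k l := by
  rw [DK_mem_Z]
  refine xp_mem_Sup ?_
  show ∑ i, al b a i = 0
  simp [al, sum_sub_distrib]

theorem DK_iv_mem {c : k} (hc : IsNilpotent c) {l : ℕ} (a b : Fin l) : iv c a b ∈ DK_Z k l := by
  obtain ⟨N, hN⟩ := hc
  rw [← DK_iv_eq hN]
  exact Subalgebra.sum_mem _ fun j _ => Subalgebra.smul_mem _ (Subalgebra.pow_mem _ (DK_uu_mem a b) _) _

theorem DK_WK_mem {q t : k} (hq : IsNilpotent q) (ht : IsNilpotent t) (l : ℕ) :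
    W q * Kh q t ∈ DK_Z k l := by
  unfold W Kh om
  refine Subalgebra.mul_mem _ (Subalgebra.prod_mem _ fun p _ => Subalgebra.mul_mem _
    (Subalgebra.sub_mem _ (Subalgebra.one_mem _) (DK_uu_mem _ _)) (DK_iv_mem hq _ _))
    (Subalgebra.mul_mem _ (Subalgebra.prod_mem _ fun p _ => Subalgebra.sub_mem _
      (Subalgebra.one_mem _) (Subalgebra.smul_mem _ (DK_uu_mem _ _) _))
      (Subalgebra.prod_mem _ fun p _ => DK_iv_mem ht _ _))

theorem DK_Psi_neg {l : ℕ} {b : Fin l → ℤ} (hb : ∑ i, b i < 0) {F : LP k (Fin l)}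
    (hF : F ∈ DK_Z k l) : Psi (k := k) (Λ := MvPolynomial ℕ k) ee (xp (-b) * F) = 0 := by
  refine Sup_induct (P := fun F => Psi (k := k) (Λ := MvPolynomial ℕ k) ee (xp (-b) * F) = 0)
    ?_ ?_ ?_ (DK_mem_Z.1 hF)
  · rw [mul_zero, map_zero]
  · intro f g hf hg
    rw [mul_add, map_add, hf, hg, add_zero]
  · intro c ν hν
    have h1 : ∑ i, ν i = 0 := hν
    rw [mul_smul_comm, map_smul, ← xp_add, DK_Psi_xp]
    have h2 : ∑ i, (-((-b + ν) i)) < 0 := by
      simp only [Pi.add_apply, Pi.neg_apply, neg_add, neg_neg, sum_add_distrib, sum_neg_distrib,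
        h1, neg_zero, add_zero]
      exact hb
    obtain ⟨i, -, hi⟩ := exists_lt_of_sum_lt (s := univ) (f := fun i => -((-b + ν) i))
      (g := fun _ => (0 : ℤ)) (by simpa using h2)
    rw [prod_eq_zero (mem_univ i) (DK_ee_neg hi), smul_zero]

/-! ### The formula for `DV` -/

theorem DK_Dop_sign (q t : k) (c : ℤ) (n : ℕ) (F : MvPolynomial ℕ k) :
    Dop q t c ((-1) ^ n * F) = (-1) ^ n * Dop q t c F := by
  rcases neg_one_pow_eq_or (MvPolynomial ℕ k) n with h | h
  · rw [h, one_mul, one_mul]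
  · rw [h, DK_Dop_eq, DK_Dop_eq]
    simp

theorem DK_main {q t : k} (hq : IsNilpotent q) (ht : IsNilpotent t) (m : ℕ) :
    ∀ b : Fin (m + 1) → ℤ, DV q t m b =
      (-1) ^ (∑ i, b i).natAbs * Psi (k := k) ee (xp (-b) * (W q * Kh q t)) := by
  induction m with
  | zero =>
    intro b
    have h1 : (W q : LP k (Fin 1)) = 1 := by
      unfold W
      refine prod_eq_one fun p hp => ?_
      exact absurd (mem_filter.1 hp).2 (by rw [Subsingleton.elim p.1 p.2]; exact lt_irrefl _)
    have h2 : (Kh q t : LP k (Fin 1)) = 1 := by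
      unfold Kh
      rw [prod_eq_one, prod_eq_one, one_mul]
      · intro p hp
        exact absurd (mem_filter.1 hp).2 (by rw [Subsingleton.elim p.1 p.2]; exact lt_irrefl _)
      · intro p hp
        exact absurd (mem_filter.1 hp).2 (by omega)
    simp only [DV]
    rw [DK_Dop_one, h1, h2, mul_one, mul_one, DK_Psi_xp]
    simp [se]
  | succ m ih =>
    intro b
    obtain ⟨N, hN1, hN2, hN3⟩ := DK_h_nilp hq ht
    have hmM : ∀ j, N + 1 ≤ j → mM q t j = 0 := by
      intro j hj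
      obtain ⟨i, rfl⟩ : ∃ i, j = i + 1 := ⟨j - 1, by omega⟩
      rw [DK_mM_succ, hN1 i (by omega), mul_zero]
    set R : LP k (Fin (m + 2)) := mE DK_eS (W q * Kh q t) *
      ∏ i : Fin (m + 1), ∑ j ∈ range (N + 1), ((-1) ^ j * mM q t j) • uu 0 i.succ ^ j with hR
    set b' : ℕ → Fin (m + 1) → ℤ := fun j =>
      Function.update (Fin.tail b) 0 (Fin.tail b 0 - j) with hb'
    have hsum : ∀ j, ∑ i, b' j i = (∑ i, Fin.tail b i) - j := by
      intro j
      rw [hb', Fin.sum_univ_succ, Fin.sum_univ_succ]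
      simp only [Function.update_self, Function.update_of_ne (Fin.succ_ne_zero _)]
      ring
    have hterm : ∀ j : ℕ, MvPolynomial.C ((q * t) ^ j) * Dop q t (b 0 + j) (DV q t m (b' j)) =
        (-1) ^ (∑ i, b i).natAbs *
          Psi (k := k) ee (xp (-b) * ((q * t) ^ j • (uu 0 1) ^ j) * R) := by
      intro j
      rw [ih, DK_Dop_sign, DK_step hmM, ← mul_assoc ((-1) ^ (∑ i, b' j i).natAbs), ← DK_sign, hsum]
      have e1 : ∑ i, Fin.tail b i - (j : ℤ) + (b 0 + j) = ∑ i, b i := by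
        rw [Fin.sum_univ_succ b]
        simp only [Fin.tail]
        ring
      rw [e1]
      have e2 : (xp (Pi.single 0 (-(b 0 + (j : ℤ)))) * mE DK_eS (xp (-(b' j)) * (W q * Kh q t)) *
          ∏ i : Fin (m + 1), ∑ j ∈ range (N + 1), ((-1) ^ j * mM q t j) • uu 0 i.succ ^ j :
          LP k (Fin (m + 2))) = xp (-b) * (uu 0 1) ^ j * R := by
        rw [map_mul, mE_xp, hR]
        have e3 : (xp (Pi.single 0 (-(b 0 + (j : ℤ)))) * xp (DK_eS (-(b' j))) :
            LP k (Fin (m + 2))) = xp (-b) * (uu 0 1) ^ j := by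
          rw [DK_uu_pow, ← xp_add, ← xp_add]
          congr 1
          funext i
          refine Fin.cases ?_ (fun i => ?_) i
          · simp only [Pi.add_apply, Pi.single_eq_same, DK_eS_zero, Pi.neg_apply, Pi.smul_apply]
            rw [← Fin.succ_zero_eq_one, DK_al_zero]
            simp
            ring
          · simp only [Pi.add_apply, DK_eS_succ, Pi.neg_apply, Pi.smul_apply]
            rw [← Fin.succ_zero_eq_one, DK_al_succ, Pi.single_eq_of_ne (Fin.succ_ne_zero i)]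
            by_cases hi : i = 0
            · subst hi
              simp [hb', Fin.tail]
              ring
            · simp [hb', Fin.tail, hi]
        rw [← mul_assoc, ← mul_assoc, e3]
      rw [e2, mul_smul_comm, smul_mul_assoc, map_smul, MvPolynomial.smul_eq_C_mul]
      ring
    have hDV : DV q t (m + 1) b = ∑ j ∈ range ((∑ i, Fin.tail b i).toNat + 1),
        MvPolynomial.C ((q * t) ^ j) * Dop q t (b 0 + j) (DV q t m (b' j)) := rfl
    rw [hDV, DK_sum_range (b := N)]
    · simp only [hterm]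
      rw [← mul_sum, ← map_sum, ← sum_mul, ← mul_sum, DK_iv_eq (hN3 N le_rfl),
        DK_recursion hq ht (hN1 N le_rfl) (hN2 N le_rfl) m, hR]
      simp only [mul_assoc]
    · intro j hj
      rw [ih, DK_Psi_neg, mul_zero, DK_Dop_eq, map_zero, map_zero, mul_zero]
      · rw [hsum]
        have := Int.self_le_toNat (∑ i, Fin.tail b i)
        omega
      · exact DK_WK_mem hq ht _
    · intro j hj
      rw [hN3 j hj, map_zero, zero_mul]

/-! ## D1 (file DK.lean): the elements `D_b · 1` (uses C1) -/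

theorem EV_eq_Psi {q t : k} (hq : IsNilpotent q) (ht : IsNilpotent t) {m : ℕ} (b : Fin (m + 1) → ℤ)
    (hb : 0 ≤ ∑ i, b i) : EV q t b = Psi (k := k) ee (xp (-b) * W q * Kh q t) := by
  unfold EV
  rw [DK_main hq ht, ← mul_assoc, ← mul_pow, mul_assoc (xp (-b))]
  simp

theorem EV_map {k' : Type*} [CommRing k'] (φ : k →+* k') (q t : k) {m : ℕ} (b : Fin (m + 1) → ℤ) :
    MvPolynomial.map φ (EV q t b) = EV (φ q) (φ t) b := by
  unfold EV
  rw [map_mul, DK_DV_map]
  simp

theorem EV_snoc_zero (q t : k) {m : ℕ} (b : Fin (m + 1) → ℤ) :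
    EV q t (Fin.snoc b 0 : Fin (m + 2) → ℤ) = EV q t b := by
  unfold EV
  rw [DK_DV_snoc]
  have h4 : ∑ i, (Fin.snoc b 0 : Fin (m + 2) → ℤ) i = ∑ i, b i := by
    rw [Fin.sum_univ_castSucc]
    simp
  rw [h4]

theorem EV_symm (q t : k) {m : ℕ} (b : Fin (m + 1) → ℤ) : EV q t b = EV t q b := by
  unfold EV
  rw [DK_DV_comm]

end

end Pool.Agent.Helper95.SH
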