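import Pool.Agent.Helper95.SH.HR2

namespace Pool.Agent.Helper95.SH

open Finset

section
variable {k : Type*} [CommRing k] {l : ℕ}

/-! ## H3 (file HB.lean): the family `B` (uses H1, H2) -/

theorem Adj.ne {a b : Fin l} (h : Adj a b) : a ≠ b := by
  rintro rfl
  unfold Adj at h
  omega

theorem Adj.lt {a b : Fin l} (h : Adj a b) : a < b := by
  unfold Adj at h
  rw [Fin.lt_def]
  omega

theorem Gen.injective {γ : Fin l → ℝ} (h : Gen γ) : Function.Injective γ := by
  intro i j hij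
  by_contra hne
  exact h i j hne 0 (by rw [hij, sub_self, Int.cast_zero])

theorem Gen.comp {γ : Fin l → ℝ} (h : Gen γ) (σ : Equiv.Perm (Fin l)) : Gen (γ ∘ σ) :=
  fun i j hij z => h (σ i) (σ j) (fun he => hij (σ.injective he)) z

theorem Gen.sh {γ : Fin l → ℝ} (h : Gen γ) (κ : Fin l → ℤ) : Gen (sh γ κ) := by
  intro i j hij z hz
  refine h i j hij (z - κ i + κ j) ?_
  unfold SH.sh at hz
  push_cast
  linear_combination hz

theorem Gen.neg {γ : Fin l → ℝ} (h : Gen γ) : Gen (fun i => -γ i) := by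
  intro i j hij z hz
  refine h i j hij (-z) ?_
  push_cast
  linear_combination -hz

theorem Gen.ceil_neg {γ : Fin l → ℝ} (h : Gen γ) {a b : Fin l} (hab : a ≠ b) :
    ⌈γ a - γ b⌉ = 1 - ⌈γ b - γ a⌉ := by
  have h1 : γ b - γ a = -(γ a - γ b) := by ring
  rw [h1, Int.ceil_neg, sub_neg_eq_add, Int.ceil_eq_iff]
  push_cast
  constructor
  · have h2 := Int.floor_le (γ a - γ b)
    rcases h2.lt_or_eq with h3 | h3
    · linarith
    · exact absurd h3.symm (h a b hab _)
  · have h2 := Int.lt_floor_add_one (γ a - γ b)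
    linarith

theorem sh_comp (γ : Fin l → ℝ) (κ : Fin l → ℤ) (σ : Equiv.Perm (Fin l)) :
    sh γ κ ∘ σ = sh (γ ∘ σ) (κ ∘ σ) := rfl

theorem HB_swap_lt {a b i j : Fin l} (hab : Adj a b) (hij : i < j) (hne : ¬ (i = a ∧ j = b)) :
    Equiv.swap a b i < Equiv.swap a b j := by
  unfold Adj at hab
  rw [Fin.lt_def] at hij ⊢
  simp only [Equiv.swap_apply_def]
  simp only [Fin.ext_iff] at hne ⊢
  split_ifs <;> simp_all <;> omega

theorem HB_comp_swap_swap {α : Type*} (γ : Fin l → α) (a b : Fin l) :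
    (γ ∘ Equiv.swap a b) ∘ Equiv.swap a b = γ := by
  funext i
  simp

theorem ninv_swap {γ : Fin l → ℝ} {a b : Fin l} (hab : Adj a b) (h : γ b < γ a) :
    ninv (γ ∘ Equiv.swap a b) + 1 = ninv γ := by
  classical
  unfold ninv
  have hmem : (a, b) ∈ univ.filter fun p : Fin l × Fin l => p.1 < p.2 ∧ γ p.2 < γ p.1 := by
    rw [Finset.mem_filter]
    exact ⟨Finset.mem_univ _, hab.lt, h⟩
  rw [← Finset.card_erase_add_one hmem]
  congr 1
  refine Finset.card_nbij' (fun p => (Equiv.swap a b p.1, Equiv.swap a b p.2))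
    (fun p => (Equiv.swap a b p.1, Equiv.swap a b p.2)) ?_ ?_ ?_ ?_
  · rintro ⟨i, j⟩ hp
    rw [Finset.mem_coe, Finset.mem_filter] at hp
    obtain ⟨-, h1, h2⟩ := hp
    simp only [Function.comp_apply] at h1 h2
    rw [Finset.mem_coe, Finset.mem_erase, Finset.mem_filter]
    have h3 : ¬ (i = a ∧ j = b) := by
      rintro ⟨rfl, rfl⟩
      rw [Equiv.swap_apply_left, Equiv.swap_apply_right] at h2
      exact lt_asymm h h2
    refine ⟨?_, Finset.mem_univ _, HB_swap_lt hab h1 h3, h2⟩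
    intro h4
    rw [Prod.mk.injEq] at h4
    obtain ⟨h5, h6⟩ := h4
    have h7 : i = b := (Equiv.swap a b).injective (h5.trans (Equiv.swap_apply_right a b).symm)
    have h8 : j = a := (Equiv.swap a b).injective (h6.trans (Equiv.swap_apply_left a b).symm)
    rw [h7, h8] at h1
    exact lt_asymm h1 hab.lt
  · rintro ⟨i, j⟩ hp
    rw [Finset.mem_coe, Finset.mem_erase, Finset.mem_filter] at hp
    obtain ⟨h0, -, h1, h2⟩ := hp
    simp only at h1 h2
    rw [Finset.mem_coe, Finset.mem_filter]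
    refine ⟨Finset.mem_univ _, HB_swap_lt hab h1 (fun h3 => h0 (Prod.ext h3.1 h3.2)), ?_⟩
    simpa only [Function.comp_apply, Equiv.swap_apply_self] using h2
  · rintro ⟨i, j⟩ _
    simp
  · rintro ⟨i, j⟩ _
    simp

theorem HB_BF_zero (q : k) (γ : Fin l → ℝ) : BF q 0 γ = 1 := rfl

theorem HB_BF_none (q : k) {γ : Fin l → ℝ} (h : ∀ a b, Adj a b → ¬ γ b < γ a) (n : ℕ) :
    BF q n γ = 1 := by
  cases n with
  | zero => rfl
  | succ n =>
    rw [BF, dif_neg]
    rintro ⟨p, h1, h2⟩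
    exact h _ _ h1 h2

theorem B_mono (q : k) {γ : Fin l → ℝ} (h : StrictMono γ) : B q γ = 1 :=
  HB_BF_none q (fun _ _ hab => not_lt.2 (h hab.lt).le) _

theorem HB_choice (q : k) {γ : Fin l → ℝ} (h : ∃ a b, Adj a b ∧ γ b < γ a) :
    ∃ a b, Adj a b ∧ γ b < γ a ∧
      B q γ = R q a b ⌈γ a - γ b⌉ (B q (γ ∘ Equiv.swap a b)) := by
  have h' : ∃ p : Fin l × Fin l, Adj p.1 p.2 ∧ γ p.2 < γ p.1 := by
    obtain ⟨a, b, h1, h2⟩ := h
    exact ⟨(a, b), h1, h2⟩
  refine ⟨h'.choose.1, h'.choose.2, h'.choose_spec.1, h'.choose_spec.2, ?_⟩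
  have h1 := ninv_swap h'.choose_spec.1 h'.choose_spec.2
  unfold B
  rw [← h1, BF, dif_pos h']

theorem HB_ceil_add (x y : ℝ) : ⌈x + y⌉ = ⌈x⌉ + ⌈y⌉ ∨ ⌈x + y⌉ = ⌈x⌉ + ⌈y⌉ - 1 := by
  have h1 := Int.ceil_add_le x y
  have h2 := Int.ceil_add_ceil_le x y
  omega

theorem HB_adj_cases {a b c d : Fin l} (h1 : Adj a b) (h2 : Adj c d) :
    (a = c ∧ b = d) ∨ b = c ∨ d = a ∨ (a ≠ c ∧ a ≠ d ∧ b ≠ c ∧ b ≠ d) := by
  unfold Adj at h1 h2
  simp only [Fin.ext_iff, ne_eq]
  omega

theorem HB_pair (q : k) {γ : Fin l → ℝ} (hγ : Function.Injective γ)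
    (IH : ∀ γ' : Fin l → ℝ, Function.Injective γ' → ninv γ' < ninv γ → ∀ a b, Adj a b →
      γ' b < γ' a → B q γ' = R q a b ⌈γ' a - γ' b⌉ (B q (γ' ∘ Equiv.swap a b)))
    {a b d : Fin l} (hab : Adj a b) (hbd : Adj b d) (h1 : γ b < γ a) (h2 : γ d < γ b) :
    R q a b ⌈γ a - γ b⌉ (B q (γ ∘ Equiv.swap a b)) =
      R q b d ⌈γ b - γ d⌉ (B q (γ ∘ Equiv.swap b d)) := by
  have hne1 := hab.ne
  have hne2 := hbd.ne
  have hne3 : a ≠ d := (hab.lt.trans hbd.lt).ne
  have n1 := ninv_swap hab h1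
  have n2 := ninv_swap hbd h2
  have i1 : Function.Injective (γ ∘ Equiv.swap a b) := hγ.comp (Equiv.injective _)
  have i2 : Function.Injective (γ ∘ Equiv.swap b d) := hγ.comp (Equiv.injective _)
  -- first side
  have v1 : (γ ∘ Equiv.swap a b) b = γ a := by simp
  have v2 : (γ ∘ Equiv.swap a b) d = γ d := by
    rw [Function.comp_apply, Equiv.swap_apply_of_ne_of_ne hne3.symm hne2.symm]
  have v3 : (γ ∘ Equiv.swap a b) a = γ b := by simp
  have lt1 : (γ ∘ Equiv.swap a b) d < (γ ∘ Equiv.swap a b) b := by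
    rw [v1, v2]; exact h2.trans h1
  have e1 := IH _ i1 (by omega) b d hbd lt1
  have n3 := ninv_swap hbd lt1
  have w1 : ((γ ∘ Equiv.swap a b) ∘ Equiv.swap b d) a = γ b := by
    rw [Function.comp_apply, Equiv.swap_apply_of_ne_of_ne hne1 hne3, v3]
  have w2 : ((γ ∘ Equiv.swap a b) ∘ Equiv.swap b d) b = γ d := by
    rw [Function.comp_apply, Equiv.swap_apply_left, v2]
  have e2 := IH _ (i1.comp (Equiv.injective (Equiv.swap b d))) (by omega) a b hab
    (by rw [w1, w2]; exact h2)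
  rw [v1, v2] at e1
  rw [w1, w2] at e2
  -- second side
  have v1' : (γ ∘ Equiv.swap b d) b = γ d := by simp
  have v2' : (γ ∘ Equiv.swap b d) a = γ a := by
    rw [Function.comp_apply, Equiv.swap_apply_of_ne_of_ne hne1 hne3]
  have v3' : (γ ∘ Equiv.swap b d) d = γ b := by simp
  have lt1' : (γ ∘ Equiv.swap b d) b < (γ ∘ Equiv.swap b d) a := by
    rw [v1', v2']; exact h2.trans h1
  have e1' := IH _ i2 (by omega) a b hab lt1'
  have n3' := ninv_swap hab lt1'
  have w1' : ((γ ∘ Equiv.swap b d) ∘ Equiv.swap a b) b = γ a := by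
    rw [Function.comp_apply, Equiv.swap_apply_right, v2']
  have w2' : ((γ ∘ Equiv.swap b d) ∘ Equiv.swap a b) d = γ b := by
    rw [Function.comp_apply, Equiv.swap_apply_of_ne_of_ne hne3.symm hne2.symm, v3']
  have e2' := IH _ (i2.comp (Equiv.injective (Equiv.swap a b))) (by omega) b d hbd
    (by rw [w1', w2']; exact h1)
  rw [v1', v2'] at e1'
  rw [w1', w2'] at e2'
  have e3 : ((γ ∘ Equiv.swap a b) ∘ Equiv.swap b d) ∘ Equiv.swap a b =
      ((γ ∘ Equiv.swap b d) ∘ Equiv.swap a b) ∘ Equiv.swap b d := by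
    have h3 : Equiv.swap a b * Equiv.swap b d * Equiv.swap a b =
        Equiv.swap b d * Equiv.swap a b * Equiv.swap b d := by
      have h4 := Equiv.swap_mul_swap_mul_swap hne1 hne3
      have h5 := Equiv.swap_mul_swap_mul_swap hne2.symm hne3.symm
      rw [Equiv.swap_comm b a, Equiv.swap_comm d b] at h5
      rw [h4, h5, Equiv.swap_comm]
    have h4 : ∀ i, Equiv.swap a b (Equiv.swap b d (Equiv.swap a b i)) =
      Equiv.swap b d (Equiv.swap a b (Equiv.swap b d i)) := fun i => Equiv.congr_fun h3 i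
    funext i
    simp only [Function.comp_apply, h4]
  rw [e1, e2, e1', e2', e3]
  exact R_braid q hne1 hne2 hne3 (by
    have h5 : γ a - γ d = (γ b - γ d) + (γ a - γ b) := by ring
    rw [h5]
    exact HB_ceil_add _ _) _

theorem HB_diamond (q : k) (n : ℕ) : ∀ γ : Fin l → ℝ, Function.Injective γ → ninv γ = n →
    ∀ a b, Adj a b → γ b < γ a → B q γ = R q a b ⌈γ a - γ b⌉ (B q (γ ∘ Equiv.swap a b)) := by
  induction n using Nat.strong_induction_on with
  | _ n ih =>
    intro γ hγ hn a b hab h1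
    have IH : ∀ γ' : Fin l → ℝ, Function.Injective γ' → ninv γ' < ninv γ → ∀ a b, Adj a b →
      γ' b < γ' a → B q γ' = R q a b ⌈γ' a - γ' b⌉ (B q (γ' ∘ Equiv.swap a b)) :=
      fun γ' h2 h3 => ih (ninv γ') (hn ▸ h3) γ' h2 rfl
    obtain ⟨c, d, hcd, h2, h3⟩ := HB_choice q ⟨a, b, hab, h1⟩
    rw [h3]
    rcases HB_adj_cases hab hcd with ⟨rfl, rfl⟩ | rfl | rfl | ⟨n1, n2, n3, n4⟩
    · rfl
    · exact (HB_pair q hγ IH hab hcd h1 h2).symm
    · exact HB_pair q hγ IH hcd hab h2 h1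
    · have m1 := ninv_swap hab h1
      have m2 := ninv_swap hcd h2
      have i1 : Function.Injective (γ ∘ Equiv.swap a b) := hγ.comp (Equiv.injective _)
      have i2 : Function.Injective (γ ∘ Equiv.swap c d) := hγ.comp (Equiv.injective _)
      have v1 : (γ ∘ Equiv.swap a b) c = γ c := by
        rw [Function.comp_apply, Equiv.swap_apply_of_ne_of_ne n1.symm n3.symm]
      have v2 : (γ ∘ Equiv.swap a b) d = γ d := by
        rw [Function.comp_apply, Equiv.swap_apply_of_ne_of_ne n2.symm n4.symm]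
      have v1' : (γ ∘ Equiv.swap c d) a = γ a := by
        rw [Function.comp_apply, Equiv.swap_apply_of_ne_of_ne n1 n2]
      have v2' : (γ ∘ Equiv.swap c d) b = γ b := by
        rw [Function.comp_apply, Equiv.swap_apply_of_ne_of_ne n3 n4]
      have e1 := IH _ i1 (by omega) c d hcd (by rw [v1, v2]; exact h2)
      have e2 := IH _ i2 (by omega) a b hab (by rw [v1', v2']; exact h1)
      rw [v1, v2] at e1
      rw [v1', v2'] at e2
      have e3 : (γ ∘ Equiv.swap c d) ∘ Equiv.swap a b = (γ ∘ Equiv.swap a b) ∘ Equiv.swap c d := by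
        funext i
        simp only [Function.comp_apply]
        congr 1
        simp only [Equiv.swap_apply_def]
        split_ifs <;> simp_all
      rw [e1, e2, e3]
      exact R_comm q hcd.ne hab.ne n1.symm n3.symm n2.symm n4.symm _ _ _

theorem B_swap (q : k) {γ : Fin l → ℝ} (hγ : Function.Injective γ) {a b : Fin l} (hab : Adj a b)
    (h : γ a < γ b) : B q (γ ∘ Equiv.swap a b) = R q a b ⌈γ b - γ a⌉ (B q γ) := by
  have h1 := HB_diamond q _ (γ ∘ Equiv.swap a b) (hγ.comp (Equiv.injective _)) rfl a b hab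
    (by simpa using h)
  rw [HB_comp_swap_swap] at h1
  simpa using h1

theorem R_B (q : k) {γ : Fin l → ℝ} (hγ : Gen γ) {a b : Fin l} (hab : Adj a b) :
    R q a b ⌈γ b - γ a⌉ (B q γ) = (if γ b < γ a then q else 1) • B q (γ ∘ Equiv.swap a b) := by
  split_ifs with h
  · rw [HB_diamond q _ γ hγ.injective rfl a b hab h, hγ.ceil_neg hab.ne.symm]
    exact R_quad q hab.ne _ _
  · have h1 : γ a < γ b := lt_of_le_of_ne (not_lt.1 h) (hγ.injective.ne hab.ne)
    rw [one_smul, B_swap q hγ.injective hab h1]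

theorem HB_strictMono {γ : Fin l → ℝ} (hγ : Function.Injective γ)
    (h : ∀ a b, Adj a b → ¬ γ b < γ a) : StrictMono γ := by
  cases l with
  | zero => exact Subsingleton.strictMono _
  | succ l =>
    rw [Fin.strictMono_iff_lt_succ]
    intro i
    have h1 : Adj i.castSucc i.succ := by
      unfold Adj
      simp
    exact lt_of_le_of_ne (not_lt.1 (h _ _ h1)) (hγ.ne h1.ne)

/-- Induction along sorting, for generic vectors. -/
theorem sort_induct {P : (Fin l → ℝ) → Prop} (h0 : ∀ γ, Gen γ → StrictMono γ → P γ)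
    (h1 : ∀ γ, Gen γ → ∀ a b, Adj a b → γ a < γ b → P γ → P (γ ∘ Equiv.swap a b))
    {γ : Fin l → ℝ} (hγ : Gen γ) : P γ := by
  obtain ⟨n, hn⟩ : ∃ n, ninv γ = n := ⟨_, rfl⟩
  induction n using Nat.strong_induction_on generalizing γ with
  | _ n ih =>
    by_cases h : ∀ a b, Adj a b → ¬ γ b < γ a
    · exact h0 γ hγ (HB_strictMono hγ.injective h)
    · push Not at h
      obtain ⟨a, b, hab, h2⟩ := h
      have h3 := ninv_swap hab h2
      have h4 := h1 (γ ∘ Equiv.swap a b) (hγ.comp _) a b hab (by simpa using h2)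
        (ih _ (by omega) (hγ.comp _) rfl)
      rwa [HB_comp_swap_swap] at h4

theorem HB_BF_mp {k' : Type*} [CommRing k'] (φ : k →+* k') (q : k) (n : ℕ) (γ : Fin l → ℝ) :
    mp φ (BF q n γ) = BF (φ q) n γ := by
  induction n generalizing γ with
  | zero => exact map_one _
  | succ n ih =>
    rw [BF, BF]
    split_ifs with h
    · rw [R_mp, ih]
    · exact map_one _

theorem B_mp {k' : Type*} [CommRing k'] (φ : k →+* k') (q : k) (γ : Fin l → ℝ) :
    mp φ (B q γ) = B (φ q) γ := HB_BF_mp φ q _ γ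

open Classical in
/-- One step of the definition of `BF`. -/
noncomputable def HB_step (P : Fin l × Fin l → Prop) (G : Fin l → Fin l → LP k (Fin l)) :
    LP k (Fin l) :=
  if h : ∃ p, P p then G h.choose.1 h.choose.2 else 1

theorem HB_BF_succ (q : k) (n : ℕ) (γ : Fin l → ℝ) : BF q (n + 1) γ =
    HB_step (fun p => Adj p.1 p.2 ∧ γ p.2 < γ p.1)
      (fun a b => R q a b ⌈γ a - γ b⌉ (BF q n (γ ∘ Equiv.swap a b))) := by
  by_cases h : ∃ p : Fin l × Fin l, Adj p.1 p.2 ∧ γ p.2 < γ p.1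
  · rw [BF, HB_step, dif_pos h, dif_pos h]
  · rw [BF, HB_step, dif_neg h, dif_neg h]

theorem HB_BF_const (q : k) (c : ℝ) (n : ℕ) (γ : Fin l → ℝ) :
    BF q n (fun i => γ i + c) = BF q n γ := by
  induction n generalizing γ with
  | zero => rfl
  | succ n ih =>
    rw [HB_BF_succ, HB_BF_succ]
    congr 1
    · funext p
      simp only [add_lt_add_iff_right]
    · funext a b
      rw [add_sub_add_right_eq_sub, ← ih (γ ∘ Equiv.swap a b)]
      rfl

theorem B_const (q : k) (γ : Fin l → ℝ) (c : ℝ) : B q (fun i => γ i + c) = B q γ := by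
  unfold B
  rw [HB_BF_const]
  congr 1
  unfold ninv
  simp only [add_lt_add_iff_right]

end

end Pool.Agent.Helper95.SH
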