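import Pool.Agent.Helper95.SH.Basic

/-!
# Hecke operators on Laurent polynomials and the family `B`

`q : k` is the Hecke parameter, `t : k` the area parameter.
-/

namespace Pool.Agent.Helper95.SH

open Finset

section

variable {k : Type*} [CommRing k]

section
variable {ι : Type*} [DecidableEq ι]

/-- The root `ε_a - ε_b`. -/
def al (a b : ι) : ι → ℤ := Pi.single a 1 - Pi.single b 1

/-- `uu a b = x_b / x_a`. -/
noncomputable def uu (a b : ι) : LP k ι := xp (al b a)

/-- `rr q a b N = ((1 - q u) - (1 - q) u ^ N) / (1 - u)` with `u = uu a b`. -/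
noncomputable def rr (q : k) (a b : ι) (N : ℤ) : LP k ι :=
  if 0 < N then 1 + (1 - q) • ∑ j ∈ range (N - 1).toNat, xp (((j : ℤ) + 1) • al b a)
  else q • 1 - (1 - q) • ∑ j ∈ range (-N).toNat, xp ((-((j : ℤ) + 1)) • al b a)

/-- The Hecke operator `R q a b n f = ((1 - q u) s f - (1 - q) u ^ n f) / (1 - u)`, where `u = uu a b`
and `s` is the swap of the variables `a`, `b`. -/
noncomputable def R (q : k) (a b : ι) (n : ℤ) : LP k ι →ₗ[k] LP k ι :=
  mkLin fun ν => xp (ν ∘ Equiv.swap a b) * rr q a b (n + ν b - ν a)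

theorem R_xp (q : k) (a b : ι) (n : ℤ) (ν : ι → ℤ) :
    R q a b n (xp ν) = xp (ν ∘ Equiv.swap a b) * rr q a b (n + ν b - ν a) := mkLin_xp _ _

/-- `zi i = x_i⁻¹`. -/
noncomputable def zi (i : ι) : LP k ι := xp (-(Pi.single i 1))

end

section
variable {l : ℕ}

/-- Adjacent positions. -/
def Adj (a b : Fin l) : Prop := (a : ℕ) + 1 = b

/-- Generic vectors: no difference of two entries is an integer. -/
def Gen (γ : Fin l → ℝ) : Prop := ∀ i j, i ≠ j → ∀ z : ℤ, γ i - γ j ≠ z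

/-- Number of inversions. -/
noncomputable def ninv (γ : Fin l → ℝ) : ℕ :=
  (univ.filter fun p : Fin l × Fin l => p.1 < p.2 ∧ γ p.2 < γ p.1).card

open Classical in
/-- The family `B`, with fuel. -/
noncomputable def BF (q : k) : ℕ → (Fin l → ℝ) → LP k (Fin l)
  | 0, _ => 1
  | n + 1, γ =>
    if h : ∃ p : Fin l × Fin l, Adj p.1 p.2 ∧ γ p.2 < γ p.1 then
      R q h.choose.1 h.choose.2 ⌈γ h.choose.1 - γ h.choose.2⌉
        (BF q n (γ ∘ Equiv.swap h.choose.1 h.choose.2))
    else 1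

/-- The family `B`: `B q γ = 1` for increasing `γ`, and `R` exchanges adjacent entries. -/
noncomputable def B (q : k) (γ : Fin l → ℝ) : LP k (Fin l) := BF q (ninv γ) γ

/-- `γ + κ` for an integer vector `κ`. -/
def sh (γ : Fin l → ℝ) (κ : Fin l → ℤ) : Fin l → ℝ := fun i => γ i + κ i

/-- The square of the norm. -/
noncomputable def nsq (γ : Fin l → ℝ) : ℝ := ∑ i, γ i ^ 2

/-- Positive combinations of the `x ^ κ B (γ + κ)`, `κ ≥ 0`. -/
noncomputable def Zp (S : Subsemiring k) (q : k) (γ : Fin l → ℝ) : AddSubmonoid (LP k (Fin l)) :=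
  AddSubmonoid.closure {f | ∃ c ∈ S, ∃ κ : Fin l → ℤ, (∀ i, 0 ≤ κ i) ∧ f = c • (xp κ * B q (sh γ κ))}

/-- The homogeneous part of degree `n` of the product of the series `∑ e_n x_i ^ n`. -/
noncomputable def Om (e : ℤ → k) (n : ℕ) : LP k (Fin l) :=
  ∑ ν ∈ Finset.piAntidiag univ n, (∏ i, e (ν i)) • xp (fun i => (ν i : ℤ))

/-- The inverse of `1 - c x_b / x_a` (for nilpotent `c`). -/
noncomputable def iv (c : k) (a b : Fin l) : LP k (Fin l) := Ring.inverse (1 - c • uu a b)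

/-- The factor of the weight for a pair. -/
noncomputable def om (q : k) (a b : Fin l) : LP k (Fin l) := (1 - uu a b) * iv q a b

/-- The weight `∏ (1 - x_b / x_a) / (1 - q x_b / x_a)` over `a < b`. -/
noncomputable def W (q : k) : LP k (Fin l) :=
  ∏ p ∈ univ.filter (fun p : Fin l × Fin l => p.1 < p.2), om q p.1 p.2

/-- The kernel `∏ (1 - q t x_b / x_a) / ∏ (1 - t x_b / x_a)`; the first product over `a + 1 < b`, the
second over `a < b`. -/
noncomputable def Kh (q t : k) : LP k (Fin l) :=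
  (∏ p ∈ univ.filter (fun p : Fin l × Fin l => (p.1 : ℕ) + 1 < p.2), (1 - (q * t) • uu p.1 p.2)) *
  ∏ p ∈ univ.filter (fun p : Fin l × Fin l => p.1 < p.2), iv t p.1 p.2

/-- The reproducing kernel `∏_{i < j} (1 - q y_j / z_i) / ∏_{i ≤ j} (1 - y_j / z_i)`. -/
noncomputable def KK (q : k) (y : Fin l → k) : LP k (Fin l) :=
  (∏ p ∈ univ.filter (fun p : Fin l × Fin l => p.1 < p.2), (1 - (q * y p.2) • zi p.1)) *
  ∏ p ∈ univ.filter (fun p : Fin l × Fin l => p.1 ≤ p.2), Ring.inverse (1 - y p.2 • zi p.1)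

/-- Evaluation at `y` (monomials with a negative exponent are sent to `0`). -/
noncomputable def evn (y : Fin l → k) : LP k (Fin l) →ₗ[k] k :=
  mkLin fun ν => if ∀ i, 0 ≤ ν i then ∏ i, y i ^ (ν i).toNat else 0

/-- The linear functional `x ^ (-ν) ↦ ∏ e_(ν_i)`. -/
noncomputable def Psi {Λ : Type*} [CommRing Λ] [Algebra k Λ] (e : ℤ → Λ) : LP k (Fin l) →ₗ[k] Λ :=
  mkLin fun ν => ∏ i, e (-(ν i))

end

end

end Pool.Agent.Helper95.SH
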