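import Pool.Agent.Helper95.SH.HDefs

namespace Pool.Agent.Helper95.SH

open Finset

section H1
variable {k : Type*} [CommRing k] {ι : Type*} [DecidableEq ι]

/-! ## H1 (file HR1.lean): basic properties of the Hecke operators -/

theorem al_apply_left {a b : ι} (hab : a ≠ b) : al a b a = 1 := by
  simp [al, Pi.single_apply, hab]
theorem al_apply_right {a b : ι} (hab : a ≠ b) : al a b b = -1 := by
  simp [al, Pi.single_apply, hab.symm]
theorem al_apply_other {a b i : ι} (ha : i ≠ a) (hb : i ≠ b) : al a b i = 0 := by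
  simp [al, Pi.single_apply, ha, hb]

theorem HR1_al_neg (a b : ι) : al b a = -al a b := by
  unfold al
  abel

theorem comp_swap_eq (a b : ι) (ν : ι → ℤ) :
    ν ∘ Equiv.swap a b = ν + (ν b - ν a) • al a b := by
  funext i
  by_cases hab : a = b
  · subst hab
    simp
  · by_cases hi : i = a
    · subst hi
      simp [al_apply_left hab]
    · by_cases hi' : i = b
      · subst hi'
        simp [al_apply_right hab]
      · simp [Equiv.swap_apply_of_ne_of_ne hi hi', al_apply_other hi hi']

theorem pa_swap_xp (a b : ι) (ν : ι → ℤ) :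
    pa (Equiv.swap a b) (xp ν : LP k ι) = xp (ν ∘ Equiv.swap a b) := by
  rw [pa_xp, Equiv.symm_swap]

theorem one_sub_uu_regular {a b : ι} (hab : a ≠ b) {f : LP k ι} (h : (1 - uu a b) * f = 0) :
    f = 0 := by
  have h1 : f = uu a b * f := by
    rw [sub_mul, one_mul, sub_eq_zero] at h
    exact h
  have h2 : ∀ ν, co ν f = co (ν + al a b) f := by
    intro ν
    conv_lhs => rw [h1]
    unfold uu
    rw [co_xp_mul, HR1_al_neg a b, sub_neg_eq_add]
  refine LP.ext fun ν => ?_
  rw [map_zero]
  by_contra hν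
  have h3 : ∀ n : ℕ, co (ν + n • al a b) f = co ν f := by
    intro n
    induction n with
    | zero => rw [zero_smul, add_zero]
    | succ n ih => rw [← ih, succ_nsmul, ← add_assoc, ← h2]
  have h4 : Function.Injective fun n : ℕ => ν + n • al a b := by
    intro n m hnm
    have := congrFun hnm a
    simpa [al_apply_left hab] using this
  have h5 : ∀ n : ℕ, ν + n • al a b ∈ (f.coeff.support : Set (ι → ℤ)) := by
    intro n
    refine Finset.mem_coe.2 (Finsupp.mem_support_iff.2 ?_)
    show co (ν + n • al a b) f ≠ 0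
    rw [h3]
    exact hν
  exact (Set.infinite_of_injective_forall_mem h4 h5) (Finset.finite_toSet _)

theorem HR1_geom1 (a b : ι) (m : ℕ) : (1 - uu a b) *
    ∑ j ∈ range m, (xp (((j : ℤ) + 1) • al b a) : LP k ι) =
      xp ((1 : ℤ) • al b a) - xp (((m : ℤ) + 1) • al b a) := by
  induction m with
  | zero => simp
  | succ m ih =>
    rw [Finset.sum_range_succ, mul_add, ih]
    have : (xp ((((m + 1 : ℕ) : ℤ) + 1) • al b a) : LP k ι) =
        uu a b * xp (((m : ℤ) + 1) • al b a) := by
      unfold uu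
      rw [← xp_add]
      congr 1
      push_cast
      module
    rw [this]
    ring

theorem HR1_geom2 (a b : ι) (m : ℕ) : (1 - uu a b) *
    ∑ j ∈ range m, (xp ((-((j : ℤ) + 1)) • al b a) : LP k ι) =
      xp ((-(m : ℤ)) • al b a) - 1 := by
  induction m with
  | zero => simp [xp_zero]
  | succ m ih =>
    rw [Finset.sum_range_succ, mul_add, ih]
    have : (xp ((-(m : ℤ)) • al b a) : LP k ι) =
        uu a b * xp ((-((m : ℤ) + 1)) • al b a) := by
      unfold uu
      rw [← xp_add]
      congr 1
      module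
    rw [this]
    push_cast
    ring

theorem rr_key (q : k) (a b : ι) (N : ℤ) :
    (1 - uu a b) * rr q a b N = (1 - q • uu a b) - (1 - q) • xp (N • al b a) := by
  unfold rr
  split_ifs with hN
  · obtain ⟨m, rfl⟩ : ∃ m : ℕ, N = m + 1 := ⟨(N - 1).toNat, by omega⟩
    have h1 : ((m : ℤ) + 1 - 1).toNat = m := by omega
    rw [h1, mul_add, mul_smul_comm, HR1_geom1]
    have h2 : (xp ((1 : ℤ) • al b a) : LP k ι) = uu a b := by
      rw [one_smul]
      rfl
    rw [h2, mul_one]
    module
  · obtain ⟨m, rfl⟩ : ∃ m : ℕ, N = -(m : ℤ) := ⟨(-N).toNat, by omega⟩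
    have h1 : (-(-(m : ℤ))).toNat = m := by omega
    rw [h1, mul_sub, mul_smul_comm, mul_smul_comm, HR1_geom2, mul_one]
    module

theorem HR1_key_xp (q : k) {a b : ι} (n : ℤ) (ν : ι → ℤ) :
    (1 - uu a b) * R q a b n (xp ν) =
      (1 - q • uu a b) * pa (Equiv.swap a b) (xp ν) - (1 - q) • (xp (n • al b a) * xp ν) := by
  rw [R_xp, pa_swap_xp, mul_left_comm, rr_key, mul_sub, mul_comm (xp _) (1 - q • uu a b),
    mul_smul_comm, ← xp_add, ← xp_add]
  congr 3
  rw [comp_swap_eq, HR1_al_neg a b]
  module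

theorem R_key (q : k) {a b : ι} (hab : a ≠ b) (n : ℤ) (f : LP k ι) :
    (1 - uu a b) * R q a b n f =
      (1 - q • uu a b) * pa (Equiv.swap a b) f - (1 - q) • (xp (n • al b a) * f) := by
  refine LP.induct (P := fun f => (1 - uu a b) * R q a b n f =
      (1 - q • uu a b) * pa (Equiv.swap a b) f - (1 - q) • (xp (n • al b a) * f)) ?_ ?_ ?_ f
  · simp
  · intro f g hf hg
    rw [map_add, mul_add, hf, hg, map_add, mul_add, mul_add, smul_add]
    abel
  · intro c ν
    rw [map_smul, mul_smul_comm, HR1_key_xp, map_smul, mul_smul_comm, mul_smul_comm, smul_sub,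
      smul_comm c (1 - q)]

theorem R_xp_mul (q : k) {a b : ι} (hab : a ≠ b) (n : ℤ) (κ : ι → ℤ) (f : LP k ι) :
    R q a b n (xp κ * f) = xp (κ ∘ Equiv.swap a b) * R q a b (n + κ b - κ a) f := by
  refine LP.induct (P := fun f => R q a b n (xp κ * f) =
      xp (κ ∘ Equiv.swap a b) * R q a b (n + κ b - κ a) f) ?_ ?_ ?_ f
  · simp
  · intro f g hf hg
    rw [mul_add, map_add, hf, hg, map_add, mul_add]
  · intro c ν
    rw [mul_smul_comm, map_smul, map_smul, mul_smul_comm, ← xp_add, R_xp, R_xp, ← mul_assoc,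
      ← xp_add]
    have h1 : (κ + ν) ∘ Equiv.swap a b = κ ∘ Equiv.swap a b + ν ∘ Equiv.swap a b := rfl
    have h2 : n + (κ + ν) b - (κ + ν) a = n + κ b - κ a + ν b - ν a := by
      simp only [Pi.add_apply]
      ring
    rw [h1, h2]

theorem R_symm_mul (q : k) {a b : ι} (hab : a ≠ b) (n : ℤ) {g f : LP k ι}
    (hg : pa (Equiv.swap a b) g = g) : R q a b n (g * f) = g * R q a b n f := by
  have h : (1 - uu a b) * (R q a b n (g * f) - g * R q a b n f) = 0 := by
    rw [mul_sub, mul_left_comm (1 - uu a b) g, R_key q hab, R_key q hab, map_mul, hg, mul_sub,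
      mul_smul_comm, mul_left_comm g (xp _) f, mul_left_comm g (1 - q • uu a b), sub_self]
  exact sub_eq_zero.1 (one_sub_uu_regular hab h)

theorem R_quad (q : k) {a b : ι} (hab : a ≠ b) (n : ℤ) (f : LP k ι) :
    R q a b (1 - n) (R q a b n f) = q • f := by
  have h : (1 - uu a b) * ((1 - uu a b) * (R q a b (1 - n) (R q a b n f) - q • f)) = 0 := by
    set F := R q a b n f with hF
    have h1 := R_key q hab n f
    rw [← hF] at h1
    have h2 := R_key q hab (1 - n) F
    have h3 := congrArg (pa (Equiv.swap a b)) h1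
    have hu : pa (Equiv.swap a b) (uu a b : LP k ι) = uu b a := by
      unfold uu
      rw [pa_swap_xp]
      congr 1
      rw [comp_swap_eq, al_apply_left hab.symm, al_apply_right hab.symm, HR1_al_neg a b]
      module
    have hx : pa (Equiv.swap a b) (xp (n • al b a) : LP k ι) = xp ((-n) • al b a) := by
      rw [pa_swap_xp]
      congr 1
      rw [comp_swap_eq, HR1_al_neg a b]
      simp only [Pi.smul_apply, Pi.neg_apply, al_apply_left hab, al_apply_right hab]
      module
    have hpp : pa (Equiv.swap a b) (pa (Equiv.swap a b) f) = f := by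
      rw [pa_pa, Equiv.swap_mul_self, pa_one]
    rw [map_mul, map_sub, map_one, hu, map_sub, map_mul, map_sub, map_one, map_smul, hu, hpp,
      map_smul, map_mul, hx] at h3
    have hV1 : (uu a b * uu b a : LP k ι) = 1 := by
      unfold uu
      rw [← xp_add, HR1_al_neg a b, neg_add_cancel, xp_zero]
    have hV2 : (xp ((1 - n) • al b a) : LP k ι) = uu a b * xp ((-n) • al b a) := by
      unfold uu
      rw [← xp_add]
      congr 1
      module
    have hV3 : (xp (n • al b a) * xp ((-n) • al b a) : LP k ι) = 1 := by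
      rw [← xp_add, ← xp_zero]
      congr 1
      module
    rw [hV2] at h2
    generalize (xp ((-n) • al b a) : LP k ι) = V at *
    generalize (xp (n • al b a) : LP k ι) = V' at *
    generalize (uu a b : LP k ι) = U at *
    generalize (uu b a : LP k ι) = U' at *
    generalize pa (Equiv.swap a b) F = SF at *
    generalize pa (Equiv.swap a b) f = Sf at *
    generalize R q a b (1 - n) F = G at *
    simp only [Algebra.smul_def, map_sub, map_one] at *
    generalize algebraMap k (LP k ι) q = Q at *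
    linear_combination (1 - U) * h2 - (1 - Q * U) * U * h3 - (1 - Q) * U * V * h1 +
      ((1 - Q * U) * Q * f - (1 - Q * U) * SF) * hV1 + (1 - Q) ^ 2 * U * f * hV3
  exact sub_eq_zero.1 (one_sub_uu_regular hab (one_sub_uu_regular hab h))

theorem R_one_one (q : k) (a b : ι) : R q a b 1 (1 : LP k ι) = 1 := by
  rw [← xp_zero, R_xp]
  have h0 : (0 : ι → ℤ) ∘ Equiv.swap a b = 0 := rfl
  rw [h0, xp_zero, one_mul]
  simp [rr]

theorem R_one (q : k) (a b : ι) {n : ℤ} (hn : 0 < n) : R q a b n (1 : LP k ι) =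
    1 + (1 - q) • ∑ j ∈ range (n - 1).toNat, xp (((j : ℤ) + 1) • al b a) := by
  rw [← xp_zero, R_xp]
  have h0 : (0 : ι → ℤ) ∘ Equiv.swap a b = 0 := rfl
  rw [h0, xp_zero, one_mul]
  simp [rr, hn]

end H1

end Pool.Agent.Helper95.SH
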