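import Pool.Agent.Helper95.SH.HR1

namespace Pool.Agent.Helper95.SH

open Finset

section H2
variable {k : Type*} [CommRing k] {ι : Type*} [DecidableEq ι]

/-! ## H2 (file HR2.lean): relations, base change, embeddings (uses H1) -/

theorem HR2_rr_pa (q : k) {a b c d : ι} (hab : a ≠ b) (hac : a ≠ c) (had : a ≠ d)
    (hbc : b ≠ c) (hbd : b ≠ d) (N : ℤ) :
    pa (Equiv.swap a b) (rr q c d N) = rr q c d N := by
  have key : ∀ j : ℤ, pa (Equiv.swap a b) (xp (j • al d c) : LP k ι) = xp (j • al d c) := by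
    intro j
    rw [pa_swap_xp]
    congr 1
    rw [comp_swap_eq]
    have h1 : (j • al d c) b = 0 := by
      simp [al, Pi.single_apply, hbc, hbd]
    have h2 : (j • al d c) a = 0 := by
      simp [al, Pi.single_apply, hac, had]
    rw [h1, h2, sub_zero, zero_smul, add_zero]
  unfold rr
  split_ifs
  · rw [map_add, map_one, map_smul, map_sum]
    simp only [key]
  · rw [map_sub, map_smul, map_smul, map_one, map_sum]
    simp only [key]

theorem R_comm (q : k) {a b c d : ι} (hab : a ≠ b) (hcd : c ≠ d) (hac : a ≠ c) (had : a ≠ d)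
    (hbc : b ≠ c) (hbd : b ≠ d) (n m : ℤ) (f : LP k ι) :
    R q a b n (R q c d m f) = R q c d m (R q a b n f) := by
  have h : R q a b n ∘ₗ R q c d m = R q c d m ∘ₗ R q a b n := by
    refine LP.hom_ext fun ν => ?_
    rw [LinearMap.comp_apply, LinearMap.comp_apply, R_xp, R_xp q a b, mul_comm, mul_comm (xp (ν ∘ _)),
      R_symm_mul q hab _ (HR2_rr_pa q hab hac had hbc hbd _),
      R_symm_mul q hcd _ (HR2_rr_pa q hcd hac.symm hbc.symm had.symm hbd.symm _), R_xp, R_xp]
    have e1 : (ν ∘ Equiv.swap c d) b = ν b := by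
      simp [Equiv.swap_apply_of_ne_of_ne hbc hbd]
    have e2 : (ν ∘ Equiv.swap c d) a = ν a := by
      simp [Equiv.swap_apply_of_ne_of_ne hac had]
    have e3 : (ν ∘ Equiv.swap a b) d = ν d := by
      simp [Equiv.swap_apply_of_ne_of_ne had.symm hbd.symm]
    have e4 : (ν ∘ Equiv.swap a b) c = ν c := by
      simp [Equiv.swap_apply_of_ne_of_ne hac.symm hbc.symm]
    have e5 : (ν ∘ Equiv.swap c d) ∘ Equiv.swap a b = (ν ∘ Equiv.swap a b) ∘ Equiv.swap c d := by
      funext i
      simp only [Function.comp_apply]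
      congr 1
      rcases eq_or_ne i a with rfl | hia
      · rw [Equiv.swap_apply_left, Equiv.swap_apply_of_ne_of_ne hac had,
          Equiv.swap_apply_left, Equiv.swap_apply_of_ne_of_ne hbc hbd]
      rcases eq_or_ne i b with rfl | hib
      · rw [Equiv.swap_apply_right, Equiv.swap_apply_of_ne_of_ne hbc hbd,
          Equiv.swap_apply_right, Equiv.swap_apply_of_ne_of_ne hac had]
      rw [Equiv.swap_apply_of_ne_of_ne hia hib]
      rcases eq_or_ne i c with rfl | hic
      · rw [Equiv.swap_apply_left, Equiv.swap_apply_of_ne_of_ne had.symm hbd.symm]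
      rcases eq_or_ne i d with rfl | hid
      · rw [Equiv.swap_apply_right, Equiv.swap_apply_of_ne_of_ne hac.symm hbc.symm]
      rw [Equiv.swap_apply_of_ne_of_ne hic hid, Equiv.swap_apply_of_ne_of_ne hia hib]
    rw [e1, e2, e3, e4, e5]
    ring
  exact LinearMap.congr_fun h f

theorem HR2_mp_rr {k' : Type*} [CommRing k'] (φ : k →+* k') (q : k) (a b : ι) (N : ℤ) :
    mp φ (rr q a b N) = rr (φ q) a b N := by
  unfold rr
  split_ifs
  · rw [map_add, map_one, mp_smul, map_sum, map_sub, map_one]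
    simp only [mp_xp]
  · rw [map_sub, mp_smul, mp_smul, map_one, map_sum, map_sub, map_one]
    simp only [mp_xp]

theorem R_mp {k' : Type*} [CommRing k'] (φ : k →+* k') (q : k) (a b : ι) (n : ℤ) (f : LP k ι) :
    mp φ (R q a b n f) = R (φ q) a b n (mp φ f) := by
  refine LP.induct (P := fun f => mp φ (R q a b n f) = R (φ q) a b n (mp φ f)) ?_ ?_ ?_ f
  · simp
  · intro f g hf hg
    rw [map_add, map_add, hf, hg, map_add, map_add]
  · intro c ν
    rw [map_smul, mp_smul, mp_smul, map_smul, R_xp, map_mul, mp_xp, HR2_mp_rr, mp_xp, R_xp]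

theorem HR2_al_swap (x y p r : ι) :
    (al x y) ∘ (Equiv.swap p r) = al (Equiv.swap p r x) (Equiv.swap p r y) := by
  have key : ∀ z, (Pi.single z 1 : ι → ℤ) ∘ (Equiv.swap p r) = Pi.single (Equiv.swap p r z) 1 := by
    intro z
    funext i
    rw [Function.comp_apply, Pi.single_apply, Pi.single_apply]
    congr 1
    rw [eq_iff_iff]
    constructor
    · rintro rfl
      rw [Equiv.swap_apply_self]
    · rintro rfl
      rw [Equiv.swap_apply_self]
  unfold al
  rw [← key x, ← key y]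
  rfl

theorem HR2_uu_pa (x y p r : ι) :
    pa (Equiv.swap p r) (uu x y : LP k ι) = uu (Equiv.swap p r x) (Equiv.swap p r y) := by
  unfold uu
  rw [pa_swap_xp, HR2_al_swap]

theorem HR2_uu_mul (x y z : ι) : (uu x y * uu y z : LP k ι) = uu x z := by
  unfold uu
  rw [← xp_add]
  congr 1
  unfold al
  abel

theorem HR2_uu_inv (x y : ι) : (uu x y * uu y x : LP k ι) = 1 := by
  unfold uu
  rw [← xp_add, ← xp_zero]
  congr 1
  unfold al
  abel

theorem HR2_key0 (q : k) {a b : ι} (hab : a ≠ b) (f : LP k ι) :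
    (1 - uu a b) * R q a b 0 f =
      (1 - algebraMap k (LP k ι) q * uu a b) * pa (Equiv.swap a b) f -
        (1 - algebraMap k (LP k ι) q) * f := by
  rw [R_key q hab, zero_smul, xp_zero, one_mul, Algebra.smul_def, Algebra.smul_def, map_sub,
    map_one]

theorem HR2_alg {L : Type*} [CommRing L] (u v q f f1 f2 f12 f21 f121 A s2A s1A s12A B s1B C
    A' s1A' s2A' s21A' B' s2B' C' : L)
    (hA : (1 - u) * A = (1 - q * u) * f1 - (1 - q) * f)
    (hs2A : (1 - u * v) * s2A = (1 - q * (u * v)) * f21 - (1 - q) * f2)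
    (hs1A : (u - 1) * s1A = (u - q) * f - (1 - q) * u * f1)
    (hs12A : (1 - v) * s12A = (1 - q * v) * f121 - (1 - q) * f12)
    (hB : (1 - v) * B = (1 - q * v) * s2A - (1 - q) * A)
    (hs1B : (1 - u * v) * s1B = (1 - q * (u * v)) * s12A - (1 - q) * s1A)
    (hC : (1 - u) * C = (1 - q * u) * s1B - (1 - q) * B)
    (hA' : (1 - v) * A' = (1 - q * v) * f2 - (1 - q) * f)
    (hs1A' : (1 - u * v) * s1A' = (1 - q * (u * v)) * f12 - (1 - q) * f1)
    (hs2A' : (v - 1) * s2A' = (v - q) * f - (1 - q) * v * f2)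
    (hs21A' : (1 - u) * s21A' = (1 - q * u) * f121 - (1 - q) * f21)
    (hB' : (1 - u) * B' = (1 - q * u) * s1A' - (1 - q) * A')
    (hs2B' : (1 - u * v) * s2B' = (1 - q * (u * v)) * s21A' - (1 - q) * s2A')
    (hC' : (1 - v) * C' = (1 - q * v) * s2B' - (1 - q) * B') :
    (1 - u) * ((1 - u) * ((1 - v) * ((1 - v) * ((1 - u * v) * (C - C'))))) = 0 := by
  linear_combination (1 - u) * (1 - v) ^ 2 * (1 - u * v) * hC +
    (1 - u) * (1 - v) ^ 2 * (1 - q * u) * hs1B +
    (1 - u) * (1 - v) * (1 - q * u) * (1 - q * (u * v)) * hs12A +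
    (1 - q) * (1 - v) ^ 2 * (1 - q * u) * hs1A -
    (1 - q) * (1 - u) * (1 - v) * (1 - u * v) * hB -
    (1 - q) * (1 - u) * (1 - v) * (1 - q * v) * hs2A +
    (1 - q) ^ 2 * (1 - v) * (1 - u * v) * hA -
    ((1 - v) * (1 - u) ^ 2 * (1 - u * v) * hC' +
    (1 - v) * (1 - u) ^ 2 * (1 - q * v) * hs2B' +
    (1 - v) * (1 - u) * (1 - q * v) * (1 - q * (u * v)) * hs21A' +
    (1 - q) * (1 - u) ^ 2 * (1 - q * v) * hs2A' -
    (1 - q) * (1 - v) * (1 - u) * (1 - u * v) * hB' -
    (1 - q) * (1 - v) * (1 - u) * (1 - q * u) * hs1A' +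
    (1 - q) ^ 2 * (1 - u) * (1 - u * v) * hA')

theorem HR2_braid0 (q : k) {a b c : ι} (hab : a ≠ b) (hbc : b ≠ c) (hac : a ≠ c) (f : LP k ι) :
    R q a b 0 (R q b c 0 (R q a b 0 f)) = R q b c 0 (R q a b 0 (R q b c 0 f)) := by
  set Q := algebraMap k (LP k ι) q with hQ
  have hq : ∀ σ : Equiv.Perm ι, pa σ Q = Q := fun σ => (pa σ).commutes q
  set u : LP k ι := uu a b with hu
  set v : LP k ι := uu b c with hv
  have huv : u * v = uu a c := HR2_uu_mul a b c
  have e1 : pa (Equiv.swap b c) u = u * v := by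
    rw [huv, hu, HR2_uu_pa, Equiv.swap_apply_left, Equiv.swap_apply_of_ne_of_ne hab hac]
  have e2 : pa (Equiv.swap a b) v = u * v := by
    rw [huv, hv, HR2_uu_pa, Equiv.swap_apply_right,
      Equiv.swap_apply_of_ne_of_ne hac.symm hbc.symm]
  have e3 : pa (Equiv.swap a b) (u * v) = v := by
    rw [huv, HR2_uu_pa, Equiv.swap_apply_left, Equiv.swap_apply_of_ne_of_ne hac.symm hbc.symm]
  have e4 : pa (Equiv.swap b c) (u * v) = u := by
    rw [huv, HR2_uu_pa, Equiv.swap_apply_right, Equiv.swap_apply_of_ne_of_ne hab hac]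
  have e5 : u * pa (Equiv.swap a b) u = 1 := by
    rw [hu, HR2_uu_pa, Equiv.swap_apply_left, Equiv.swap_apply_right, HR2_uu_inv]
  have e6 : v * pa (Equiv.swap b c) v = 1 := by
    rw [hv, HR2_uu_pa, Equiv.swap_apply_left, Equiv.swap_apply_right, HR2_uu_inv]
  have ss1 : ∀ g : LP k ι, pa (Equiv.swap a b) (pa (Equiv.swap a b) g) = g := by
    intro g
    rw [pa_pa, Equiv.swap_mul_self, pa_one]
  have ss2 : ∀ g : LP k ι, pa (Equiv.swap b c) (pa (Equiv.swap b c) g) = g := by
    intro g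
    rw [pa_pa, Equiv.swap_mul_self, pa_one]
  have s121 : ∀ g : LP k ι, pa (Equiv.swap b c) (pa (Equiv.swap a b) (pa (Equiv.swap b c) g)) =
      pa (Equiv.swap a b) (pa (Equiv.swap b c) (pa (Equiv.swap a b) g)) := by
    intro g
    rw [pa_pa, pa_pa, pa_pa, pa_pa]
    congr 1
    congr 1
    rw [Equiv.swap_mul_swap_mul_swap hab hac]
    rw [Equiv.swap_comm a b, Equiv.swap_comm b c, Equiv.swap_mul_swap_mul_swap hbc.symm hac.symm,
      Equiv.swap_comm]
  set A := R q a b 0 f with hAd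
  set B := R q b c 0 A with hBd
  set C := R q a b 0 B with hCd
  set A' := R q b c 0 f with hAd'
  set B' := R q a b 0 A' with hBd'
  set C' := R q b c 0 B' with hCd'
  have hA := HR2_key0 q hab f
  have hB := HR2_key0 q hbc A
  have hC := HR2_key0 q hab B
  have hA' := HR2_key0 q hbc f
  have hB' := HR2_key0 q hab A'
  have hC' := HR2_key0 q hbc B'
  rw [← hAd, ← hu, ← hQ] at hA
  rw [← hBd, ← hv, ← hQ] at hB
  rw [← hCd, ← hu, ← hQ] at hC
  rw [← hAd', ← hv, ← hQ] at hA'
  rw [← hBd', ← hu, ← hQ] at hB'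
  rw [← hCd', ← hv, ← hQ] at hC'
  have hs2A := congrArg (pa (Equiv.swap b c)) hA
  have hs1A := congrArg (pa (Equiv.swap a b)) hA
  have hs1A' := congrArg (pa (Equiv.swap a b)) hA'
  have hs2A' := congrArg (pa (Equiv.swap b c)) hA'
  have hs1B := congrArg (pa (Equiv.swap a b)) hB
  have hs2B' := congrArg (pa (Equiv.swap b c)) hB'
  simp only [map_mul, map_sub, map_one, hq, e1, e2, ss1, ss2] at hs2A hs1A hs1A' hs2A' hs1B hs2B'
  have hs12A := congrArg (pa (Equiv.swap a b)) hs2A
  have hs21A' := congrArg (pa (Equiv.swap b c)) hs1A'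
  rw [map_mul, map_sub, map_one, e3, map_sub, map_mul, map_sub, map_mul, hq, e3, map_mul, map_sub,
    map_one, hq] at hs12A
  rw [map_mul, map_sub, map_one, e4, map_sub, map_mul, map_sub, map_mul, hq, e4, map_mul, map_sub,
    map_one, hq, s121] at hs21A'
  have h := HR2_alg u v Q f (pa (Equiv.swap a b) f) (pa (Equiv.swap b c) f)
    (pa (Equiv.swap a b) (pa (Equiv.swap b c) f)) (pa (Equiv.swap b c) (pa (Equiv.swap a b) f))
    (pa (Equiv.swap a b) (pa (Equiv.swap b c) (pa (Equiv.swap a b) f)))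
    A (pa (Equiv.swap b c) A) (pa (Equiv.swap a b) A) (pa (Equiv.swap a b) (pa (Equiv.swap b c) A))
    B (pa (Equiv.swap a b) B) C
    A' (pa (Equiv.swap a b) A') (pa (Equiv.swap b c) A')
    (pa (Equiv.swap b c) (pa (Equiv.swap a b) A')) B' (pa (Equiv.swap b c) B') C'
    hA hs2A (by
      set w := pa (Equiv.swap a b) u
      linear_combination u * hs1A + (pa (Equiv.swap a b) A - Q * f) * e5)
    hs12A hB hs1B hC hA' hs1A' (by
      set w := pa (Equiv.swap b c) v
      linear_combination v * hs2A' + (pa (Equiv.swap b c) A' - Q * f) * e6)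
    hs21A' hB' hs2B' hC'
  have h1 := one_sub_uu_regular hab h
  have h2 := one_sub_uu_regular hab h1
  have h3 := one_sub_uu_regular hbc h2
  have h4 := one_sub_uu_regular hbc h3
  rw [huv] at h4
  exact sub_eq_zero.1 (one_sub_uu_regular hac h4)

theorem HR2_one_eq (q : k) {a b : ι} (hab : a ≠ b) (f : LP k ι) :
    R q a b 1 f = R q a b 0 f + (1 - q) • f := by
  have h : (1 - uu a b) * (R q a b 1 f - (R q a b 0 f + (1 - q) • f)) = 0 := by
    rw [mul_sub, mul_add, R_key q hab, R_key q hab, zero_smul, xp_zero, one_smul, one_mul]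
    have : (xp (al b a) : LP k ι) = uu a b := rfl
    rw [this, Algebra.smul_def, Algebra.smul_def, Algebra.smul_def]
    ring
  exact sub_eq_zero.1 (one_sub_uu_regular hab h)

theorem HR2_braid1 (q : k) {a b c : ι} (hab : a ≠ b) (hbc : b ≠ c) (hac : a ≠ c) (f : LP k ι) :
    R q a b 1 (R q b c 1 (R q a b 1 f)) = R q b c 1 (R q a b 1 (R q b c 1 f)) := by
  have hq1 : ∀ g : LP k ι, R q a b 0 (R q a b 0 g) = q • g - (1 - q) • R q a b 0 g := by
    intro g
    have h := R_quad q hab 0 g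
    rw [sub_zero, HR2_one_eq q hab] at h
    rw [← h]
    abel
  have hq2 : ∀ g : LP k ι, R q b c 0 (R q b c 0 g) = q • g - (1 - q) • R q b c 0 g := by
    intro g
    have h := R_quad q hbc 0 g
    rw [sub_zero, HR2_one_eq q hbc] at h
    rw [← h]
    abel
  simp only [HR2_one_eq q hab, HR2_one_eq q hbc, map_add, map_smul, hq1, hq2, smul_add]
  rw [HR2_braid0 q hab hbc hac]
  simp only [smul_sub]
  abel

theorem HR2_conj (q : k) {a b c : ι} (hab : a ≠ b) (hbc : b ≠ c) (hac : a ≠ c) (e : ℤ)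
    (he : ∀ f : LP k ι, R q a b e (R q b c e (R q a b e f)) = R q b c e (R q a b e (R q b c e f)))
    {n12 n23 n13 : ℤ} (h : n13 = n12 + n23 - e) (f : LP k ι) :
    R q a b n23 (R q b c n13 (R q a b n12 f)) = R q b c n12 (R q a b n13 (R q b c n23 f)) := by
  set lam : ι → ℤ := fun i => if i = b then n12 - e else if i = c then n12 + n23 - 2 * e else 0
    with hlam
  have la : lam a = 0 := by simp [hlam, hab, hac]
  have lb : lam b = n12 - e := by simp [hlam]
  have lc : lam c = n12 + n23 - 2 * e := by simp [hlam, hbc.symm]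
  have s1a : Equiv.swap a b a = b := Equiv.swap_apply_left _ _
  have s1b : Equiv.swap a b b = a := Equiv.swap_apply_right _ _
  have s1c : Equiv.swap a b c = c := Equiv.swap_apply_of_ne_of_ne hac.symm hbc.symm
  have s2a : Equiv.swap b c a = a := Equiv.swap_apply_of_ne_of_ne hab hac
  have s2b : Equiv.swap b c b = c := Equiv.swap_apply_left _ _
  have s2c : Equiv.swap b c c = b := Equiv.swap_apply_right _ _
  have h1 := he (xp lam * f)
  rw [R_xp_mul q hab, R_xp_mul q hbc, R_xp_mul q hab, R_xp_mul q hbc, R_xp_mul q hab,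
    R_xp_mul q hbc] at h1
  simp only [Function.comp_apply, s1a, s1b, s1c, s2a, s2b, s2c, la, lb, lc] at h1
  have i1 : e + (n12 - e) - 0 = n12 := by ring
  have i2 : e + (n12 + n23 - 2 * e) - 0 = n13 := by rw [h]; ring
  have i3 : e + (n12 + n23 - 2 * e) - (n12 - e) = n23 := by ring
  rw [i1, i2, i3] at h1
  have hs : ((lam ∘ Equiv.swap a b) ∘ Equiv.swap b c) ∘ Equiv.swap a b =
      ((lam ∘ Equiv.swap b c) ∘ Equiv.swap a b) ∘ Equiv.swap b c := by
    have h2 : (Equiv.swap a b * Equiv.swap b c * Equiv.swap a b : Equiv.Perm ι) =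
        Equiv.swap b c * Equiv.swap a b * Equiv.swap b c := by
      symm
      rw [Equiv.swap_mul_swap_mul_swap hab hac]
      rw [Equiv.swap_comm a b, Equiv.swap_comm b c, Equiv.swap_mul_swap_mul_swap hbc.symm hac.symm,
        Equiv.swap_comm]
    funext i
    have h3 := congrArg (fun σ : Equiv.Perm ι => lam (σ i)) h2
    exact h3
  rw [hs] at h1
  have h4 := congrArg (fun g => xp (-(((lam ∘ Equiv.swap b c) ∘ Equiv.swap a b) ∘ Equiv.swap b c)) * g) h1
  simp only [← mul_assoc, xp_neg_mul, one_mul] at h4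
  exact h4

/-- The braid relation. -/
theorem R_braid (q : k) {a b c : ι} (hab : a ≠ b) (hbc : b ≠ c) (hac : a ≠ c) {n12 n23 n13 : ℤ}
    (h : n13 = n12 + n23 ∨ n13 = n12 + n23 - 1) (f : LP k ι) :
    R q a b n23 (R q b c n13 (R q a b n12 f)) = R q b c n12 (R q a b n13 (R q b c n23 f)) := by
  rcases h with h | h
  · exact HR2_conj q hab hbc hac 0 (HR2_braid0 q hab hbc hac) (by rw [h]; ring) f
  · exact HR2_conj q hab hbc hac 1 (HR2_braid1 q hab hbc hac) h f

end H2

section
variable {k : Type*} [CommRing k]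

/-- Exponents of the embedding `x_i ↦ x_{i+1}`. -/
def eS {m : ℕ} : (Fin m → ℤ) →+ (Fin (m + 1) → ℤ) where
  toFun ν := Fin.cons 0 ν
  map_zero' := by funext i; refine Fin.cases rfl (fun _ => rfl) i
  map_add' ν μ := by funext i; refine Fin.cases (by simp) (fun _ => by simp) i

/-- Exponents of the embedding `x_i ↦ x_i`. -/
def eC {m : ℕ} : (Fin m → ℤ) →+ (Fin (m + 1) → ℤ) where
  toFun ν := Fin.snoc ν 0
  map_zero' := by funext i; refine Fin.lastCases (by simp) (fun _ => by simp) i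
  map_add' ν μ := by funext i; refine Fin.lastCases (by simp) (fun _ => by simp) i

theorem HR2_emb_rr (q : k) {ι ι' : Type*} [DecidableEq ι] [DecidableEq ι']
    (e : (ι → ℤ) →+ (ι' → ℤ)) {a b : ι} {a' b' : ι'} (h : e (al b a) = al b' a') (N : ℤ) :
    mE e (rr q a b N : LP k ι) = rr q a' b' N := by
  unfold rr
  have key : ∀ j : ℤ, mE e (xp (j • al b a) : LP k ι) = xp (j • al b' a') := by
    intro j
    rw [mE_xp, map_zsmul, h]
  split_ifs
  · rw [map_add, map_one, map_smul, map_sum]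
    simp only [key]
  · rw [map_sub, map_smul, map_smul, map_one, map_sum]
    simp only [key]

theorem HR2_emb_R (q : k) {ι ι' : Type*} [DecidableEq ι] [DecidableEq ι']
    (e : (ι → ℤ) →+ (ι' → ℤ)) {a b : ι} {a' b' : ι'} (h : e (al b a) = al b' a')
    (hc : ∀ ν, (e ν) ∘ Equiv.swap a' b' = e (ν ∘ Equiv.swap a b))
    (ha : ∀ ν, e ν a' = ν a) (hb : ∀ ν, e ν b' = ν b) (n : ℤ) (f : LP k ι) :
    R q a' b' n (mE e f) = mE e (R q a b n f) := by
  refine LP.induct (P := fun f => R q a' b' n (mE e f) = mE e (R q a b n f)) ?_ ?_ ?_ f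
  · simp
  · intro f g hf hg
    rw [map_add, map_add, hf, hg, map_add, map_add]
  · intro c ν
    rw [map_smul, map_smul, map_smul, map_smul, mE_xp, R_xp, R_xp, map_mul, mE_xp,
      HR2_emb_rr q e h, hc, ha, hb]

theorem R_eS (q : k) {m : ℕ} {a b : Fin m} (hab : a ≠ b) (n : ℤ) (f : LP k (Fin m)) :
    R q a.succ b.succ n (mE eS f) = mE eS (R q a b n f) := by
  have hap : ∀ (ν : Fin m → ℤ) (i : Fin m), eS ν i.succ = ν i := fun ν i => rfl
  have hap0 : ∀ (ν : Fin m → ℤ), eS ν 0 = 0 := fun ν => rfl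
  apply HR2_emb_R
  · funext i
    refine Fin.cases ?_ (fun i => ?_) i
    · rw [hap0]
      simp [al, Pi.single_apply, (Fin.succ_ne_zero _).symm]
    · rw [hap]
      simp [al, Pi.single_apply]
  · intro ν
    funext i
    rw [Function.comp_apply]
    refine Fin.cases ?_ (fun i => ?_) i
    · rw [Equiv.swap_apply_of_ne_of_ne (Fin.succ_ne_zero _).symm (Fin.succ_ne_zero _).symm,
        hap0, hap0]
    · rw [hap, Function.comp_apply]
      rcases eq_or_ne i a with rfl | hia
      · rw [Equiv.swap_apply_left, hap, Equiv.swap_apply_left]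
      rcases eq_or_ne i b with rfl | hib
      · rw [Equiv.swap_apply_right, hap, Equiv.swap_apply_right]
      rw [Equiv.swap_apply_of_ne_of_ne (by simpa using hia) (by simpa using hib), hap,
        Equiv.swap_apply_of_ne_of_ne hia hib]
  · intro ν; exact hap ν a
  · intro ν; exact hap ν b

theorem R_eC (q : k) {m : ℕ} {a b : Fin m} (hab : a ≠ b) (n : ℤ) (f : LP k (Fin m)) :
    R q a.castSucc b.castSucc n (mE eC f) = mE eC (R q a b n f) := by
  have hap : ∀ (ν : Fin m → ℤ) (i : Fin m), eC ν i.castSucc = ν i := fun ν i => by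
    show Fin.snoc (α := fun _ => ℤ) ν 0 i.castSucc = ν i
    rw [Fin.snoc_castSucc]
  have hap0 : ∀ (ν : Fin m → ℤ), eC ν (Fin.last m) = 0 := fun ν => by
    show Fin.snoc (α := fun _ => ℤ) ν 0 (Fin.last m) = 0
    rw [Fin.snoc_last]
  have hne : ∀ i : Fin m, Fin.last m ≠ i.castSucc := fun i => (Fin.castSucc_lt_last i).ne'
  apply HR2_emb_R
  · funext i
    refine Fin.lastCases ?_ (fun i => ?_) i
    · rw [hap0]
      simp [al, Pi.single_apply, hne]
    · rw [hap]
      simp [al, Pi.single_apply]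
  · intro ν
    funext i
    rw [Function.comp_apply]
    refine Fin.lastCases ?_ (fun i => ?_) i
    · rw [Equiv.swap_apply_of_ne_of_ne (hne _) (hne _), hap0, hap0]
    · rw [hap, Function.comp_apply]
      rcases eq_or_ne i a with rfl | hia
      · rw [Equiv.swap_apply_left, hap, Equiv.swap_apply_left]
      rcases eq_or_ne i b with rfl | hib
      · rw [Equiv.swap_apply_right, hap, Equiv.swap_apply_right]
      rw [Equiv.swap_apply_of_ne_of_ne (by simpa using hia) (by simpa using hib), hap,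
        Equiv.swap_apply_of_ne_of_ne hia hib]
  · intro ν; exact hap ν a
  · intro ν; exact hap ν b

end

end Pool.Agent.Helper95.SH
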