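import Pool.Agent.Helper32.EP.Words
import Pool.Agent.Helper32.EP.Lines
import Pool.Agent.Helper95.SH.DDefs

/-!
# Translation to the definitions of the statement (MP_36e183_co)

The elements `EV` are the elements `F`.
-/

namespace Pool.Agent.Helper95.SH

open Finset

section
variable {K : Type*} [Field K]

theorem IA_e (n : ℤ) : (ee n : MvPolynomial ℕ K) = EP.e K n := by
  match n with
  | Int.ofNat 0 => rfl
  | Int.ofNat (n + 1) =>
    unfold ee
    have h1 : ¬ (Int.ofNat (n + 1) < 0) := by
      rw [not_lt]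
      exact Int.natCast_nonneg _
    have h2 : ¬ (Int.ofNat (n + 1) = 0) := by
      intro h
      have : ((n + 1 : ℕ) : ℤ) = 0 := h
      omega
    rw [if_neg h1, if_neg h2]
    rfl
  | Int.negSucc n =>
    unfold ee
    rw [if_pos (Int.negSucc_lt_zero n)]
    rfl

/-- `(1 + c X)⁻¹` as a power series. -/
theorem IA_inv (c : K) : (1 + PowerSeries.C c * PowerSeries.X)⁻¹ =
    PowerSeries.mk fun j => (-c) ^ j := by
  rw [PowerSeries.inv_eq_iff_mul_eq_one]
  · ext n
    rw [mul_add, mul_one, map_add, ← mul_assoc]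
    cases n with
    | zero =>
      rw [PowerSeries.coeff_zero_mul_X, PowerSeries.coeff_mk, PowerSeries.coeff_one, if_pos rfl]
      simp
    | succ n =>
      rw [PowerSeries.coeff_succ_mul_X, PowerSeries.coeff_mk, PowerSeries.coeff_mul_C,
        PowerSeries.coeff_mk, PowerSeries.coeff_one, if_neg (Nat.succ_ne_zero n)]
      ring
  · simp

theorem IA_eM (q t : K) (j : ℕ) : EP.eM q t j = mM q t j := by
  unfold EP.eM
  rw [IA_inv, IA_inv]
  set P : PowerSeries K := (PowerSeries.mk fun j => (-q) ^ j) * (PowerSeries.mk fun j => (-t) ^ j)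
    with hP
  have h1 : (1 + PowerSeries.C q * PowerSeries.X) * (1 + PowerSeries.C t * PowerSeries.X) * P = 1 := by
    have hq : (1 + PowerSeries.C q * PowerSeries.X) * (PowerSeries.mk fun j => (-q) ^ j) = 1 := by
      rw [← IA_inv, PowerSeries.mul_inv_cancel]
      simp
    have ht : (1 + PowerSeries.C t * PowerSeries.X) * (PowerSeries.mk fun j => (-t) ^ j) = 1 := by
      rw [← IA_inv, PowerSeries.mul_inv_cancel]
      simp
    calc _ = ((1 + PowerSeries.C q * PowerSeries.X) * (PowerSeries.mk fun j => (-q) ^ j)) *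
        ((1 + PowerSeries.C t * PowerSeries.X) * (PowerSeries.mk fun j => (-t) ^ j)) := by
          rw [hP]; ring
      _ = 1 := by rw [hq, ht, one_mul]
  have h2 : (1 + PowerSeries.X) * (1 + PowerSeries.C (q * t) * PowerSeries.X) *
      (PowerSeries.mk fun j => (-q) ^ j) * (PowerSeries.mk fun j => (-t) ^ j) =
      1 + PowerSeries.X * (PowerSeries.C ((1 - q) * (1 - t)) * P) := by
    have h3 : (1 + PowerSeries.X) * (1 + PowerSeries.C (q * t) * PowerSeries.X) =
        (1 + PowerSeries.C q * PowerSeries.X) * (1 + PowerSeries.C t * PowerSeries.X) +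
        PowerSeries.X * PowerSeries.C ((1 - q) * (1 - t)) := by
      rw [map_mul, map_mul, map_sub, map_sub, map_one]
      ring
    rw [h3, mul_assoc, ← hP, add_mul, h1]
    ring
  rw [h2, map_add]
  cases j with
  | zero =>
    rw [PowerSeries.coeff_zero_X_mul, PowerSeries.coeff_one, if_pos rfl, add_zero]
    rfl
  | succ j =>
    rw [PowerSeries.coeff_succ_X_mul, PowerSeries.coeff_one, if_neg (Nat.succ_ne_zero j), zero_add,
      PowerSeries.coeff_C_mul, hP, PowerSeries.coeff_mul]
    show _ = (-1) ^ j * ((1 - q) * (1 - t)) * ∑ i ∈ range (j + 1), q ^ i * t ^ (j - i)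
    rw [Finset.Nat.sum_antidiagonal_eq_sum_range_succ_mk, Finset.mul_sum, Finset.mul_sum]
    refine Finset.sum_congr rfl fun i hi => ?_
    rw [PowerSeries.coeff_mk, PowerSeries.coeff_mk, neg_pow q, neg_pow t]
    have : j = i + (j - i) := by
      have := Finset.mem_range.1 hi
      omega
    have h4 : (-1 : K) ^ j = (-1) ^ i * (-1) ^ (j - i) := by rw [← pow_add, ← this]
    rw [h4]
    ring

theorem IA_tau (q t : K) : tau q t = EP.pleth q t := by
  unfold tau EP.pleth
  congr 1
  funext i
  refine Finset.sum_congr rfl fun j _ => ?_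
  rw [IA_eM, IA_e, MvPolynomial.smul_eq_C_mul]

theorem IA_Dop (q t : K) (b : ℤ) (f : MvPolynomial ℕ K) : Dop q t b f = EP.Dop q t b f := by
  unfold Dop EP.Dop
  rw [LinearMap.comp_apply, AlgHom.toLinearMap_apply, ← IA_tau, Polynomial.lsum_apply]
  refine Finset.sum_congr rfl fun j _ => ?_
  show (tau q t f).coeff j * se (b + j) =
    ((-1) ^ (b + j).natAbs * EP.e K (b + j)) * (tau q t f).coeff j
  rw [mul_comm]
  unfold se
  rw [IA_e]

theorem IA_Dsg (q t : K) (b : ℤ) (f : MvPolynomial ℕ K) :
    EP.Dsg q t b f = (-1) ^ b.natAbs * Dop q t b f := by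
  unfold EP.Dsg
  rw [LinearMap.smul_apply, IA_Dop, MvPolynomial.smul_eq_C_mul, map_pow, map_neg, map_one]

theorem IA_sign (a b : ℤ) : ((-1) ^ a.natAbs * (-1) ^ b.natAbs : MvPolynomial ℕ K) =
    (-1) ^ (a + b).natAbs := by
  rw [← pow_add]
  have h : (-1 : MvPolynomial ℕ K) ^ (a.natAbs + b.natAbs) = (-1) ^ (a + b).natAbs := by
    rcases Nat.even_or_odd (a.natAbs + b.natAbs) with h1 | h1
    · rw [h1.neg_one_pow, Even.neg_one_pow]
      rw [Nat.even_iff] at h1 ⊢
      omega
    · rw [h1.neg_one_pow, Odd.neg_one_pow]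
      rw [Nat.odd_iff] at h1 ⊢
      omega
  exact h

theorem IA_Dop_smul (q t : K) (b : ℤ) (c : K) (f : MvPolynomial ℕ K) :
    Dop q t b (MvPolynomial.C c * f) = MvPolynomial.C c * Dop q t b f := by
  rw [IA_Dop, IA_Dop, ← MvPolynomial.smul_eq_C_mul, map_smul, MvPolynomial.smul_eq_C_mul]

theorem IA_F (q t : K) : ∀ (m : ℕ) (b : Fin (m + 1) → ℤ), EP.F q t (List.ofFn b) = EV q t b := by
  intro m
  induction m with
  | zero =>
    intro b
    have h1 : List.ofFn b = [b 0] := by simp
    rw [h1]
    unfold EP.F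
    rw [IA_Dsg]
    unfold EV DV
    rw [Fin.sum_univ_one]
  | succ m ih =>
    intro b
    have h1 : List.ofFn b = b 0 :: Fin.tail b 0 :: List.ofFn (Fin.tail (Fin.tail b)) := by
      rw [List.ofFn_succ, List.ofFn_succ]
      rfl
    have hs : Fin.tail b 0 + (List.ofFn (Fin.tail (Fin.tail b))).sum = ∑ i, Fin.tail b i := by
      rw [List.sum_ofFn, Fin.sum_univ_succ]
      rfl
    rw [h1]
    unfold EP.F
    rw [hs]
    unfold EV DV
    rw [Finset.mul_sum]
    refine Finset.sum_congr rfl fun j _ => ?_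
    have h2 : (Fin.tail b 0 - (j : ℤ)) :: List.ofFn (Fin.tail (Fin.tail b)) =
        List.ofFn (Function.update (Fin.tail b) 0 (Fin.tail b 0 - j)) := by
      rw [List.ofFn_succ]
      congr 1
    rw [h2, ih, IA_Dsg]
    unfold EV
    have h3 : ∑ i, Function.update (Fin.tail b) 0 (Fin.tail b 0 - j) i = (∑ i, Fin.tail b i) - j := by
      rw [Fin.sum_univ_succ, Fin.sum_univ_succ (Fin.tail b)]
      have : ∀ i : Fin m, Function.update (Fin.tail b) 0 (Fin.tail b 0 - (j : ℤ)) i.succ =
          Fin.tail b i.succ := fun i => Function.update_of_ne (Fin.succ_ne_zero i) _ _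
      simp only [Function.update_self, this]
      ring
    have h4 : ((-1) ^ (∑ i, Function.update (Fin.tail b) 0 (Fin.tail b 0 - (j : ℤ)) i).natAbs :
        MvPolynomial ℕ K) = MvPolynomial.C ((-1) ^
          (∑ i, Function.update (Fin.tail b) 0 (Fin.tail b 0 - (j : ℤ)) i).natAbs) := by
      rw [map_pow, map_neg, map_one]
    rw [h4, IA_Dop_smul, ← h4, MvPolynomial.smul_eq_C_mul, h3]
    have h5 : (∑ i, b i) = (b 0 + j) + ((∑ i, Fin.tail b i) - j) := by
      rw [Fin.sum_univ_succ]
      show b 0 + ∑ i, Fin.tail b i = _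
      ring
    rw [h5, ← IA_sign (b 0 + j) ((∑ i, Fin.tail b i) - j)]
    ring

/-! ### Positivity -/

/-- Base change of the positive elements. -/
theorem IA_EPos {U : Type*} [CommRing U] (q' t' : U) (φ : U →+* K) (q r : K) (hq : φ q' = 1 + r)
    (ht : φ t' = q) {f : MvPolynomial ℕ U} (hf : f ∈ SS q' t') :
    EP.EPos q r (MvPolynomial.map φ f) := by
  unfold SS at hf
  induction hf using Subsemiring.closure_induction with
  | mem x hx =>
    rcases hx with ⟨n, rfl⟩ | hx
    · have : MvPolynomial.map φ (ee n : MvPolynomial ℕ U) = EP.e K n := by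
        rw [← IA_e]
        unfold ee
        split_ifs <;> simp
      show EP.EPos q r (MvPolynomial.map φ (ee n : MvPolynomial ℕ U))
      rw [this]
      exact EP.EPos.e q r n
    · rcases hx with rfl | hx
      · rw [MvPolynomial.map_C, map_sub, hq, map_one, add_sub_cancel_left]
        have := EP.EPos.C_mul (EP.NPos.r q r) (EP.EPos.one q r)
        rwa [mul_one] at this
      · rw [Set.mem_singleton_iff] at hx
        rw [hx, MvPolynomial.map_C, ht]
        have := EP.EPos.C_mul (EP.NPos.q q r) (EP.EPos.one q r)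
        rwa [mul_one] at this
  | zero => rw [map_zero]; exact EP.EPos.zero q r
  | one => rw [map_one]; exact EP.EPos.one q r
  | add x y _ _ hx hy => rw [map_add]; exact EP.EPos.add hx hy
  | mul x y _ _ hx hy => rw [map_mul]; exact EP.EPos.mul hx hy

end

end Pool.Agent.Helper95.SH
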