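import Pool.Agent.Helper95.SH.XC

namespace Pool.Agent.Helper95.SH

open Finset

/-! ## L1 (file LC.lean): lines, the chain of crossings (uses X2) -/

/-- Heights of the highest path weakly below the diagonal from `(0, n)` to `(m, 0)`. -/
def yE (m n : ℕ) (j : ℕ) : ℤ := ((m - j : ℕ) * n / m : ℕ)

/-- Heights of the highest path from `(0, n)` strictly below the diagonal after the start. -/
def yH (m n : ℕ) (j : ℕ) : ℤ := if j = 0 then n else if m ≤ j then 0 else (((m - j) * n + m - 1) / m : ℕ) - 1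

/-- South runs of a path given by its heights. -/
def runs (y : ℕ → ℤ) (m : ℕ) : Fin (m + 1) → ℤ := fun i => y i - if (i : ℕ) = m then 0 else y (i + 1)

/-- The number of cells between the staircases. -/
def alpha (m n : ℕ) : ℕ := ∑ j ∈ range n, (j * m / n - j * (m - 1) / n)

/-- Heights of the line with intercept `n + δ` and slope `p`. -/
noncomputable def hgt (n : ℕ) (δ p : ℝ) (j : ℕ) : ℤ := ⌊(n : ℝ) + δ - p * j⌋

/-- The gaps. -/
noncomputable def LC_c (n : ℕ) (δ p : ℝ) (j : ℕ) : ℝ := (n : ℝ) + δ - p * j - hgt n δ p j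

theorem LC_c_nonneg (n : ℕ) (δ p : ℝ) (j : ℕ) : 0 ≤ LC_c n δ p j := by
  unfold LC_c hgt
  linarith [Int.floor_le ((n : ℝ) + δ - p * j)]

theorem LC_c_lt (n : ℕ) (δ p : ℝ) (j : ℕ) : LC_c n δ p j < 1 := by
  unfold LC_c hgt
  linarith [Int.lt_floor_add_one ((n : ℝ) + δ - p * j)]

theorem LC_hgt_zero (n : ℕ) {δ : ℝ} (hδ0 : 0 < δ) (hδ1 : δ < 1) (p : ℝ) : hgt n δ p 0 = n := by
  unfold hgt
  rw [Int.floor_eq_iff]
  push_cast
  constructor <;> linarith

theorem LC_c_zero (n : ℕ) {δ : ℝ} (hδ0 : 0 < δ) (hδ1 : δ < 1) (p : ℝ) : LC_c n δ p 0 = δ := by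
  unfold LC_c
  rw [LC_hgt_zero n hδ0 hδ1]
  push_cast
  ring

theorem LC_sum_runs (y : ℕ → ℤ) (m : ℕ) : ∑ i, runs y m i = y 0 := by
  have h : ∀ i : Fin (m + 1), runs y m i = (fun j : ℕ => y j - if j = m then 0 else y (j + 1)) i :=
    fun i => rfl
  rw [Finset.sum_congr rfl fun i _ => h i]
  rw [Fin.sum_univ_eq_sum_range (fun j : ℕ => y j - if j = m then 0 else y (j + 1)) (m + 1)]
  rw [Finset.sum_range_succ]
  rw [Finset.sum_congr rfl (g := fun j => y j - y (j + 1))]
  · rw [Finset.sum_range_sub']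
    simp
  · intro j hj
    rw [Finset.mem_range] at hj
    rw [if_neg (by omega)]

theorem LC_runs_castSucc (y : ℕ → ℤ) (m : ℕ) (i : Fin m) :
    runs y m i.castSucc = y i - y (i + 1) := by
  unfold runs
  rw [if_neg]
  · rfl
  · have := i.2
    rw [Fin.val_castSucc]
    omega

theorem LC_runs_last (y : ℕ → ℤ) (m : ℕ) : runs y m (Fin.last m) = y m := by
  unfold runs
  rw [if_pos (Fin.val_last m), Fin.val_last, sub_zero]

/-- The condition on the slope: no multiple of `p` is an integer. -/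
def LC_irr (p : ℝ) : Prop := ∀ d : ℤ, d ≠ 0 → ∀ z : ℤ, p * d ≠ z

theorem LC_gen {p : ℝ} (hp : LC_irr p) {l : ℕ} (A : ℝ) (f : Fin l → ℕ) (hf : Function.Injective f)
    (g : Fin l → ℤ) : Gen (fun i => A - p * f i + g i) := by
  intro i j hij z h
  have h1 : ((f j : ℤ) - (f i : ℤ)) ≠ 0 := by
    intro h0
    apply hij
    apply hf
    omega
  refine hp _ h1 (z - g i + g j) ?_
  push_cast
  linarith

theorem LC_line (m n : ℕ) {δ : ℝ} (hδ0 : 0 < δ) (hδ1 : δ < 1) {p : ℝ}
    (hp : (n : ℝ) / (m + 2) ≤ p) (hirr : LC_irr p) :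
    Line (runs (hgt n δ p) (m + 1)) (fun j : Fin (m + 2) => LC_c n δ p j)
      ((n : ℝ) + δ - p * (m + 2)) (-p) := by
  have hm : (0 : ℝ) < (m : ℝ) + 2 := by positivity
  have hp' : (n : ℝ) ≤ p * (m + 2) := by
    rw [div_le_iff₀ hm] at hp
    exact hp
  constructor
  · intro i
    rw [LC_runs_castSucc]
    unfold LC_c
    simp only [Fin.val_succ, Fin.val_castSucc]
    push_cast
    ring
  · rw [LC_runs_last]
    unfold LC_c
    simp only [Fin.val_last]
    push_cast
    ring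
  · have := LC_gen hirr (l := m + 2) ((n : ℝ) + δ) (fun i => (i : ℕ)) Fin.val_injective
      (fun i => -hgt n δ p i)
    refine (congrArg Gen (funext fun i => ?_)).mp this
    unfold LC_c
    push_cast
    ring
  · have := LC_gen hirr (l := m + 2) ((n : ℝ) + δ) (fun i => (i : ℕ) + 1)
      (fun a b h => Fin.val_injective (by simpa using h))
      (fun i => if (i : ℕ) = m + 1 then 0 else -hgt n δ p (i + 1))
    refine (congrArg Gen (funext fun i => ?_)).mp this
    refine Fin.lastCases ?_ (fun i => ?_) i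
    · rw [Fin.snoc_last, if_pos (Fin.val_last _), Fin.val_last]
      push_cast
      ring
    · rw [Fin.snoc_castSucc, if_neg]
      · unfold LC_c
        simp only [Fin.val_succ, Fin.val_castSucc]
        push_cast
        ring
      · have := i.2
        rw [Fin.val_castSucc]
        omega
  · intro i j
    have := LC_c_lt n δ p i.succ
    have := LC_c_nonneg n δ p j.succ
    linarith
  · intro j
    have := LC_c_lt n δ p (0 : Fin (m + 2))
    have := LC_c_nonneg n δ p j.succ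
    linarith
  · intro j
    have := LC_c_nonneg n δ p j.succ
    linarith
  · rw [LC_sum_runs, LC_hgt_zero n hδ0 hδ1]
    positivity

theorem LC_line' (m n : ℕ) {δ : ℝ} (hδ0 : 0 < δ) (hδ1 : δ < 1) {p : ℝ}
    (hp : (n : ℝ) / (m + 2) ≤ p) (hirr : LC_irr p) (i₀ : Fin (m + 1))
    (h0 : LC_c n δ p (i₀.succ : Fin (m + 2)) = 0)
    (hpos : ∀ j : Fin (m + 1), j ≠ i₀ → 0 < LC_c n δ p (j.succ : Fin (m + 2))) :
    Line (runs (hgt n δ p) (m + 1) + Pi.single i₀.castSucc 1 - Pi.single i₀.succ 1)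
      ((fun j : Fin (m + 2) => LC_c n δ p j) + Pi.single i₀.succ 1)
      ((n : ℝ) + δ - p * (m + 2)) (-p) := by
  have hL := LC_line m n hδ0 hδ1 hp hirr
  have hm : (0 : ℝ) < (m : ℝ) + 2 := by positivity
  have hp' : (n : ℝ) ≤ p * (m + 2) := by
    rw [div_le_iff₀ hm] at hp
    exact hp
  have key : ∀ j : Fin (m + 2), (Pi.single i₀.succ (1 : ℝ) : Fin (m + 2) → ℝ) j =
      (((Pi.single i₀.succ (1 : ℤ) : Fin (m + 2) → ℤ) j : ℤ) : ℝ) := by
    intro j
    by_cases h : j = i₀.succ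
    · subst h
      simp
    · simp [Pi.single_eq_of_ne h]
  have keyc : ∀ i : Fin (m + 1), (Pi.single i₀.castSucc (1 : ℤ) : Fin (m + 2) → ℤ) i.castSucc =
      (Pi.single i₀.succ (1 : ℤ) : Fin (m + 2) → ℤ) i.succ := by
    intro i
    by_cases h : i = i₀
    · subst h
      simp
    · rw [Pi.single_eq_of_ne (fun e => h (Fin.castSucc_injective _ e)),
        Pi.single_eq_of_ne (fun e => h (Fin.succ_injective _ e))]
  constructor
  · intro i
    have h1 := hL.h1 i
    simp only [Pi.add_apply, Pi.sub_apply]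
    rw [keyc i, key, key, h1]
    push_cast
    ring
  · have h2 := hL.h2
    simp only [Pi.add_apply, Pi.sub_apply]
    rw [key, h2]
    have : (Pi.single i₀.castSucc (1 : ℤ) : Fin (m + 2) → ℤ) (Fin.last (m + 1)) = 0 := by
      refine Pi.single_eq_of_ne ?_ _
      exact (Fin.castSucc_lt_last i₀).ne'
    rw [this]
    push_cast
    ring
  · have := LC_gen hirr (l := m + 2) ((n : ℝ) + δ) (fun i => (i : ℕ)) Fin.val_injective
      (fun i => -hgt n δ p i + (Pi.single i₀.succ (1 : ℤ) : Fin (m + 2) → ℤ) i)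
    refine (congrArg Gen (funext fun i => ?_)).mp this
    rw [Pi.add_apply, key]
    unfold LC_c
    push_cast
    ring
  · have := LC_gen hirr (l := m + 2) ((n : ℝ) + δ) (fun i => (i : ℕ) + 1)
      (fun a b h => Fin.val_injective (by simpa using h))
      (Fin.snoc (α := fun _ => ℤ) (fun i : Fin (m + 1) => -hgt n δ p (i + 1) +
        (Pi.single i₀.succ (1 : ℤ) : Fin (m + 2) → ℤ) i.succ) 0)
    refine (congrArg Gen (funext fun i => ?_)).mp this
    refine Fin.lastCases ?_ (fun i => ?_) i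
    · rw [Fin.snoc_last, Fin.snoc_last, Fin.val_last]
      push_cast
      ring
    · rw [Fin.snoc_castSucc, Fin.snoc_castSucc, Pi.add_apply, key]
      unfold LC_c
      simp only [Fin.val_succ, Fin.val_castSucc]
      push_cast
      ring
  · intro i j
    simp only [Pi.add_apply]
    rw [key, key]
    have a1 := LC_c_lt n δ p i.succ
    have a2 := LC_c_nonneg n δ p j.succ
    by_cases hi : i = i₀
    · subst hi
      rw [h0]
      by_cases hj : j = i
      · subst hj
        rw [h0]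
        simp
      · have := hpos j hj
        rw [Pi.single_eq_of_ne (fun e => hj (Fin.succ_injective _ e)), Pi.single_eq_same]
        simp only [Int.cast_zero, Int.cast_one]
        linarith
    · rw [Pi.single_eq_of_ne (fun e => hi (Fin.succ_injective _ e))]
      by_cases hj : j = i₀
      · subst hj
        rw [h0, Pi.single_eq_same]
        simp only [Int.cast_zero, Int.cast_one]
        linarith
      · rw [Pi.single_eq_of_ne (fun e => hj (Fin.succ_injective _ e))]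
        simp only [Int.cast_zero]
        linarith
  · intro j
    simp only [Pi.add_apply]
    rw [key, key]
    have a1 := LC_c_lt n δ p (0 : Fin (m + 2))
    have a2 := LC_c_nonneg n δ p j.succ
    rw [Pi.single_eq_of_ne (Fin.succ_ne_zero i₀).symm]
    have a3 : (0 : ℝ) ≤ (((Pi.single i₀.succ (1 : ℤ) : Fin (m + 2) → ℤ) j.succ : ℤ) : ℝ) := by
      by_cases hj : j = i₀
      · subst hj
        simp
      · rw [Pi.single_eq_of_ne (fun e => hj (Fin.succ_injective _ e))]
        simp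
    simp only [Int.cast_zero]
    linarith
  · intro j
    simp only [Pi.add_apply]
    rw [key]
    have a2 := LC_c_nonneg n δ p j.succ
    have a3 : (0 : ℝ) ≤ (((Pi.single i₀.succ (1 : ℤ) : Fin (m + 2) → ℤ) j.succ : ℤ) : ℝ) := by
      by_cases hj : j = i₀
      · subst hj
        simp
      · rw [Pi.single_eq_of_ne (fun e => hj (Fin.succ_injective _ e))]
        simp
    linarith
  · have : ∑ i, (runs (hgt n δ p) (m + 1) + Pi.single i₀.castSucc 1 -
        Pi.single i₀.succ 1 : Fin (m + 2) → ℤ) i = ∑ i, runs (hgt n δ p) (m + 1) i := by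
      simp only [Pi.add_apply, Pi.sub_apply, Finset.sum_sub_distrib, Finset.sum_add_distrib]
      simp
    rw [this]
    exact hL.pos

/-- Lowering the path at one place. -/
theorem LC_runs_lower (y y' : ℕ → ℤ) (m : ℕ) (i₀ : Fin (m + 1))
    (h : ∀ j, j ≤ m + 1 → y' j = if j = i₀ + 1 then y j - 1 else y j) :
    runs y' (m + 1) = runs y (m + 1) + Pi.single i₀.castSucc 1 - Pi.single i₀.succ 1 := by
  funext i
  have hi := i.2
  have hi0 := i₀.2
  simp only [Pi.add_apply, Pi.sub_apply]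
  have e1 : (Pi.single i₀.castSucc (1 : ℤ) : Fin (m + 2) → ℤ) i = if (i : ℕ) = i₀ then 1 else 0 := by
    rw [Pi.single_apply]
    simp only [Fin.ext_iff, Fin.val_castSucc]
  have e2 : (Pi.single i₀.succ (1 : ℤ) : Fin (m + 2) → ℤ) i = if (i : ℕ) = i₀ + 1 then 1 else 0 := by
    rw [Pi.single_apply]
    simp only [Fin.ext_iff, Fin.val_succ]
  rw [e1, e2]
  unfold runs
  rw [h i (by omega)]
  by_cases hl : (i : ℕ) = m + 1
  · rw [if_pos hl, if_pos hl]
    split_ifs <;> omega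
  · rw [if_neg hl, if_neg hl, h (i + 1) (by omega)]
    split_ifs <;> omega

theorem LC_runs_congr {y y' : ℕ → ℤ} {m : ℕ} (h : ∀ j, j ≤ m + 1 → y' j = y j) :
    runs y' (m + 1) = runs y (m + 1) := by
  funext i
  have hi := i.2
  unfold runs
  rw [h i (by omega)]
  by_cases hl : (i : ℕ) = m + 1
  · rw [if_pos hl, if_pos hl]
  · rw [if_neg hl, if_neg hl, h (i + 1) (by omega)]

theorem LC_hgt_mono (n : ℕ) {δ p q : ℝ} (h : p ≤ q) (j : ℕ) : hgt n δ q j ≤ hgt n δ p j := by
  unfold hgt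
  apply Int.floor_le_floor
  have : p * j ≤ q * j := mul_le_mul_of_nonneg_right h (Nat.cast_nonneg j)
  linarith

/-- The next lattice point. -/
theorem LC_next (m n : ℕ) {δ : ℝ} (hδ : Irrational δ) (hδ0 : 0 < δ) (hδ1 : δ < 1) {p0 p1 : ℝ}
    (hne : ∃ j, j ≤ m + 1 ∧ hgt n δ p0 j < hgt n δ p1 j) :
    ∃ (p : ℝ) (i₀ : Fin (m + 1)), p1 ≤ p ∧ p < p0 ∧ LC_irr p ∧
      (∀ j, j ≤ m + 1 → hgt n δ p0 j = if j = i₀ + 1 then hgt n δ p j - 1 else hgt n δ p j) ∧
      LC_c n δ p (i₀.succ : Fin (m + 2)) = 0 ∧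
      ∀ j : Fin (m + 1), j ≠ i₀ → 0 < LC_c n δ p (j.succ : Fin (m + 2)) := by
  classical
  set F : Fin (m + 1) → ℝ := fun i =>
    ((n : ℝ) + δ - (hgt n δ p0 ((i : ℕ) + 1) + 1)) / ((i : ℕ) + 1 : ℝ) with hF
  obtain ⟨i₀, -, hi₀⟩ := Finset.exists_max_image (univ : Finset (Fin (m + 1))) F univ_nonempty
  have hd : ∀ i : Fin (m + 1), (0 : ℝ) < ((i : ℕ) + 1 : ℝ) := fun i => by positivity
  have hFm : ∀ i : Fin (m + 1), F i * ((i : ℕ) + 1 : ℝ) =
      (n : ℝ) + δ - (hgt n δ p0 ((i : ℕ) + 1) + 1) := by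
    intro i
    rw [hF]
    simp only
    rw [div_mul_cancel₀ _ (hd i).ne']
  -- irrationality of `F i₀`
  have hirr : LC_irr (F i₀) := by
    intro d hd0 z hz
    have h1 := hFm i₀
    have h2 : δ * d = z * ((i₀ : ℕ) + 1 : ℝ) - ((n : ℝ) - (hgt n δ p0 ((i₀ : ℕ) + 1) + 1)) * d := by
      linear_combination (-(d : ℝ)) * h1 + ((i₀ : ℕ) + 1 : ℝ) * hz
    have h3 : Irrational (δ * d) := hδ.mul_intCast hd0
    apply h3
    refine ⟨((z * ((i₀ : ℕ) + 1 : ℤ) - ((n : ℤ) - (hgt n δ p0 ((i₀ : ℕ) + 1) + 1)) * d : ℤ) : ℚ), ?_⟩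
    rw [h2]
    push_cast
    ring
  -- strictness
  have hlt : ∀ i : Fin (m + 1), i ≠ i₀ → F i < F i₀ := by
    intro i hi
    refine lt_of_le_of_ne (hi₀ i (mem_univ i)) ?_
    intro he
    have h1 := hFm i₀
    have h2 := hFm i
    rw [he] at h2
    refine hirr ((i : ℤ) - (i₀ : ℤ)) ?_
      ((hgt n δ p0 ((i₀ : ℕ) + 1) + 1) - (hgt n δ p0 ((i : ℕ) + 1) + 1)) ?_
    · intro h
      apply hi
      apply Fin.val_injective
      omega
    · push_cast
      linear_combination h2 - h1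
  have hp0 : F i₀ < p0 := by
    have h1 := hFm i₀
    have h2 : (n : ℝ) + δ - p0 * ((i₀ : ℕ) + 1 : ℕ) < hgt n δ p0 ((i₀ : ℕ) + 1) + 1 :=
      Int.lt_floor_add_one _
    push_cast at h2
    have h3 : F i₀ * ((i₀ : ℕ) + 1 : ℝ) < p0 * ((i₀ : ℕ) + 1 : ℝ) := by linarith
    exact lt_of_mul_lt_mul_right h3 (hd i₀).le
  have hp1' : p1 ≤ F i₀ := by
    obtain ⟨j, hj, hjl⟩ := hne
    rcases Nat.eq_zero_or_pos j with h0 | h0
    · subst h0
      rw [LC_hgt_zero n hδ0 hδ1, LC_hgt_zero n hδ0 hδ1] at hjl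
      exact absurd hjl (lt_irrefl _)
    · have hj1 : j - 1 < m + 1 := by omega
      have e : ((⟨j - 1, hj1⟩ : Fin (m + 1)) : ℕ) + 1 = j := by
        show j - 1 + 1 = j
        omega
      have h1 := hFm ⟨j - 1, hj1⟩
      rw [e] at h1
      have e' : (((⟨j - 1, hj1⟩ : Fin (m + 1)) : ℕ) + 1 : ℝ) = j := by
        exact_mod_cast e
      rw [e'] at h1
      have h2 : (hgt n δ p1 j : ℝ) ≤ (n : ℝ) + δ - p1 * j := Int.floor_le _
      have h3 : (hgt n δ p0 j : ℝ) + 1 ≤ hgt n δ p1 j := by exact_mod_cast hjl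
      have h4 : p1 * (j : ℝ) ≤ F ⟨j - 1, hj1⟩ * j := by linarith
      have hjp : (0 : ℝ) < j := by exact_mod_cast h0
      exact (le_of_mul_le_mul_right h4 hjp).trans (hi₀ _ (mem_univ _))
  -- heights at the new slope
  have hh0 : (n : ℝ) + δ - F i₀ * ((i₀ : ℕ) + 1 : ℕ) = (hgt n δ p0 ((i₀ : ℕ) + 1) + 1 : ℤ) := by
    have h1 := hFm i₀
    push_cast
    linarith
  have hh0' : hgt n δ (F i₀) ((i₀ : ℕ) + 1) = hgt n δ p0 ((i₀ : ℕ) + 1) + 1 := by
    show ⌊(n : ℝ) + δ - F i₀ * ((i₀ : ℕ) + 1 : ℕ)⌋ = _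
    rw [hh0, Int.floor_intCast]
  have hh : ∀ i : Fin (m + 1), i ≠ i₀ →
      (n : ℝ) + δ - F i₀ * ((i : ℕ) + 1 : ℕ) < hgt n δ p0 ((i : ℕ) + 1) + 1 ∧
      (hgt n δ p0 ((i : ℕ) + 1) : ℝ) < (n : ℝ) + δ - F i₀ * ((i : ℕ) + 1 : ℕ) := by
    intro i hi
    have h1 := hFm i
    have h2 := mul_lt_mul_of_pos_right (hlt i hi) (hd i)
    have h3 : (hgt n δ p0 ((i : ℕ) + 1) : ℝ) ≤ (n : ℝ) + δ - p0 * ((i : ℕ) + 1 : ℕ) :=
      Int.floor_le _
    have h4 := mul_lt_mul_of_pos_right hp0 (hd i)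
    push_cast at h3 ⊢
    constructor <;> linarith
  have hh' : ∀ i : Fin (m + 1), i ≠ i₀ →
      hgt n δ (F i₀) ((i : ℕ) + 1) = hgt n δ p0 ((i : ℕ) + 1) := by
    intro i hi
    obtain ⟨h1, h2⟩ := hh i hi
    show ⌊(n : ℝ) + δ - F i₀ * ((i : ℕ) + 1 : ℕ)⌋ = _
    rw [Int.floor_eq_iff]
    exact ⟨h2.le, h1⟩
  refine ⟨F i₀, i₀, hp1', hp0, hirr, ?_, ?_, ?_⟩
  · intro j hj
    rcases Nat.eq_zero_or_pos j with h0 | h0
    · subst h0
      rw [if_neg (by omega), LC_hgt_zero n hδ0 hδ1, LC_hgt_zero n hδ0 hδ1]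
    · have hj1 : j - 1 < m + 1 := by omega
      have e : ((⟨j - 1, hj1⟩ : Fin (m + 1)) : ℕ) + 1 = j := by
        show j - 1 + 1 = j
        omega
      by_cases hji : j = i₀ + 1
      · rw [if_pos hji, hji, hh0']
        ring
      · rw [if_neg hji]
        have := hh' ⟨j - 1, hj1⟩ (by
          intro h
          apply hji
          rw [← h]
          exact e.symm)
        rw [e] at this
        exact this.symm
  · unfold LC_c
    simp only [Fin.val_succ]
    rw [hh0', hh0]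
    ring
  · intro j hj
    unfold LC_c
    simp only [Fin.val_succ]
    rw [hh' j hj]
    have := (hh j hj).2
    linarith

theorem LC_X1_mem : (MvPolynomial.C (MvPolynomial.X 1) : MvPolynomial ℕ U2) ∈
    SS (MvPolynomial.X 0 : U2) (MvPolynomial.X 1) :=
  Subsemiring.subset_closure (Or.inr (Or.inr rfl))

/-- Rotating the line about `(0, n + δ)` crosses the lattice points one at a time. -/
theorem chain (m n : ℕ) {δ : ℝ} (hδ : Irrational δ) (hδ0 : 0 < δ) (hδ1 : δ < 1) {p0 p1 : ℝ}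
    (hp : p1 ≤ p0) (hp1 : (n : ℝ) / (m + 2) ≤ p1) :
    EV (MvPolynomial.X 0 : U2) (MvPolynomial.X 1) (runs (hgt n δ p1) (m + 1)) -
      MvPolynomial.C (MvPolynomial.X 1) ^
        (∑ j ∈ range (m + 2), (hgt n δ p1 j - hgt n δ p0 j)).toNat *
      EV (MvPolynomial.X 0 : U2) (MvPolynomial.X 1) (runs (hgt n δ p0) (m + 1)) ∈
      SS (MvPolynomial.X 0 : U2) (MvPolynomial.X 1) := by
  obtain ⟨N, hN⟩ : ∃ N : ℕ, N = (∑ j ∈ range (m + 2), (hgt n δ p1 j - hgt n δ p0 j)).toNat :=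
    ⟨_, rfl⟩
  rw [← hN]
  have hnn : ∀ q, p1 ≤ q → 0 ≤ ∑ j ∈ range (m + 2), (hgt n δ p1 j - hgt n δ q j) := by
    intro q hq
    refine Finset.sum_nonneg fun j _ => ?_
    have := LC_hgt_mono n (δ := δ) hq j
    linarith
  induction N generalizing p0 with
  | zero =>
    have h0 : ∑ j ∈ range (m + 2), (hgt n δ p1 j - hgt n δ p0 j) = 0 := by
      have := hnn p0 hp
      omega
    rw [Finset.sum_eq_zero_iff_of_nonneg] at h0
    · rw [LC_runs_congr (y := hgt n δ p0) (y' := hgt n δ p1)]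
      · rw [pow_zero, one_mul, sub_self]
        exact Subsemiring.zero_mem _
      · intro j hj
        have := h0 j (Finset.mem_range.2 (by omega))
        linarith
    · intro j _
      have := LC_hgt_mono n (δ := δ) hp j
      linarith
  | succ N ih =>
    have hsum : ∑ j ∈ range (m + 2), (hgt n δ p1 j - hgt n δ p0 j) = N + 1 := by
      have := hnn p0 hp
      omega
    have hne : ∃ j, j ≤ m + 1 ∧ hgt n δ p0 j < hgt n δ p1 j := by
      by_contra hcon
      push Not at hcon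
      have : ∑ j ∈ range (m + 2), (hgt n δ p1 j - hgt n δ p0 j) ≤ 0 := by
        refine Finset.sum_nonpos fun j hj => ?_
        rw [Finset.mem_range] at hj
        have := hcon j (by omega)
        linarith
      omega
    obtain ⟨p, i₀, hpp1, hpp0, hirr, hh, hc0, hcpos⟩ := LC_next m n hδ hδ0 hδ1 hne
    have hL := LC_line m n hδ0 hδ1 (hp1.trans hpp1) hirr
    have hL' := LC_line' m n hδ0 hδ1 (hp1.trans hpp1) hirr i₀ hc0 hcpos
    have hcr := crossing hL i₀ hL'
    rw [← LC_runs_lower (hgt n δ p) (hgt n δ p0) m i₀ hh] at hcr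
    have hdiff : ∑ j ∈ range (m + 2), (hgt n δ p j - hgt n δ p0 j) = 1 := by
      have : ∀ j ∈ range (m + 2), hgt n δ p j - hgt n δ p0 j = if j = (i₀ : ℕ) + 1 then 1 else 0 := by
        intro j hj
        rw [Finset.mem_range] at hj
        rw [hh j (by omega)]
        split_ifs <;> ring
      rw [Finset.sum_congr rfl this, Finset.sum_ite_eq']
      rw [if_pos]
      rw [Finset.mem_range]
      have := i₀.2
      omega
    have hsum' : ∑ j ∈ range (m + 2), (hgt n δ p1 j - hgt n δ p j) = N := by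
      have e : ∀ j ∈ range (m + 2), hgt n δ p1 j - hgt n δ p j =
          (hgt n δ p1 j - hgt n δ p0 j) - (hgt n δ p j - hgt n δ p0 j) := by
        intro j _
        ring
      rw [Finset.sum_congr rfl e, Finset.sum_sub_distrib, hsum, hdiff]
      ring
    have hIH := ih (p0 := p) hpp1 (by rw [hsum']; simp)
    have hfin := Subsemiring.add_mem _ hIH
      (Subsemiring.mul_mem _ (Subsemiring.pow_mem _ LC_X1_mem N) hcr)
    refine (congrArg (· ∈ SS (MvPolynomial.X 0 : U2) (MvPolynomial.X 1)) ?_).mp hfin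
    ring

end Pool.Agent.Helper95.SH
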