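import Pool.Agent.Helper95.SH.XT

namespace Pool.Agent.Helper95.SH

open Finset

/-! ## X2 (file XC.lean): crossing of a lattice point (uses X1) -/

/-- Run lengths of the path given by `a`. -/
def XC_run {m : ℕ} (b : Fin (m + 1) → ℤ) (a : Fin m → ℕ) : Fin (m + 1) → ℤ :=
  b + Fin.snoc (fun i => (a i : ℤ)) 0 - Fin.cons 0 fun i => (a i : ℤ)

theorem XC_finite {m : ℕ} (b : Fin (m + 1) → ℤ) : {a : Fin m → ℕ | ∀ i, 0 ≤ XC_run b a i}.Finite := by
  refine Set.Finite.subset (Set.finite_Iic fun _ : Fin m => (∑ i, |b i|).toNat) ?_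
  intro a ha
  rw [Set.mem_setOf_eq] at ha
  have key : ∀ j : Fin (m + 1), (Fin.snoc (fun i => (a i : ℤ)) 0 : Fin (m + 1) → ℤ) j ≤
      ∑ i ∈ univ.filter fun i => j < i, |b i| := by
    intro j
    induction j using Fin.reverseInduction with
    | last =>
      rw [Fin.snoc_last]
      exact Finset.sum_nonneg fun i _ => abs_nonneg _
    | cast i ih =>
      have h1 := ha i.succ
      have h2 : XC_run b a i.succ = b i.succ + (Fin.snoc (fun i => (a i : ℤ)) 0 : Fin (m + 1) → ℤ)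
          i.succ - a i := by
        unfold XC_run
        rw [Pi.sub_apply, Pi.add_apply, Fin.cons_succ]
      rw [h2] at h1
      rw [Fin.snoc_castSucc]
      have h3 : univ.filter (fun j : Fin (m + 1) => i.castSucc < j) =
          insert i.succ (univ.filter fun j : Fin (m + 1) => i.succ < j) := by
        ext j
        simp only [mem_filter, mem_univ, true_and, mem_insert, Fin.lt_def, Fin.ext_iff,
          Fin.val_castSucc, Fin.val_succ]
        omega
      rw [h3, Finset.sum_insert (by simp)]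
      have h4 := le_abs_self (b i.succ)
      linarith
  intro i
  have h1 := key i.castSucc
  rw [Fin.snoc_castSucc] at h1
  have h2 : ∑ j ∈ univ.filter (fun j : Fin (m + 1) => i.castSucc < j), |b j| ≤ ∑ j, |b j| :=
    Finset.sum_le_sum_of_subset_of_nonneg (Finset.filter_subset _ _) fun j _ _ => abs_nonneg _
  have h3 : (a i : ℤ) ≤ ∑ j, |b j| := h1.trans h2
  show a i ≤ (∑ j, |b j|).toNat
  omega

theorem XC_vec {m : ℕ} (c : Fin (m + 1) → ℝ) (i₀ : Fin m) (a : Fin m → ℕ) :
    sh (c + Pi.single i₀.succ 1) (Fin.cons 0 fun i => (a i : ℤ)) =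
      sh c (Fin.cons 0 fun i => (((a + Pi.single i₀ 1 : Fin m → ℕ) i : ℕ) : ℤ)) := by
  funext j
  unfold sh
  refine Fin.cases ?_ (fun i => ?_) j
  · rw [Fin.cons_zero, Fin.cons_zero, Pi.add_apply, Pi.single_eq_of_ne (Fin.succ_ne_zero i₀).symm,
      add_zero]
  · rw [Fin.cons_succ, Fin.cons_succ, Pi.add_apply, Pi.add_apply, Pi.single_apply,
      Pi.single_apply]
    simp only [Fin.succ_inj]
    split_ifs <;> push_cast <;> ring

theorem XC_run_eq {m : ℕ} (b : Fin (m + 1) → ℤ) (i₀ : Fin m) (a : Fin m → ℕ) :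
    XC_run (b + Pi.single i₀.castSucc 1 - Pi.single i₀.succ 1) a =
      XC_run b (a + Pi.single i₀ 1) := by
  have h1 : (Fin.snoc (fun i => (((a + Pi.single i₀ 1 : Fin m → ℕ) i : ℕ) : ℤ)) 0 : Fin (m + 1) → ℤ) =
      Fin.snoc (fun i => (a i : ℤ)) 0 + Pi.single i₀.castSucc 1 := by
    funext j
    refine Fin.lastCases ?_ (fun i => ?_) j
    · rw [Fin.snoc_last, Pi.add_apply, Fin.snoc_last, Pi.single_eq_of_ne (Fin.castSucc_lt_last i₀).ne']
      rfl
    · rw [Fin.snoc_castSucc, Pi.add_apply, Pi.add_apply, Fin.snoc_castSucc, Pi.single_apply,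
        Pi.single_apply]
      simp only [Fin.castSucc_inj]
      split_ifs <;> push_cast <;> ring
  have h2 : (Fin.cons 0 (fun i => (((a + Pi.single i₀ 1 : Fin m → ℕ) i : ℕ) : ℤ)) : Fin (m + 1) → ℤ) =
      Fin.cons 0 (fun i => (a i : ℤ)) + Pi.single i₀.succ 1 := by
    funext j
    refine Fin.cases ?_ (fun i => ?_) j
    · rw [Fin.cons_zero, Pi.add_apply, Fin.cons_zero, Pi.single_eq_of_ne (Fin.succ_ne_zero i₀).symm]
      rfl
    · rw [Fin.cons_succ, Pi.add_apply, Pi.add_apply, Fin.cons_succ, Pi.single_apply,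
        Pi.single_apply]
      simp only [Fin.succ_inj]
      split_ifs <;> push_cast <;> ring
  unfold XC_run
  rw [h1, h2]
  abel

theorem crossing {m : ℕ} {b : Fin (m + 1) → ℤ} {c : Fin (m + 1) → ℝ} {c' κ₀ : ℝ}
    (hL : Line b c c' κ₀) (i₀ : Fin m)
    (hL' : Line (b + Pi.single i₀.castSucc 1 - Pi.single i₀.succ 1) (c + Pi.single i₀.succ 1)
      c' κ₀) :
    EV (MvPolynomial.X 0 : U2) (MvPolynomial.X 1) b - MvPolynomial.C (MvPolynomial.X 1) *
      EV (MvPolynomial.X 0 : U2) (MvPolynomial.X 1)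
        (b + Pi.single i₀.castSucc 1 - Pi.single i₀.succ 1) ∈
      SS (MvPolynomial.X 0 : U2) (MvPolynomial.X 1) := by
  classical
  obtain ⟨G, hG1, hG2⟩ := path_sum
  set b' := b + Pi.single i₀.castSucc 1 - Pi.single i₀.succ 1 with hb'
  set F : Finset (Fin m → ℕ) := (XC_finite b).toFinset with hF
  have hFm : ∀ a : Fin m → ℕ, a ∈ F ↔ ∀ i, 0 ≤ XC_run b a i := by
    intro a
    rw [hF, Set.Finite.mem_toFinset, Set.mem_setOf_eq]
  set F' : Finset (Fin m → ℕ) := (XC_finite b').toFinset with hF'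
  have hFm' : ∀ a : Fin m → ℕ, a ∈ F' ↔ ∀ i, 0 ≤ XC_run b' a i := by
    intro a
    rw [hF', Set.Finite.mem_toFinset, Set.mem_setOf_eq]
  have e1 := hG2 m b c c' κ₀ hL F fun a ha => (hFm a).2 ha
  have e2 := hG2 m b' _ c' κ₀ hL' F' fun a ha => (hFm' a).2 ha
  have hs : ∑ i, b' i = ∑ i, b i := by
    rw [hb']
    simp only [Pi.sub_apply, Pi.add_apply, Finset.sum_sub_distrib, Finset.sum_add_distrib]
    rw [Finset.sum_pi_single', Finset.sum_pi_single']
    simp
  rw [hs] at e2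
  have e3 : MvPolynomial.C (MvPolynomial.X 1) * EV (MvPolynomial.X 0 : U2) (MvPolynomial.X 1) b' =
      ∑ a ∈ F.filter (fun a => a i₀ ≠ 0), MvPolynomial.C (MvPolynomial.X 1) ^ (∑ i, a i) *
          G (∑ i, b i).toNat (sh c (Fin.cons 0 fun i => (a i : ℤ))) (XC_run b a) := by
    rw [e2, Finset.mul_sum]
    refine Finset.sum_bij (fun a _ => a + Pi.single i₀ 1) ?_ ?_ ?_ ?_
    · intro a ha
      rw [mem_filter, hFm]
      refine ⟨?_, ?_⟩
      · rw [← XC_run_eq]
        exact (hFm' a).1 ha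
      · rw [Pi.add_apply, Pi.single_eq_same]
        omega
    · intro a _ a2 _ h
      exact add_right_cancel h
    · intro a ha
      rw [mem_filter] at ha
      have h1 : a - Pi.single i₀ 1 + Pi.single i₀ 1 = a := by
        funext i
        rw [Pi.add_apply, Pi.sub_apply, Pi.single_apply]
        split_ifs with h
        · rw [h]
          have := ha.2
          omega
        · rfl
      refine ⟨a - Pi.single i₀ 1, ?_, h1⟩
      rw [hFm', hb', XC_run_eq, h1]
      exact (hFm a).1 ha.1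
    · intro a _
      have h1 : ∑ i, (a + Pi.single i₀ 1 : Fin m → ℕ) i = (∑ i, a i) + 1 := by
        simp only [Pi.add_apply, Finset.sum_add_distrib]
        rw [Finset.sum_pi_single']
        simp
      rw [h1, ← XC_run_eq, ← XC_vec, pow_succ']
      unfold XC_run
      ring
  rw [e3, e1]
  have e4 : ∑ a ∈ F, MvPolynomial.C (MvPolynomial.X 1) ^ (∑ i, a i) *
          G (∑ i, b i).toNat (sh c (Fin.cons 0 fun i => (a i : ℤ)))
            (b + Fin.snoc (fun i => (a i : ℤ)) 0 - Fin.cons 0 fun i => (a i : ℤ)) =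
      ∑ a ∈ F.filter (fun a => a i₀ ≠ 0), MvPolynomial.C (MvPolynomial.X 1) ^ (∑ i, a i) *
          G (∑ i, b i).toNat (sh c (Fin.cons 0 fun i => (a i : ℤ))) (XC_run b a) +
      ∑ a ∈ F.filter (fun a => ¬ a i₀ ≠ 0), MvPolynomial.C (MvPolynomial.X 1) ^ (∑ i, a i) *
          G (∑ i, b i).toNat (sh c (Fin.cons 0 fun i => (a i : ℤ))) (XC_run b a) :=
    (Finset.sum_filter_add_sum_filter_not F (fun a => a i₀ ≠ 0) _).symm
  rw [e4, add_sub_cancel_left]
  refine Subsemiring.sum_mem _ fun a _ => Subsemiring.mul_mem _ (Subsemiring.pow_mem _ XT_t_mem _)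
    (hG1 _ _ _ _)

end Pool.Agent.Helper95.SH
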