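import Pool.Agent.Helper95.SH.CA
import Pool.Agent.Helper95.SH.DK
import Pool.Agent.Helper95.SH.HP

namespace Pool.Agent.Helper95.SH

open Finset

/-! ## X1 (file XT.lean): the path sum over the universal ring (uses everything above) -/

/-- The universal ring. -/
abbrev U2 : Type := MvPolynomial (Fin 2) ℤ

/-- Data of a line: `b` the south runs of the highest path, `c` the gaps. -/
structure Line {m : ℕ} (b : Fin (m + 1) → ℤ) (c : Fin (m + 1) → ℝ) (c' κ₀ : ℝ) : Prop where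
  h1 : ∀ i : Fin m, c i.succ = c i.castSucc + b i.castSucc + κ₀
  h2 : c' = c (Fin.last m) + b (Fin.last m) + κ₀
  gen : Gen c
  gen' : Gen (Fin.snoc (fun i : Fin m => c i.succ) c' : Fin (m + 1) → ℝ)
  w : ∀ i j : Fin m, c i.succ - c j.succ < 1
  w0 : ∀ j : Fin m, c 0 < c j.succ + 1
  w' : ∀ j : Fin m, c' < c j.succ + 1
  pos : 0 ≤ ∑ i, b i

section XT

variable {k : Type*} [CommRing k] {l : ℕ}

theorem XT_Om_mem (S : Subsemiring k) (e : ℤ → k) (he : ∀ n, e n ∈ S) (n : ℕ) :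
    (Om e n : LP k (Fin l)) ∈ AddSubmonoid.closure
      {f | ∃ c ∈ S, ∃ ν : Fin l → ℤ, (∀ i, 0 ≤ ν i) ∧ f = c • xp ν} := by
  unfold Om
  refine AddSubmonoid.sum_mem _ fun ν _ => AddSubmonoid.subset_closure ?_
  exact ⟨_, Subsemiring.prod_mem _ fun i _ => he _, _, fun i => Int.natCast_nonneg _, rfl⟩

theorem XT_Om_symm (e : ℤ → k) (n : ℕ) (σ : Equiv.Perm (Fin l)) :
    pa σ (Om e n : LP k (Fin l)) = Om e n := by
  unfold Om
  rw [map_sum]
  simp only [map_smul, pa_xp]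
  refine Finset.sum_bij' (fun ν _ => ν ∘ σ.symm) (fun ν _ => ν ∘ σ) ?_ ?_ ?_ ?_ ?_
  · intro ν hν
    rw [mem_piAntidiag] at hν ⊢
    refine ⟨?_, fun i _ => mem_univ _⟩
    rw [← hν.1]
    exact Equiv.sum_comp σ.symm ν
  · intro ν hν
    rw [mem_piAntidiag] at hν ⊢
    refine ⟨?_, fun i _ => mem_univ _⟩
    rw [← hν.1]
    exact Equiv.sum_comp σ ν
  · intro ν _
    funext i
    simp
  · intro ν _
    funext i
    simp
  · intro ν _
    congr 1
    · exact (Equiv.prod_comp σ.symm fun i => e (ν i)).symm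

theorem XT_mp_Om {k' : Type*} [CommRing k'] (φ : k →+* k') (e : ℤ → k) (n : ℕ) :
    mp φ (Om e n : LP k (Fin l)) = Om (fun j => φ (e j)) n := by
  unfold Om
  rw [map_sum]
  refine Finset.sum_congr rfl fun ν _ => ?_
  rw [mp_smul, mp_xp, map_prod]

theorem XT_iv_mp {k' : Type*} [CommRing k'] (φ : k →+* k') {c : k} (hc : IsNilpotent c)
    (a b : Fin l) : mp φ (iv c a b : LP k (Fin l)) = iv (φ c) a b := by
  have h1 := congrArg (mp φ) (iv_mul hc a b)
  rw [map_mul, map_sub, map_one, mp_smul] at h1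
  have h2 := iv_mul (hc.map φ) a b
  have h3 : mp φ (uu a b : LP k (Fin l)) = uu a b := mp_xp _ _
  rw [h3] at h1
  rw [mul_comm] at h1
  exact left_inv_eq_right_inv h1 h2

theorem XT_Kh_mp {k' : Type*} [CommRing k'] (φ : k →+* k') (q : k) {t : k} (ht : IsNilpotent t) :
    mp φ (Kh q t : LP k (Fin l)) = Kh (φ q) (φ t) := by
  unfold Kh
  rw [map_mul, map_prod, map_prod]
  congr 1
  · refine Finset.prod_congr rfl fun p _ => ?_
    have h3 : mp φ (uu p.1 p.2 : LP k (Fin l)) = uu p.1 p.2 := mp_xp _ _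
    rw [map_sub, map_one, mp_smul, h3, map_mul]
  · exact Finset.prod_congr rfl fun p _ => XT_iv_mp φ ht _ _

theorem XT_Psi_mp (e : ℤ → MvPolynomial ℕ k) (f : LP k (Fin l)) :
    Psi (k := k) e f = Psi (k := MvPolynomial ℕ k) e (mp MvPolynomial.C f) := by
  refine LP.induct (P := fun f => Psi (k := k) e f =
    Psi (k := MvPolynomial ℕ k) e (mp MvPolynomial.C f)) ?_ ?_ ?_ f
  · rw [map_zero, map_zero, map_zero]
  · intro f g hf hg
    rw [map_add, map_add, map_add, hf, hg]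
  · intro c ν
    rw [mp_smul, mp_xp, map_smul, map_smul]
    unfold Psi
    rw [mkLin_xp, mkLin_xp, MvPolynomial.smul_eq_C_mul, smul_eq_mul]

theorem XT_map_ee {k' : Type*} [CommRing k'] (φ : k →+* k') (n : ℤ) :
    MvPolynomial.map φ (ee n : MvPolynomial ℕ k) = ee n := by
  unfold ee
  split_ifs
  · exact map_zero _
  · exact map_one _
  · exact MvPolynomial.map_X _ _

theorem XT_eq_zero {f : MvPolynomial ℕ U2}
    (h : ∀ N : ℕ, MvPolynomial.map (Ideal.Quotient.mk (MvPolynomial.idealOfVars (Fin 2) ℤ ^ N)) f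
      = 0) : f = 0 := by
  refine MvPolynomial.ext _ _ fun d => ?_
  rw [MvPolynomial.coeff_zero]
  refine MvPolynomial.ext _ _ fun x => ?_
  rw [MvPolynomial.coeff_zero]
  have h1 := congrArg (MvPolynomial.coeff d) (h (x.degree + 1))
  rw [MvPolynomial.coeff_map, MvPolynomial.coeff_zero, Ideal.Quotient.eq_zero_iff_mem,
    MvPolynomial.mem_pow_idealOfVars_iff'] at h1
  exact h1 x (Nat.lt_succ_self _)

theorem XT_gen_mem (n : ℤ) : (ee n : MvPolynomial ℕ U2) ∈
    SS (MvPolynomial.X 0 : U2) (MvPolynomial.X 1) :=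
  Subsemiring.subset_closure (Or.inl ⟨n, rfl⟩)

theorem XT_q_mem : (MvPolynomial.C (MvPolynomial.X 0) - 1 : MvPolynomial ℕ U2) ∈
    SS (MvPolynomial.X 0 : U2) (MvPolynomial.X 1) := by
  refine Subsemiring.subset_closure (Or.inr (Or.inl ?_))
  rw [map_sub, map_one]

theorem XT_t_mem : (MvPolynomial.C (MvPolynomial.X 1) : MvPolynomial ℕ U2) ∈
    SS (MvPolynomial.X 0 : U2) (MvPolynomial.X 1) :=
  Subsemiring.subset_closure (Or.inr (Or.inr rfl))

theorem XT_exists (n : ℕ) {γ : Fin l → ℝ} (hγ : Gen γ) :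
    ∃ g : (Fin l → ℤ) →₀ MvPolynomial ℕ U2,
      (∀ κ, g κ ∈ SS (MvPolynomial.X 0 : U2) (MvPolynomial.X 1)) ∧
      (∀ κ, g κ ≠ 0 → ∀ i, 0 ≤ κ i) ∧
      Om ee n * B (MvPolynomial.C (MvPolynomial.X 0) : MvPolynomial ℕ U2) γ =
        ∑ κ ∈ g.support, g κ •
          (xp κ * B (MvPolynomial.C (MvPolynomial.X 0) : MvPolynomial ℕ U2) (sh γ κ)) := by
  refine Zp_repr _ _ ?_
  refine sym_mul_B_mem _ _ XT_q_mem hγ ?_ ?_
  · exact XT_Om_mem _ _ XT_gen_mem n
  · intro a b _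
    exact XT_Om_symm _ _ _

open Classical in
/-- The path weights. -/
noncomputable def XT_G (n : ℕ) (γ : Fin l → ℝ) (κ : Fin l → ℤ) : MvPolynomial ℕ U2 :=
  if h : Gen γ then (XT_exists n h).choose κ else 0

theorem XT_G_mem (n : ℕ) (γ : Fin l → ℝ) (κ : Fin l → ℤ) :
    XT_G n γ κ ∈ SS (MvPolynomial.X 0 : U2) (MvPolynomial.X 1) := by
  unfold XT_G
  split_ifs with h
  · exact (XT_exists n h).choose_spec.1 κ
  · exact Subsemiring.zero_mem _

end XT

/-- There is a function `G` of (degree, vector, exponent) with values in the positive elements such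
that `E(b)` is the sum of `t ^ |a| G` over all `a` with nonnegative run lengths. -/
theorem path_sum : ∃ G : ℕ → {m : ℕ} → (Fin (m + 1) → ℝ) → (Fin (m + 1) → ℤ) → MvPolynomial ℕ U2,
    (∀ n m (γ : Fin (m + 1) → ℝ) κ, G n γ κ ∈ SS (MvPolynomial.X 0 : U2) (MvPolynomial.X 1)) ∧
    ∀ (m : ℕ) (b : Fin (m + 1) → ℤ) (c : Fin (m + 1) → ℝ) (c' κ₀ : ℝ), Line b c c' κ₀ →
      ∀ F : Finset (Fin m → ℕ), (∀ a : Fin m → ℕ, (∀ i, 0 ≤ (b + Fin.snoc (fun i => (a i : ℤ)) 0 -
        Fin.cons 0 (fun i => (a i : ℤ)) : Fin (m + 1) → ℤ) i) → a ∈ F) →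
      EV (MvPolynomial.X 0 : U2) (MvPolynomial.X 1) b =
        ∑ a ∈ F, MvPolynomial.C (MvPolynomial.X 1) ^ (∑ i, a i) *
          G (∑ i, b i).toNat (sh c (Fin.cons 0 fun i => (a i : ℤ)))
            (b + Fin.snoc (fun i => (a i : ℤ)) 0 - Fin.cons 0 fun i => (a i : ℤ)) := by
  refine ⟨fun n m γ κ => XT_G n γ κ, fun n m γ κ => XT_G_mem n γ κ, ?_⟩
  intro m b c c' κ₀ hL F hF
  set n := (∑ i, b i).toNat with hn
  have hn' : ∑ i, b i = (n : ℤ) := (Int.toNat_of_nonneg hL.pos).symm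
  rw [← sub_eq_zero]
  refine XT_eq_zero fun N => ?_
  set φ := Ideal.Quotient.mk (MvPolynomial.idealOfVars (Fin 2) ℤ ^ N) with hφ
  rw [map_sub, sub_eq_zero, EV_map]
  have hX : ∀ i : Fin 2, (φ (MvPolynomial.X i)) ^ N = 0 := by
    intro i
    rw [← map_pow, hφ, Ideal.Quotient.eq_zero_iff_mem]
    exact Ideal.pow_mem_pow (Ideal.subset_span (Set.mem_range_self i)) N
  have hq : IsNilpotent (φ (MvPolynomial.X 0)) := ⟨N, hX 0⟩
  have ht : IsNilpotent (φ (MvPolynomial.X 1)) := ⟨N, hX 1⟩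
  rw [EV_eq_Psi hq ht b hL.pos, XT_Psi_mp, map_mul (mp MvPolynomial.C), map_mul (mp MvPolynomial.C),
    mp_xp, W_mp _ hq, XT_Kh_mp _ _ ht]
  have hgen : ∀ a : Fin m → ℕ, Gen (sh c (Fin.cons 0 fun i => (a i : ℤ))) := fun a => hL.gen.sh _
  set g : (Fin m → ℕ) → (Fin (m + 1) → ℤ) →₀ MvPolynomial ℕ U2 :=
    fun a => (XT_exists n (hgen a)).choose with hg
  have hgs := fun a => (XT_exists n (hgen a)).choose_spec
  have hG : ∀ a κ, XT_G n (sh c (Fin.cons 0 fun i => (a i : ℤ))) κ = g a κ := by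
    intro a κ
    unfold XT_G
    rw [dif_pos (hgen a)]
  rw [assembly (N := N) (hq.map MvPolynomial.C) (by rw [← map_pow, hX, map_zero]) ee
    (fun j hj => by unfold ee; rw [if_pos hj]) b hn' hL.h1 hL.h2 hL.gen hL.gen' hL.w hL.w0 hL.w'
    (fun a => (g a).mapRange (MvPolynomial.map φ) (map_zero _)) ?_]
  · rw [map_sum]
    have key : ∀ a : Fin m → ℕ, MvPolynomial.map φ (MvPolynomial.C (MvPolynomial.X 1) ^ (∑ i, a i) *
        XT_G n (sh c (Fin.cons 0 fun i => (a i : ℤ)))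
          (b + Fin.snoc (fun i => (a i : ℤ)) 0 - Fin.cons 0 fun i => (a i : ℤ))) =
        MvPolynomial.C (φ (MvPolynomial.X 1)) ^ (∑ i, a i) *
          ((g a).mapRange (MvPolynomial.map φ) (map_zero _))
            (b + Fin.snoc (fun i => (a i : ℤ)) 0 - Fin.cons 0 fun i => (a i : ℤ)) := by
      intro a
      rw [map_mul, map_pow, MvPolynomial.map_C, hG, Finsupp.mapRange_apply]
    simp only [key]
    have h1 : ∀ a ∈ F \ Fintype.piFinset (fun _ : Fin m => range N),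
        MvPolynomial.C (φ (MvPolynomial.X 1)) ^ (∑ i, a i) *
          ((g a).mapRange (MvPolynomial.map φ) (map_zero _))
            (b + Fin.snoc (fun i => (a i : ℤ)) 0 - Fin.cons 0 fun i => (a i : ℤ)) = 0 := by
      intro a ha
      rw [mem_sdiff, Fintype.mem_piFinset, not_forall] at ha
      obtain ⟨-, i, hi⟩ := ha
      rw [mem_range, not_lt] at hi
      have h2 : N ≤ ∑ i, a i := hi.trans (Finset.single_le_sum (fun _ _ => Nat.zero_le _)
        (mem_univ i))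
      rw [← map_pow, pow_eq_zero_of_le h2 (hX 1), map_zero, zero_mul]
    have h2 : ∀ a ∈ Fintype.piFinset (fun _ : Fin m => range N) \ F,
        MvPolynomial.C (φ (MvPolynomial.X 1)) ^ (∑ i, a i) *
          ((g a).mapRange (MvPolynomial.map φ) (map_zero _))
            (b + Fin.snoc (fun i => (a i : ℤ)) 0 - Fin.cons 0 fun i => (a i : ℤ)) = 0 := by
      intro a ha
      rw [mem_sdiff] at ha
      have h3 : g a (b + Fin.snoc (fun i => (a i : ℤ)) 0 - Fin.cons 0 fun i => (a i : ℤ)) = 0 := by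
        by_contra hc
        exact ha.2 (hF a ((hgs a).2.1 _ hc))
      rw [Finsupp.mapRange_apply, h3, map_zero, mul_zero]
    rw [← Finset.sum_inter_add_sum_sdiff (Fintype.piFinset fun _ : Fin m => range N) F,
      ← Finset.sum_inter_add_sum_sdiff F (Fintype.piFinset fun _ : Fin m => range N),
      Finset.sum_eq_zero h1, Finset.sum_eq_zero h2, Finset.inter_comm]
  · intro a
    have h1 := congrArg (mp (k' := MvPolynomial ℕ (U2 ⧸ MvPolynomial.idealOfVars (Fin 2) ℤ ^ N))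
      (MvPolynomial.map φ)) (hgs a).2.2
    rw [map_mul, XT_mp_Om, B_mp, map_sum, MvPolynomial.map_C] at h1
    simp only [XT_map_ee, mp_smul, map_mul, mp_xp, B_mp, MvPolynomial.map_C] at h1
    refine h1.trans ?_
    symm
    refine Finset.sum_subset (Finsupp.support_mapRange) ?_
    intro κ _ hκ
    rw [Finsupp.notMem_support_iff] at hκ
    rw [hκ, zero_smul]


end Pool.Agent.Helper95.SH
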